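import Pool.Agent.Results.MP_9b2a83_an.Polylog

/-!
`MP_9b2a83_an`, question Q1: `C_p(c, d)` lies between powers of `log (1/(c-1))`.
-/

namespace Pool.Agent.Results.MP_9b2a83_an.APolylog

open Finset Pool.Agent.Helper666.SG Pool.Agent.Results.MP_9b2a83_an.LogLower
  Pool.Agent.Results.MP_9b2a83_an.AllDims Pool.Agent.Results.MP_9b2a83_an.BothNorms

/-- Let `E_p(n, c, d)` be `minEdges ρ n c` for `ρ` the distance of `ℓ_p^d`, `p = 1` or `∞`, and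
`t = log₂ (2 + 1/(c-1))`, `u = log₂ (1/(c-1))` for `c > 1`. Explicit upper bounds
`E_1(n, c, d) ≤ K_d t^d n` and `E_∞(n, c, d) ≤ K'_d t^(2 d - 1) n`; lower bound
`sup_n E_p(n, c, d)/n ≥ u / 12`, and `≥ C (u / log₂ u)^m` for some `c` arbitrarily close to `1`,
if `p = 1`, `d ≥ 2 (m + 1)` or `p = ∞`, `d ≥ 2 m + 3`. -/
theorem result :
    (∀ d : ℕ, 1 ≤ d → ∀ c : ℝ, 1 < c → ∀ n : ℕ, 1 ≤ n →
      (minEdges (l1 (d := d)) n c : ℝ)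
        ≤ (1 + 16 * 2 ^ d * d * (((7 : ℝ) + d) * d + 1) ^ (d - 1))
          * (Real.logb 2 (2 + 1 / (c - 1))) ^ d * n) ∧
    (∀ d : ℕ, 2 ≤ d → ∀ c : ℝ, 1 < c → ∀ n : ℕ, 1 ≤ n →
      (minEdges (linf (d := d)) n c : ℝ)
        ≤ (1 + 16 * 4 ^ d * d * (((7 : ℝ) + d) * d + 1) ^ (2 * (d - 1)))
          * (Real.logb 2 (2 + 1 / (c - 1))) ^ (2 * d - 1) * n) ∧
    (∀ d : ℕ, 2 ≤ d → ∀ ρ : (Fin d → ℝ) → (Fin d → ℝ) → ℝ, (ρ = l1 ∨ ρ = linf) →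
      ∀ c : ℝ, 1 < c → ∃ n : ℕ, 2 ≤ n ∧
        n * (Real.logb 2 (1 / (c - 1)) / 12) ≤ minEdges ρ n c) ∧
    (∀ m d : ℕ, 1 ≤ m → 2 * (m + 1) ≤ d →
      ∃ C : ℝ, 0 < C ∧ ∀ ε : ℝ, 0 < ε → ∃ c : ℝ, 1 < c ∧ c < 1 + ε ∧ ∃ n : ℕ, 2 ≤ n ∧
        C * (Real.logb 2 (1 / (c - 1)) / Real.logb 2 (Real.logb 2 (1 / (c - 1)))) ^ m * n
          ≤ minEdges (l1 (d := d)) n c) ∧
    (∀ m d : ℕ, 1 ≤ m → 2 * m + 3 ≤ d →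
      ∃ C : ℝ, 0 < C ∧ ∀ ε : ℝ, 0 < ε → ∃ c : ℝ, 1 < c ∧ c < 1 + ε ∧ ∃ n : ℕ, 2 ≤ n ∧
        C * (Real.logb 2 (1 / (c - 1)) / Real.logb 2 (Real.logb 2 (1 / (c - 1)))) ^ m * n
          ≤ minEdges (linf (d := d)) n c) :=
  Pool.Agent.Results.MP_9b2a83_an.Polylog.result

end Pool.Agent.Results.MP_9b2a83_an.APolylog
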