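import Mathlib
import Pool.Agent.Helper666.SG.Upper

/-!
# Sparse weighted graphs containing finite subsets of `ℓ₁^d` and `ℓ_∞^d`

For the bit reversal set of `n = 2^k` points of the plane, every weighted graph (Steiner vertices
allowed) into which the set embeds with distortion at most `1 + 1/(16 n)` has at least
`k 2^(k-1) = (n/2) log₂ n` edges. Conversely `4 n log₂ n` edges suffice for the isometric embedding
of all `n`-point subsets of the plane.
-/

namespace Pool.Agent.Results.MP_9b2a83_an.LogLower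

open Finset
open Pool.Agent.Helper666.SG

/-! ## The notions of the problem -/

/-- The length of a walk: the sum of the weights of its edges. -/
def walkLength {V : Type} {G : SimpleGraph V} (w : Sym2 V → ℝ) {u v : V} (p : G.Walk u v) : ℝ :=
  (p.edges.map w).sum

/-- The shortest path distance. -/
noncomputable def gdist {V : Type} (G : SimpleGraph V) (w : Sym2 V → ℝ) (u v : V) : ℝ :=
  ⨅ p : G.Walk u v, walkLength w p

/-- The `ℓ₁` distance. -/
def l1 {d : ℕ} (x y : Fin d → ℝ) : ℝ := ∑ i, |x i - y i|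

/-- The `ℓ_∞` distance. -/
noncomputable def linf {d : ℕ} (x y : Fin d → ℝ) : ℝ := ‖x - y‖

/-- `M` with the metric `ρ` embeds with distortion `c` into the graph `G` with edge weights `w`. -/
def EmbedsWith {X : Type} (ρ : X → X → ℝ) (M : Finset X) (c : ℝ) {V : Type} (G : SimpleGraph V)
    (w : Sym2 V → ℝ) : Prop :=
  ∃ (f : X → V) (s : ℝ), 0 < s ∧ ∀ x ∈ M, ∀ y ∈ M,
    s * ρ x y ≤ gdist G w (f x) (f y) ∧ gdist G w (f x) (f y) ≤ c * s * ρ x y

/-- Every `n`-point set `M` embeds with distortion `c` into a weighted graph (finite, connected,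
with positive edge weights, possibly with further vertices) with at most `m` edges. -/
def Suffices {X : Type} (ρ : X → X → ℝ) (n : ℕ) (c : ℝ) (m : ℕ) : Prop :=
  ∀ M : Finset X, M.card = n → ∃ (V : Type) (_ : Finite V) (G : SimpleGraph V) (w : Sym2 V → ℝ),
    G.Connected ∧ (∀ e ∈ G.edgeSet, 0 < w e) ∧ G.edgeSet.ncard ≤ m ∧ EmbedsWith ρ M c G w

/-- The number `E(n, c)` of the metric `ρ`: the least number of edges that suffices. -/
noncomputable def minEdges {X : Type} (ρ : X → X → ℝ) (n : ℕ) (c : ℝ) : ℕ :=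
  sInf {m | Suffices ρ n c m}

/-! ## Walk lengths and distances -/

section Walks

variable {V : Type} {G : SimpleGraph V} {w : Sym2 V → ℝ}

lemma walkLength_nil (u : V) : walkLength w (SimpleGraph.Walk.nil : G.Walk u u) = 0 := by
  simp [walkLength]

lemma walkLength_cons {u v x : V} (h : G.Adj u v) (p : G.Walk v x) :
    walkLength w (SimpleGraph.Walk.cons h p) = w s(u, v) + walkLength w p := by
  simp [walkLength]

lemma walkLength_append {u v x : V} (p : G.Walk u v) (q : G.Walk v x) :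
    walkLength w (p.append q) = walkLength w p + walkLength w q := by
  simp [walkLength, SimpleGraph.Walk.edges_append]

lemma walkLength_nonneg (hw : ∀ e ∈ G.edgeSet, 0 < w e) {u v : V} (p : G.Walk u v) :
    0 ≤ walkLength w p := by
  apply List.sum_nonneg
  intro a ha
  obtain ⟨e, he, rfl⟩ := List.mem_map.1 ha
  exact (hw e (p.edges_subset_edgeSet he)).le

lemma bdd (hw : ∀ e ∈ G.edgeSet, 0 < w e) (u v : V) :
    BddBelow (Set.range fun p : G.Walk u v => walkLength w p) :=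
  ⟨0, by rintro _ ⟨p, rfl⟩; exact walkLength_nonneg hw p⟩

lemma gdist_le (hw : ∀ e ∈ G.edgeSet, 0 < w e) {u v : V} (p : G.Walk u v) :
    gdist G w u v ≤ walkLength w p := ciInf_le (bdd hw u v) p

lemma gdist_nonneg (hw : ∀ e ∈ G.edgeSet, 0 < w e) (u v : V) : 0 ≤ gdist G w u v :=
  Real.iInf_nonneg fun p => walkLength_nonneg hw p

lemma gdist_self (hw : ∀ e ∈ G.edgeSet, 0 < w e) (u : V) : gdist G w u u = 0 := by
  refine le_antisymm ?_ (gdist_nonneg hw u u)
  have := gdist_le hw (SimpleGraph.Walk.nil : G.Walk u u)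
  rwa [walkLength_nil] at this

lemma gdist_adj (hw : ∀ e ∈ G.edgeSet, 0 < w e) (hc : G.Connected) {a u v : V}
    (h : G.Adj u v) : gdist G w a v ≤ gdist G w a u + w s(u, v) := by
  have : Nonempty (G.Walk a u) := hc.preconnected a u
  have key : gdist G w a v - w s(u, v) ≤ gdist G w a u := by
    apply le_ciInf
    intro p
    have h1 := gdist_le hw (p.append (SimpleGraph.Walk.cons h SimpleGraph.Walk.nil))
    rw [walkLength_append, walkLength_cons, walkLength_nil] at h1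
    linarith
  linarith

lemma exists_walk_lt (hc : G.Connected) {u v : V} {r : ℝ} (h : gdist G w u v < r) :
    ∃ p : G.Walk u v, walkLength w p < r := by
  have : Nonempty (G.Walk u v) := hc.preconnected u v
  exact exists_lt_of_ciInf_lt h

/-- A function that is 1-Lipschitz along edges is 1-Lipschitz along walks. -/
lemma lip_walk {F : V → ℝ} (hF : ∀ a b, G.Adj a b → F b - F a ≤ w s(a, b)) :
    ∀ {u v : V} (p : G.Walk u v), F v - F u ≤ walkLength w p
  | u, _, SimpleGraph.Walk.nil => by rw [walkLength_nil]; simp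
  | u, v, SimpleGraph.Walk.cons (v := b) h p => by
    rw [walkLength_cons]
    have h1 := hF u b h
    have h2 := lip_walk hF p
    linarith

/-- The position of the vertices of an almost shortest walk. -/
lemma box {A B : V → ℝ} (hA : ∀ a b, G.Adj a b → A b - A a ≤ w s(a, b))
    (hB : ∀ a b, G.Adj a b → B b - B a ≤ w s(a, b)) {u v : V} (p : G.Walk u v) {δ : ℝ}
    (hp : walkLength w p ≤ A v - A u + δ) {a : V} (ha : a ∈ p.support) :
    A u + B u - δ ≤ A a + B a ∧ A a + B a ≤ A v + B v + δ ∧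
    A u - B u - δ ≤ A a - B a ∧ A a - B a ≤ A v - B v + δ := by
  classical
  have hs : walkLength w (p.takeUntil a ha) + walkLength w (p.dropUntil a ha)
      = walkLength w p := by
    rw [← walkLength_append, SimpleGraph.Walk.take_spec]
  have hB' : ∀ a b, G.Adj a b → (-B) b - (-B) a ≤ w s(a, b) := by
    intro a b h
    have := hB b a h.symm
    rw [Sym2.eq_swap] at this
    simp only [Pi.neg_apply]
    linarith
  have a1 := lip_walk hA (p.takeUntil a ha)
  have a2 := lip_walk hA (p.dropUntil a ha)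
  have b1 := lip_walk hB (p.takeUntil a ha)
  have b2 := lip_walk hB (p.dropUntil a ha)
  have c1 := lip_walk hB' (p.takeUntil a ha)
  have c2 := lip_walk hB' (p.dropUntil a ha)
  simp only [Pi.neg_apply] at c1 c2
  refine ⟨?_, ?_, ?_, ?_⟩ <;> linarith

end Walks

/-! ## Bit reversal -/

/-- Reversal of the `k` lowest binary digits. -/
def rev : ℕ → ℕ → ℕ
  | 0, _ => 0
  | k + 1, t => (t % 2) * 2 ^ k + rev k (t / 2)

lemma rev_lt : ∀ (k t : ℕ), rev k t < 2 ^ k
  | 0, _ => by simp [rev]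
  | k + 1, t => by
    have h := rev_lt k (t / 2)
    have h2 : t % 2 ≤ 1 := by omega
    have h3 : (t % 2) * 2 ^ k ≤ 1 * 2 ^ k := Nat.mul_le_mul_right _ h2
    simp only [rev]
    rw [pow_succ]
    omega

lemma rev_split : ∀ (a b H L : ℕ), L < 2 ^ a →
    rev (a + b) (H * 2 ^ a + L) = rev a L * 2 ^ b + rev b H
  | 0, b, H, L, h => by
    have : L = 0 := by simpa using h
    simp [this, rev]
  | a + 1, b, H, L, h => by
    have e1 : a + 1 + b = (a + b) + 1 := by ring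
    have e2 : (H * 2 ^ (a + 1) + L) % 2 = L % 2 := by
      rw [pow_succ, ← mul_assoc]; omega
    have e3 : (H * 2 ^ (a + 1) + L) / 2 = H * 2 ^ a + L / 2 := by
      rw [pow_succ, ← mul_assoc]; omega
    have h' : L / 2 < 2 ^ a := by rw [pow_succ] at h; omega
    rw [e1, rev, e2, e3, rev_split a b H (L / 2) h', rev, pow_add]
    ring

lemma rev_inj : ∀ (a L L' : ℕ), L < 2 ^ a → L' < 2 ^ a → rev a L = rev a L' → L = L'
  | 0, L, L', h, h', _ => by simp at h h'; omega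
  | a + 1, L, L', h, h', e => by
    have r1 := rev_lt a (L / 2)
    have r2 := rev_lt a (L' / 2)
    simp only [rev] at e
    rw [pow_succ] at h h'
    have hm : L % 2 = 0 ∨ L % 2 = 1 := by omega
    have hm' : L' % 2 = 0 ∨ L' % 2 = 1 := by omega
    have e2 : L % 2 = L' % 2 ∧ rev a (L / 2) = rev a (L' / 2) := by
      rcases hm with hm | hm <;> rcases hm' with hm' | hm' <;> rw [hm, hm'] at e ⊢ <;>
        constructor <;> omega
    have := rev_inj a (L / 2) (L' / 2) (by omega) (by omega) e2.2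
    omega

lemma rev_low (j r H L : ℕ) (h : L < 2 ^ j) :
    rev (j + 1 + r) (H * 2 ^ (j + 1) + L) = rev j L * 2 ^ (r + 1) + rev r H := by
  have e : H * 2 ^ (j + 1) + L = (2 * H) * 2 ^ j + L := by rw [pow_succ]; ring
  have e' : j + 1 + r = j + (r + 1) := by ring
  rw [e, e', rev_split j (r + 1) (2 * H) L h, rev]
  have h1 : 2 * H % 2 = 0 := by omega
  have h2 : 2 * H / 2 = H := by omega
  rw [h1, h2]
  ring

lemma rev_high (j r H L : ℕ) (h : L < 2 ^ j) :
    rev (j + 1 + r) (H * 2 ^ (j + 1) + L + 2 ^ j)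
      = rev j L * 2 ^ (r + 1) + rev r H + 2 ^ r := by
  have e : H * 2 ^ (j + 1) + L + 2 ^ j = (2 * H + 1) * 2 ^ j + L := by rw [pow_succ]; ring
  have e' : j + 1 + r = j + (r + 1) := by ring
  rw [e, e', rev_split j (r + 1) (2 * H + 1) L h, rev]
  have h1 : (2 * H + 1) % 2 = 1 := by omega
  have h2 : (2 * H + 1) / 2 = H := by omega
  rw [h1, h2]
  ring

/-! ## Potentials -/

section Potentials

variable {V : Type} {G : SimpleGraph V} {w : Sym2 V → ℝ}

/-- McShane extension of a function on finitely many vertices. -/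
noncomputable def pot (G : SimpleGraph V) (w : Sym2 V → ℝ) {N : ℕ} (φ : Fin N → ℝ)
    (g : Fin N → V) (v : V) : ℝ := ⨅ t : Fin N, (φ t + gdist G w (g t) v)

lemma pot_lip (hw : ∀ e ∈ G.edgeSet, 0 < w e) (hc : G.Connected) {N : ℕ} (hN : 0 < N)
    (φ : Fin N → ℝ) (g : Fin N → V) (a b : V) (h : G.Adj a b) :
    pot G w φ g b - pot G w φ g a ≤ w s(a, b) := by
  have : Nonempty (Fin N) := ⟨⟨0, hN⟩⟩
  obtain ⟨t, ht⟩ := exists_eq_ciInf_of_finite (f := fun t : Fin N => φ t + gdist G w (g t) a)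
  have h1 : pot G w φ g b ≤ φ t + gdist G w (g t) b :=
    ciInf_le (Set.finite_range _).bddBelow t
  have h2 := gdist_adj hw hc (a := g t) h
  have h3 : pot G w φ g a = φ t + gdist G w (g t) a := ht.symm
  linarith

lemma pot_eq (hw : ∀ e ∈ G.edgeSet, 0 < w e) {N : ℕ} (φ : Fin N → ℝ) (g : Fin N → V)
    (h : ∀ t t', φ t' - φ t ≤ gdist G w (g t) (g t')) (t : Fin N) :
    pot G w φ g (g t) = φ t := by
  have : Nonempty (Fin N) := ⟨t⟩
  apply le_antisymm
  · have h1 : pot G w φ g (g t) ≤ φ t + gdist G w (g t) (g t) :=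
      ciInf_le (Set.finite_range _).bddBelow t
    rw [gdist_self hw] at h1
    linarith
  · apply le_ciInf
    intro t'
    have := h t' t
    linarith

end Potentials

/-! ## The counting argument -/

lemma lt_of_real {p q : ℕ} (h : (p : ℝ) - 1 / 16 < (q : ℝ) - 1 / 2) : p < q := by
  have : (p : ℝ) < q := by linarith
  exact_mod_cast this

lemma le_of_real {p q : ℕ} (h : (p : ℝ) - 1 / 2 ≤ (q : ℝ) + 1 / 16) : p ≤ q := by
  by_contra hh
  have h1 : q + 1 ≤ p := by omega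
  have h2 : ((q + 1 : ℕ) : ℝ) ≤ p := by exact_mod_cast h1
  push_cast at h2
  linarith

lemma le_of_real' {p q : ℕ} (h : (p : ℝ) - 1 / 16 ≤ (q : ℝ) + 1 / 16) : p ≤ q := by
  by_contra hh
  have h1 : q + 1 ≤ p := by omega
  have h2 : ((q + 1 : ℕ) : ℝ) ≤ p := by exact_mod_cast h1
  push_cast at h2
  linarith

lemma arith1 {j j' H L H' : ℕ} (hj : j < j') (hL : L < 2 ^ j)
    (h1 : H * 2 ^ (j + 1) + L < H' * 2 ^ (j' + 1) + 2 ^ j')
    (h2 : H' * 2 ^ (j' + 1) + 2 ^ j' ≤ H * 2 ^ (j + 1) + L + 2 ^ j) : False := by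
  obtain ⟨r, rfl⟩ : ∃ r, j' = j + 1 + r := ⟨j' - j - 1, by omega⟩
  have e : H' * 2 ^ (j + 1 + r + 1) + 2 ^ (j + 1 + r)
      = (H' * 2 ^ (r + 1) + 2 ^ r) * 2 ^ (j + 1) := by
    rw [pow_add 2 (j + 1) r, show j + 1 + r + 1 = (r + 1) + (j + 1) by ring, pow_add]
    ring
  rw [e] at h1 h2
  have e2 : 2 ^ (j + 1) = 2 * 2 ^ j := by rw [pow_succ]; ring
  have h3 : H * 2 ^ (j + 1) < (H' * 2 ^ (r + 1) + 2 ^ r) * 2 ^ (j + 1) := by omega
  have h4 : (H' * 2 ^ (r + 1) + 2 ^ r) * 2 ^ (j + 1) < (H + 1) * 2 ^ (j + 1) := by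
    rw [add_mul H 1]
    omega
  have h5 := Nat.lt_of_mul_lt_mul_right h3
  have h6 := Nat.lt_of_mul_lt_mul_right h4
  omega

lemma arith2 {j H L H' : ℕ} (hL : L < 2 ^ j)
    (h2 : H' * 2 ^ (j + 1) + 2 ^ j ≤ H * 2 ^ (j + 1) + L + 2 ^ j) : H' ≤ H := by
  have e2 : 2 ^ (j + 1) = 2 * 2 ^ j := by rw [pow_succ]; ring
  have h4 : H' * 2 ^ (j + 1) < (H + 1) * 2 ^ (j + 1) := by
    rw [add_mul H 1]
    omega
  have := Nat.lt_of_mul_lt_mul_right h4
  omega

lemma arith3 {r P P' R : ℕ}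
    (h2 : P * 2 ^ (r + 1) + R ≤ P' * 2 ^ (r + 1) + R + 2 ^ r) : P ≤ P' := by
  have e2 : 2 ^ (r + 1) = 2 * 2 ^ r := by rw [pow_succ]; ring
  have hp : 0 < 2 ^ r := by positivity
  have h4 : P * 2 ^ (r + 1) < (P' + 1) * 2 ^ (r + 1) := by
    rw [add_mul P' 1]
    omega
  have := Nat.lt_of_mul_lt_mul_right h4
  omega

/-- The distance of two points of the bit reversal set. -/
def D (k : ℕ) (t t' : ℕ) : ℝ := |(t : ℝ) - t'| + |(rev k t : ℝ) - rev k t'|

/-- The index set of the pairs: level `j`, high part `H`, low part `L`. -/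
def idx (k : ℕ) : Finset (Σ _ : ℕ, ℕ × ℕ) :=
  (range k).sigma fun j => range (2 ^ (k - 1 - j)) ×ˢ range (2 ^ j)

lemma card_idx (k : ℕ) : (idx k).card = k * 2 ^ (k - 1) := by
  rw [idx, card_sigma]
  have : ∀ j ∈ range k, (range (2 ^ (k - 1 - j)) ×ˢ range (2 ^ j)).card = 2 ^ (k - 1) := by
    intro j hj
    rw [mem_range] at hj
    rw [card_product, card_range, card_range, ← pow_add]
    congr 1
    omega
  rw [sum_congr rfl this]
  simp

lemma idx_bound {k j H L : ℕ} (hj : j < k) (hH : H < 2 ^ (k - 1 - j)) (hL : L < 2 ^ j) :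
    H * 2 ^ (j + 1) + L + 2 ^ j < 2 ^ k := by
  have e2 : 2 ^ (j + 1) = 2 * 2 ^ j := by rw [pow_succ]; ring
  have h1 : (H + 1) * 2 ^ (j + 1) ≤ 2 ^ (k - 1 - j) * 2 ^ (j + 1) :=
    Nat.mul_le_mul_right _ hH
  rw [← pow_add, show k - 1 - j + (j + 1) = k by omega, add_mul] at h1
  omega

theorem core (k : ℕ) {V : Type} [Finite V] {G : SimpleGraph V} {w : Sym2 V → ℝ}
    (hc : G.Connected) (hw : ∀ e ∈ G.edgeSet, 0 < w e) (g : Fin (2 ^ k) → V) {s c : ℝ}
    (hs : 0 < s) (hcc : c ≤ 1 + 1 / (16 * 2 ^ k))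
    (hD : ∀ t t' : Fin (2 ^ k), s * D k t t' ≤ gdist G w (g t) (g t') ∧
      gdist G w (g t) (g t') ≤ c * s * D k t t') :
    k * 2 ^ (k - 1) ≤ G.edgeSet.ncard := by
  classical
  obtain ⟨A, hA⟩ : ∃ A : V → ℝ, A = pot G w (fun t : Fin (2 ^ k) => s * ((t : ℕ) + rev k t)) g :=
    ⟨_, rfl⟩
  obtain ⟨B, hB⟩ : ∃ B : V → ℝ, B = pot G w (fun t : Fin (2 ^ k) => s * ((t : ℕ) - rev k t)) g :=
    ⟨_, rfl⟩
  have hpos : 0 < 2 ^ k := by positivity
  have lipA : ∀ a b, G.Adj a b → A b - A a ≤ w s(a, b) := by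
    rw [hA]; exact pot_lip hw hc hpos _ g
  have lipB : ∀ a b, G.Adj a b → B b - B a ≤ w s(a, b) := by
    rw [hB]; exact pot_lip hw hc hpos _ g
  have eqA : ∀ t : Fin (2 ^ k), A (g t) = s * ((t : ℕ) + rev k t) := by
    intro t
    rw [hA]
    apply pot_eq hw
    intro t t'
    refine le_trans ?_ (hD t t').1
    rw [← mul_sub]
    apply mul_le_mul_of_nonneg_left _ hs.le
    have h1 := neg_abs_le (((t : ℕ) : ℝ) - (t' : ℕ))
    have h2 := neg_abs_le ((rev k t : ℝ) - rev k t')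
    simp only [D]
    linarith
  have eqB : ∀ t : Fin (2 ^ k), B (g t) = s * ((t : ℕ) - rev k t) := by
    intro t
    rw [hB]
    apply pot_eq hw
    intro t t'
    refine le_trans ?_ (hD t t').1
    rw [← mul_sub]
    apply mul_le_mul_of_nonneg_left _ hs.le
    have h1 := neg_abs_le (((t : ℕ) : ℝ) - (t' : ℕ))
    have h2 := le_abs_self ((rev k t : ℝ) - rev k t')
    simp only [D]
    linarith
  obtain ⟨X, hX⟩ : ∃ X : V → ℝ, ∀ v, A v + B v = 2 * s * X v :=
    ⟨fun v => (A v + B v) / (2 * s), fun v => by field_simp⟩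
  obtain ⟨Y, hY⟩ : ∃ Y : V → ℝ, ∀ v, A v - B v = 2 * s * Y v :=
    ⟨fun v => (A v - B v) / (2 * s), fun v => by field_simp⟩
  have eqX : ∀ t : Fin (2 ^ k), X (g t) = (t : ℕ) := by
    intro t
    have h1 := hX (g t)
    rw [eqA, eqB] at h1
    have h2 : (2 * s) * X (g t) = (2 * s) * (t : ℕ) := by linarith
    exact mul_left_cancel₀ (by positivity) h2
  have eqY : ∀ t : Fin (2 ^ k), Y (g t) = rev k t := by
    intro t
    have h1 := hY (g t)
    rw [eqA, eqB] at h1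
    have h2 : (2 * s) * Y (g t) = (2 * s) * rev k t := by linarith
    exact mul_left_cancel₀ (by positivity) h2
  -- the edge of a pair
  have edge : ∀ i : Σ _ : ℕ, ℕ × ℕ, i ∈ idx k → ∃ a b : V, G.Adj a b ∧
      X a < ((i.2.1 * 2 ^ (i.1 + 1) + 2 ^ i.1 : ℕ) : ℝ) - 1 / 2 ∧
      ((i.2.1 * 2 ^ (i.1 + 1) + 2 ^ i.1 : ℕ) : ℝ) - 1 / 2 ≤ X b ∧
      ((i.2.1 * 2 ^ (i.1 + 1) + i.2.2 : ℕ) : ℝ) - 1 / 16 ≤ X a ∧
      X b ≤ ((i.2.1 * 2 ^ (i.1 + 1) + i.2.2 + 2 ^ i.1 : ℕ) : ℝ) + 1 / 16 ∧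
      ((rev i.1 i.2.2 * 2 ^ (k - 1 - i.1 + 1) + rev (k - 1 - i.1) i.2.1 : ℕ) : ℝ) - 1 / 16
        ≤ Y a ∧
      Y a ≤ ((rev i.1 i.2.2 * 2 ^ (k - 1 - i.1 + 1) + rev (k - 1 - i.1) i.2.1
        + 2 ^ (k - 1 - i.1) : ℕ) : ℝ) + 1 / 16 := by
    rintro ⟨j, H, L⟩ hi
    simp only [idx, mem_sigma, mem_range, mem_product] at hi
    obtain ⟨hj, hH, hL⟩ := hi
    dsimp only
    have hb := idx_bound hj hH hL
    have hk : j + 1 + (k - 1 - j) = k := by omega
    have r1 := rev_low j (k - 1 - j) H L hL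
    have r2 := rev_high j (k - 1 - j) H L hL
    rw [hk] at r1 r2
    obtain ⟨r, hr⟩ : ∃ r, r = k - 1 - j := ⟨_, rfl⟩
    rw [← hr] at r1 r2 hk ⊢
    obtain ⟨t, ht⟩ : ∃ t, t = H * 2 ^ (j + 1) + L := ⟨_, rfl⟩
    rw [← ht] at r1 r2 hb ⊢
    obtain ⟨y, hy⟩ : ∃ y, y = rev j L * 2 ^ (r + 1) + rev r H := ⟨_, rfl⟩
    rw [← hy] at r1 r2 ⊢
    obtain ⟨u, hu⟩ : ∃ u : Fin (2 ^ k), u = ⟨t, by omega⟩ := ⟨_, rfl⟩
    obtain ⟨v, hv⟩ : ∃ v : Fin (2 ^ k), v = ⟨t + 2 ^ j, hb⟩ := ⟨_, rfl⟩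
    have hu1 : ((u : ℕ) : ℝ) = t := by rw [hu]
    have hv1 : ((v : ℕ) : ℝ) = t + 2 ^ j := by rw [hv]; push_cast; ring
    have hu2 : (rev k u : ℝ) = y := by rw [hu]; simp only [r1]
    have hv2 : (rev k v : ℝ) = y + 2 ^ r := by rw [hv]; simp only [r2]; push_cast; ring
    have hDD : D k u v = 2 ^ j + 2 ^ r := by
      simp only [D]
      rw [hu1, hv1, hu2, hv2]
      rw [show (t : ℝ) - (t + 2 ^ j) = -2 ^ j by ring, show (y : ℝ) - (y + 2 ^ r) = -2 ^ r by ring,
        abs_neg, abs_neg, abs_of_pos (by positivity), abs_of_pos (by positivity)]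
    have hDle : D k u v ≤ 2 ^ k := by
      have n1 : 2 ^ j + 2 ^ r ≤ 2 ^ k := by
        rw [← hk, pow_add, pow_succ]
        have q1 : 1 ≤ 2 ^ j := Nat.one_le_two_pow
        have q2 : 1 ≤ 2 ^ r := Nat.one_le_two_pow
        nlinarith
      rw [hDD]
      exact_mod_cast n1
    have hDpos : 0 < D k u v := by rw [hDD]; positivity
    have hlt : gdist G w (g u) (g v) < A (g v) - A (g u) + s / 8 := by
      rw [eqA, eqA, hu1, hv1, hu2, hv2]
      have h1 := (hD u v).2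
      have h2 : c * s * D k u v ≤ (1 + 1 / (16 * 2 ^ k)) * (s * D k u v) := by
        rw [mul_assoc]
        exact mul_le_mul_of_nonneg_right hcc (by positivity)
      have h3 : 1 / (16 * 2 ^ k) * (s * D k u v) ≤ s / 16 := by
        rw [div_mul_eq_mul_div, div_le_div_iff₀ (by positivity) (by norm_num)]
        nlinarith
      have h4 : (1 + 1 / (16 * 2 ^ k)) * (s * D k u v)
          = s * D k u v + 1 / (16 * 2 ^ k) * (s * D k u v) := by ring
      have h5 : s * D k u v = s * (2 ^ j + 2 ^ r) := by rw [hDD]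
      have h6 : s * ((t : ℝ) + 2 ^ j + (y + 2 ^ r)) - s * (t + y) = s * (2 ^ j + 2 ^ r) := by ring
      linarith
    obtain ⟨p, hp⟩ := exists_walk_lt hc hlt
    -- the crossing
    obtain ⟨τ, hτ⟩ : ∃ τ : ℝ, τ = ((H * 2 ^ (j + 1) + 2 ^ j : ℕ) : ℝ) - 1 / 2 := ⟨_, rfl⟩
    have hm1 : t + 1 ≤ H * 2 ^ (j + 1) + 2 ^ j := by omega
    have hm2 : H * 2 ^ (j + 1) + 2 ^ j ≤ t + 2 ^ j := by omega
    have hm1' : (t : ℝ) + 1 ≤ ((H * 2 ^ (j + 1) + 2 ^ j : ℕ) : ℝ) := by exact_mod_cast hm1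
    have hm2' : ((H * 2 ^ (j + 1) + 2 ^ j : ℕ) : ℝ) ≤ (t : ℝ) + 2 ^ j := by exact_mod_cast hm2
    obtain ⟨dd, hd, hd1, hd2⟩ := p.exists_boundary_dart {x | X x < τ}
      (by rw [Set.mem_ofPred_eq, eqX, hu1, hτ]; linarith)
      (by rw [Set.mem_ofPred_eq, eqX, hv1, hτ]; push Not; linarith)
    have s1 := p.dart_fst_mem_support_of_mem_darts hd
    have s2 := p.dart_snd_mem_support_of_mem_darts hd
    obtain ⟨a1, a2, a3, a4⟩ := box lipA lipB p hp.le s1
    obtain ⟨b1, b2, b3, b4⟩ := box lipA lipB p hp.le s2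
    rw [hX, hX] at a1 a2 b1 b2
    rw [hY, hY] at a3 a4 b3 b4
    rw [eqX, hu1] at a1 b1
    rw [eqX, hv1] at a2 b2
    rw [eqY, hu2] at a3 b3
    rw [eqY, hv2] at a4 b4
    have scale : ∀ x y : ℝ, 2 * s * x - s / 8 ≤ 2 * s * y → x - 1 / 16 ≤ y := by
      intro x y h
      have : (2 * s) * (x - 1 / 16) ≤ (2 * s) * y := by linarith
      exact le_of_mul_le_mul_left this (by positivity)
    have scale' : ∀ x y : ℝ, 2 * s * x ≤ 2 * s * y + s / 8 → x ≤ y + 1 / 16 := by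
      intro x y h
      have : (2 * s) * x ≤ (2 * s) * (y + 1 / 16) := by linarith
      exact le_of_mul_le_mul_left this (by positivity)
    refine ⟨dd.fst, dd.snd, dd.adj, ?_, ?_, ?_, ?_, ?_, ?_⟩
    · rw [← hτ]; exact hd1
    · rw [← hτ]
      simpa using hd2
    · exact scale _ _ a1
    · push_cast; exact scale' _ _ b2
    · exact scale _ _ a3
    · push_cast; exact scale' _ _ a4
  have hVne : Nonempty V := hc.nonempty
  choose! a b hab using edge
  have hinj : Set.InjOn (fun i => s(a i, b i)) (idx k : Set (Σ _ : ℕ, ℕ × ℕ)) := by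
    intro i hi i' hi' hh
    have P := hab i hi
    have P' := hab i' hi'
    have hsame : a i = a i' ∧ b i = b i' := by
      rcases Sym2.eq_iff.1 hh with h | ⟨h1, h2⟩
      · exact h
      · exfalso
        have q1 := P.2.1
        have q2 := P.2.2.1
        have q3 := P'.2.1
        have q4 := P'.2.2.1
        rw [← h2] at q3
        rw [← h1] at q4
        linarith
    obtain ⟨j, H, L⟩ := i
    obtain ⟨j', H', L'⟩ := i'
    rw [← hsame.1, ← hsame.2] at P'
    obtain ⟨_, p1, p2, p3, p4, p5, p6⟩ := P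
    obtain ⟨_, p1', p2', p3', p4', p5', p6'⟩ := P'
    dsimp only at p1 p2 p3 p4 p5 p6 p1' p2' p3' p4' p5' p6'
    simp only [idx, mem_coe, mem_sigma, mem_range, mem_product] at hi hi'
    obtain ⟨hj, hH, hL⟩ := hi
    obtain ⟨hj', hH', hL'⟩ := hi'
    have c1 := lt_of_real (lt_of_le_of_lt p3 p1')
    have c2 := le_of_real (le_trans p2' p4)
    have c1' := lt_of_real (lt_of_le_of_lt p3' p1)
    have c2' := le_of_real (le_trans p2 p4')
    have hjj : j = j' := by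
      rcases lt_trichotomy j j' with h | h | h
      · exact (arith1 h hL c1 c2).elim
      · exact h
      · exact (arith1 h hL' c1' c2').elim
    subst hjj
    have hHH : H = H' := le_antisymm (arith2 hL' c2') (arith2 hL c2)
    subst hHH
    have d1 := arith3 (le_of_real' (le_trans p5 p6'))
    have d2 := arith3 (le_of_real' (le_trans p5' p6))
    have hLL := rev_inj j L L' hL hL' (le_antisymm d1 d2)
    subst hLL
    rfl
  have hfin : G.edgeSet.Finite := Set.toFinite _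
  rw [Set.ncard_eq_toFinset_card _ hfin, ← card_idx k]
  apply Finset.card_le_card_of_injOn (fun i => s(a i, b i)) _ hinj
  intro i hi
  simp only [Set.Finite.coe_toFinset]
  exact (hab i hi).1

/-! ## From networks to graphs -/

section Graph

variable {P : Type} {δ : P → P → ℝ}

/-- The vertices reachable from `p0`. -/
def Reach (δ : P → P → ℝ) (E : Finset (Sym2 P)) (p0 : P) : Set P :=
  {v | ∃ L, Path δ (E : Set (Sym2 P)) p0 v L}

/-- The graph of a network. -/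
def netGraph (δ : P → P → ℝ) (E : Finset (Sym2 P)) (p0 : P) : SimpleGraph (Reach δ E p0) where
  Adj a b := a ≠ b ∧ s((a : P), (b : P)) ∈ E
  symm := ⟨fun a b h => ⟨h.1.symm, by rw [Sym2.eq_swap]; exact h.2⟩⟩
  loopless := ⟨fun a h => h.1 rfl⟩

/-- The weights of the graph of a network. -/
def netWeight (hδ : MetricLike δ) (E : Finset (Sym2 P)) (p0 : P) : Sym2 (Reach δ E p0) → ℝ :=
  Sym2.lift ⟨fun a b => δ a b, fun a b => hδ.symm a b⟩

lemma reach_finite (E : Finset (Sym2 P)) (p0 : P) : (Reach δ E p0).Finite := by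
  classical
  have h1 : (⋃ e ∈ (E : Set (Sym2 P)), {x | x ∈ e}).Finite := by
    apply Set.Finite.biUnion E.finite_toSet
    intro e _
    induction e with
    | _ a b =>
      apply (Set.toFinite ({a, b} : Set P)).subset
      intro x hx
      simpa using hx
  apply (h1.insert p0).subset
  rintro v ⟨L, hL⟩
  rcases hL.mem with h | ⟨e, he, hv⟩
  · exact Or.inl h
  · right
    rw [Set.mem_iUnion₂]
    exact ⟨e, he, hv⟩

lemma toWalk (hδ : MetricLike δ) (E : Finset (Sym2 P)) (p0 : P) {u v : P} {L : ℝ}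
    (h : Path δ (E : Set (Sym2 P)) u v L) : ∀ hu : u ∈ Reach δ E p0,
    ∃ (hv : v ∈ Reach δ E p0) (p : (netGraph δ E p0).Walk ⟨u, hu⟩ ⟨v, hv⟩),
      walkLength (netWeight hδ E p0) p = L := by
  induction h with
  | nil u => exact fun hu => ⟨hu, SimpleGraph.Walk.nil, walkLength_nil _⟩
  | @cons u v x L he _ ih =>
    intro hu
    have hv : v ∈ Reach δ E p0 := by
      obtain ⟨L', hL'⟩ := hu
      exact ⟨_, hL'.append (Path.single he)⟩
    obtain ⟨hx, p, hp⟩ := ih hv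
    by_cases huv : u = v
    · subst huv
      exact ⟨hx, p, by rw [hp, hδ.self]; ring⟩
    · have hadj : (netGraph δ E p0).Adj ⟨u, hu⟩ ⟨v, hv⟩ :=
        ⟨fun h => huv (congrArg Subtype.val h), he⟩
      refine ⟨hx, SimpleGraph.Walk.cons hadj p, ?_⟩
      rw [walkLength_cons, hp]
      rfl

lemma graph_of_net (hδ : MetricLike δ) (M : Finset P) (hM : M.Nonempty) (E : Finset (Sym2 P))
    (hE : ∀ p ∈ M, ∀ q ∈ M, Path δ (E : Set (Sym2 P)) p q (δ p q)) :
    ∃ (V : Type) (_ : Finite V) (G : SimpleGraph V) (w : Sym2 V → ℝ), G.Connected ∧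
      (∀ e ∈ G.edgeSet, 0 < w e) ∧ G.edgeSet.ncard ≤ E.card ∧ EmbedsWith δ M 1 G w := by
  classical
  obtain ⟨p0, hp0⟩ := hM
  have h0 : p0 ∈ Reach δ E p0 := ⟨0, Path.nil p0⟩
  have hfin : Finite (Reach δ E p0) := (reach_finite E p0).to_subtype
  have hconn : (netGraph δ E p0).Connected := by
    rw [SimpleGraph.connected_iff_exists_forall_reachable]
    refine ⟨⟨p0, h0⟩, ?_⟩
    rintro ⟨v, L, hL⟩
    obtain ⟨_, p, _⟩ := toWalk hδ E p0 hL h0
    exact ⟨p⟩
  have hpos : ∀ e ∈ (netGraph δ E p0).edgeSet, 0 < netWeight hδ E p0 e := by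
    intro e
    induction e with
    | _ a b =>
      intro h
      have h' : a ≠ b ∧ s((a : P), (b : P)) ∈ E := h
      exact hδ.pos _ _ (fun hh => h'.1 (Subtype.ext hh))
  have hcard : (netGraph δ E p0).edgeSet.ncard ≤ E.card := by
    rw [← Set.ncard_coe_finset]
    apply Set.ncard_le_ncard_of_injOn (Sym2.map Subtype.val)
    · intro e
      induction e with
      | _ a b =>
        intro h
        have h' : a ≠ b ∧ s((a : P), (b : P)) ∈ E := h
        exact h'.2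
    · exact (Sym2.map.injective Subtype.val_injective).injOn
  refine ⟨Reach δ E p0, hfin, netGraph δ E p0, netWeight hδ E p0, hconn, hpos, hcard, ?_⟩
  have hin : ∀ x ∈ M, x ∈ Reach δ E p0 := fun x hx => ⟨_, hE p0 hp0 x hx⟩
  refine ⟨fun x => if h : x ∈ M then ⟨x, hin x h⟩ else ⟨p0, h0⟩, 1, one_pos, ?_⟩
  intro x hx y hy
  simp only [hx, hy, dite_true, one_mul]
  have : Nonempty ((netGraph δ E p0).Walk ⟨x, hin x hx⟩ ⟨y, hin y hy⟩) :=
    hconn.preconnected _ _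
  constructor
  · apply le_ciInf
    intro p
    have h1 := lip_walk (w := netWeight hδ E p0) (F := fun v : Reach δ E p0 => δ x v)
      (by
        intro a b _
        have h2 := hδ.tri x a b
        have h3 : netWeight hδ E p0 s(a, b) = δ a b := rfl
        rw [h3]
        linarith) p
    simp only [hδ.self, sub_zero] at h1
    exact h1
  · obtain ⟨_, p, hp⟩ := toWalk hδ E p0 (hE x hx y hy) (hin x hx)
    rw [← hp]
    exact gdist_le hpos p

end Graph

/-! ## The metrics -/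

lemma l1_metric {d : ℕ} : MetricLike (l1 (d := d)) where
  self x := by simp [l1]
  symm x y := by simp only [l1]; exact sum_congr rfl fun i _ => abs_sub_comm _ _
  tri x y z := by
    simp only [l1]
    rw [← sum_add_distrib]
    exact sum_le_sum fun i _ => abs_sub_le _ _ _
  pos x y h := by
    simp only [l1]
    obtain ⟨i, hi⟩ := Function.ne_iff.1 h
    exact sum_pos' (fun i _ => abs_nonneg _) ⟨i, mem_univ i, abs_pos.2 (sub_ne_zero.2 hi)⟩

lemma linf_metric {d : ℕ} : MetricLike (linf (d := d)) where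
  self x := by simp [linf]
  symm x y := by simp only [linf]; exact norm_sub_rev _ _
  tri x y z := by simp only [linf]; exact norm_sub_le_norm_sub_add_norm_sub _ _ _
  pos x y h := by simp only [linf]; exact norm_pos_iff.2 (sub_ne_zero.2 h)

lemma metric {d : ℕ} {ρ : (Fin d → ℝ) → (Fin d → ℝ) → ℝ} (hρ : ρ = l1 ∨ ρ = linf) :
    MetricLike ρ := by
  rcases hρ with rfl | rfl
  · exact l1_metric
  · exact linf_metric

lemma abs_add_abs_eq_max (a b : ℝ) : |a| + |b| = max |a + b| |a - b| := by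
  rcases abs_cases a with ⟨h1, h2⟩ | ⟨h1, h2⟩ <;> rcases abs_cases b with ⟨h3, h4⟩ | ⟨h3, h4⟩ <;>
    rcases abs_cases (a + b) with ⟨h5, h6⟩ | ⟨h5, h6⟩ <;>
    rcases abs_cases (a - b) with ⟨h7, h8⟩ | ⟨h7, h8⟩ <;>
    rcases max_cases |a + b| |a - b| with ⟨h9, h10⟩ | ⟨h9, h10⟩ <;> rw [h9] <;> linarith

/-- The plane with the `ℓ₁` distance sits isometrically in `ℓ₁^d` and in `ℓ_∞^d`. -/
lemma exists_plane {d : ℕ} (hd : 2 ≤ d) {ρ : (Fin d → ℝ) → (Fin d → ℝ) → ℝ}
    (hρ : ρ = l1 ∨ ρ = linf) :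
    ∃ ι : ℝ → ℝ → (Fin d → ℝ), ∀ x y x' y', ρ (ι x y) (ι x' y') = |x - x'| + |y - y'| := by
  obtain ⟨e, rfl⟩ : ∃ e, d = e + 2 := ⟨d - 2, by omega⟩
  rcases hρ with rfl | rfl
  · refine ⟨fun x y => Fin.cons x (Fin.cons y fun _ => 0), ?_⟩
    intro x y x' y'
    simp [l1, Fin.sum_univ_succ]
  · refine ⟨fun x y => Fin.cons (x + y) (Fin.cons (x - y) fun _ => 0), ?_⟩
    intro x y x' y'
    simp only [linf]
    rw [abs_add_abs_eq_max]
    have e1 : x - x' + (y - y') = (x + y) - (x' + y') := by ring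
    have e2 : x - x' - (y - y') = (x - y) - (x' - y') := by ring
    rw [e1, e2]
    apply le_antisymm
    · rw [pi_norm_le_iff_of_nonneg (le_max_of_le_left (abs_nonneg _))]
      intro i
      refine Fin.cases ?_ (fun i => ?_) i
      · simp [Real.norm_eq_abs]
      · refine Fin.cases ?_ (fun i => ?_) i
        · simp [Real.norm_eq_abs]
        · simp
    · apply max_le
      · have := norm_le_pi_norm ((Fin.cons (x + y) (Fin.cons (x - y) fun _ => 0) :
          Fin (e + 2) → ℝ) - Fin.cons (x' + y') (Fin.cons (x' - y') fun _ => 0)) 0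
        simpa [Real.norm_eq_abs] using this
      · have := norm_le_pi_norm ((Fin.cons (x + y) (Fin.cons (x - y) fun _ => 0) :
          Fin (e + 2) → ℝ) - Fin.cons (x' + y') (Fin.cons (x' - y') fun _ => 0)) 1
        simpa [Real.norm_eq_abs] using this

/-- `ℓ₁²` and `ℓ_∞²` are isometric to the plane with the `ℓ₁` distance. -/
lemma exists_chart {ρ : (Fin 2 → ℝ) → (Fin 2 → ℝ) → ℝ} (hρ : ρ = l1 ∨ ρ = linf) :
    ∃ κ : (Fin 2 → ℝ) → ℝ × ℝ, ∀ x y, d1 (κ x) (κ y) = ρ x y := by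
  rcases hρ with rfl | rfl
  · refine ⟨fun x => (x 0, x 1), ?_⟩
    intro x y
    simp [d1, l1]
  · refine ⟨fun x => ((x 0 + x 1) / 2, (x 0 - x 1) / 2), ?_⟩
    intro x y
    simp only [d1, linf]
    rw [abs_add_abs_eq_max]
    have e1 : (x 0 + x 1) / 2 - (y 0 + y 1) / 2 + ((x 0 - x 1) / 2 - (y 0 - y 1) / 2)
        = x 0 - y 0 := by ring
    have e2 : (x 0 + x 1) / 2 - (y 0 + y 1) / 2 - ((x 0 - x 1) / 2 - (y 0 - y 1) / 2)
        = x 1 - y 1 := by ring
    rw [e1, e2]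
    apply le_antisymm
    · apply max_le
      · have := norm_le_pi_norm (x - y) 0
        simpa [Real.norm_eq_abs] using this
      · have := norm_le_pi_norm (x - y) 1
        simpa [Real.norm_eq_abs] using this
    · rw [pi_norm_le_iff_of_nonneg (le_max_of_le_left (abs_nonneg _))]
      intro i
      fin_cases i
      · simp [Real.norm_eq_abs]
      · simp [Real.norm_eq_abs]

/-! ## The bounds -/

lemma suffices_mono {X : Type} {ρ : X → X → ℝ} (hρ : MetricLike ρ) {n m : ℕ} {c : ℝ}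
    (hc : 1 ≤ c) (h : Suffices ρ n 1 m) : Suffices ρ n c m := by
  intro M hM
  obtain ⟨V, hV, G, w, h1, h2, h3, f, s, hs, h4⟩ := h M hM
  refine ⟨V, hV, G, w, h1, h2, h3, f, s, hs, ?_⟩
  intro x hx y hy
  obtain ⟨h5, h6⟩ := h4 x hx y hy
  refine ⟨h5, h6.trans ?_⟩
  have h7 : 0 ≤ ρ x y := by
    by_cases hxy : x = y
    · rw [hxy, hρ.self]
    · exact (hρ.pos x y hxy).le
  have h8 : 0 ≤ s * ρ x y := mul_nonneg hs.le h7
  nlinarith

lemma suffices_complete {X : Type} {ρ : X → X → ℝ} (hρ : MetricLike ρ) {n : ℕ} (hn : 1 ≤ n) :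
    Suffices ρ n 1 (n * n) := by
  classical
  intro M hM
  have hne : M.Nonempty := card_pos.1 (by omega)
  obtain ⟨V, hV, G, w, h1, h2, h3, h4⟩ := graph_of_net hρ M hne
    ((M ×ˢ M).image fun p => s(p.1, p.2)) (by
      intro p hp q hq
      apply Path.single
      rw [mem_coe]
      exact mem_image.2 ⟨(p, q), mem_product.2 ⟨hp, hq⟩, rfl⟩)
  refine ⟨V, hV, G, w, h1, h2, h3.trans ?_, h4⟩
  refine card_image_le.trans ?_
  rw [card_product, hM]

lemma suffices_minEdges {X : Type} {ρ : X → X → ℝ} (hρ : MetricLike ρ) {n : ℕ} {c : ℝ}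
    (hn : 1 ≤ n) (hc : 1 ≤ c) : Suffices ρ n c (minEdges ρ n c) := by
  apply Nat.sInf_mem (s := {m | Suffices ρ n c m})
  exact ⟨n * n, suffices_mono hρ hc (suffices_complete hρ hn)⟩

lemma plane_inj {d : ℕ} {ρ : (Fin d → ℝ) → (Fin d → ℝ) → ℝ} {ι : ℝ → ℝ → (Fin d → ℝ)}
    (hι : ∀ x y x' y', ρ (ι x y) (ι x' y') = |x - x'| + |y - y'|) {x y x' y' : ℝ}
    (h : ι x y = ι x' y') : x = x' := by
  have h1 := hι x y x' y'
  have h2 := hι x' y' x' y'
  rw [h, h2] at h1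
  simp only [sub_self, abs_zero, add_zero] at h1
  have h3 := abs_nonneg (x - x')
  have h4 := abs_nonneg (y - y')
  have h5 : |x - x'| = 0 := by linarith
  rw [abs_eq_zero] at h5
  linarith

lemma lower {d : ℕ} (hd : 2 ≤ d) {ρ : (Fin d → ℝ) → (Fin d → ℝ) → ℝ}
    (hρ : ρ = l1 ∨ ρ = linf) {n k m : ℕ} {c : ℝ} (hk : 2 ^ k ≤ n)
    (hc : c ≤ 1 + 1 / (16 * 2 ^ k)) (h : Suffices ρ n c m) : k * 2 ^ (k - 1) ≤ m := by
  classical
  obtain ⟨ι, hι⟩ := exists_plane hd hρ
  have hcard : ((range n).image fun t : ℕ => ι t (rev k t)).card = n := by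
    rw [card_image_of_injective, card_range]
    intro t t' ht
    exact_mod_cast plane_inj hι ht
  obtain ⟨V, hV, G, w, h1, h2, h3, f, s, hs, h4⟩ := h _ hcard
  refine le_trans ?_ h3
  refine core k h1 h2 (fun t => f (ι (t : ℕ) (rev k t))) hs hc ?_
  intro t t'
  have m1 : ι (t : ℕ) (rev k t) ∈ (range n).image fun t : ℕ => ι t (rev k t) :=
    mem_image_of_mem (fun t : ℕ => ι t (rev k t)) (mem_range.2 (lt_of_lt_of_le t.2 hk))
  have m2 : ι (t' : ℕ) (rev k t') ∈ (range n).image fun t : ℕ => ι t (rev k t) :=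
    mem_image_of_mem (fun t : ℕ => ι t (rev k t)) (mem_range.2 (lt_of_lt_of_le t'.2 hk))
  have h5 := h4 _ m1 _ m2
  rw [hι] at h5
  exact h5

lemma lower_two {d : ℕ} (hd : 2 ≤ d) {ρ : (Fin d → ℝ) → (Fin d → ℝ) → ℝ}
    (hρ : ρ = l1 ∨ ρ = linf) {m : ℕ} {c : ℝ} (h : Suffices ρ 2 c m) : 1 ≤ m := by
  classical
  obtain ⟨ι, hι⟩ := exists_plane hd hρ
  have hne : ι 0 0 ≠ ι 1 0 := fun hh => by
    have := plane_inj hι hh
    norm_num at this
  obtain ⟨V, hV, G, w, h1, h2, h3, f, s, hs, h4⟩ := h {ι 0 0, ι 1 0} (card_pair hne)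
  refine le_trans ?_ h3
  have h5 := (h4 (ι 0 0) (by simp) (ι 1 0) (by simp)).1
  have hff : f (ι 0 0) ≠ f (ι 1 0) := by
    intro hh
    rw [hh, gdist_self h2, hι] at h5
    norm_num at h5
    linarith
  obtain ⟨p⟩ := h1.preconnected (f (ι 0 0)) (f (ι 1 0))
  have key : ∀ {a b : V}, G.Walk a b → a ≠ b → ∃ e, e ∈ G.edgeSet := by
    intro a b q hab
    cases q with
    | nil => exact (hab rfl).elim
    | cons hadj q => exact ⟨_, G.mem_edgeSet.2 hadj⟩
  have hex := key p hff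
  have hfin : G.edgeSet.Finite := Set.toFinite _
  have := (Set.ncard_pos hfin).2 hex
  omega

lemma lower_log {d : ℕ} (hd : 2 ≤ d) {ρ : (Fin d → ℝ) → (Fin d → ℝ) → ℝ}
    (hρ : ρ = l1 ∨ ρ = linf) {n : ℕ} (hn : 2 ≤ n) {c : ℝ} (hc1 : 1 ≤ c)
    (hc : c ≤ 1 + 1 / (16 * n)) : n * Nat.log 2 n ≤ 4 * minEdges ρ n c := by
  have hS := suffices_minEdges (metric hρ) (n := n) (by omega) hc1
  obtain ⟨k, hk⟩ : ∃ k, k = Nat.log 2 n := ⟨_, rfl⟩
  have h1 : 2 ^ k ≤ n := by rw [hk]; exact Nat.pow_log_le_self 2 (by omega)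
  have h2 : n < 2 ^ (k + 1) := by rw [hk]; exact Nat.lt_pow_succ_log_self (by norm_num) n
  have hkpos : 0 < k := by rw [hk]; exact Nat.log_pos (by norm_num) hn
  have h3 : c ≤ 1 + 1 / (16 * 2 ^ k) := by
    refine hc.trans ?_
    have h1' : (2 : ℝ) ^ k ≤ n := by exact_mod_cast h1
    gcongr
  have h4 := lower hd hρ h1 h3 hS
  rw [← hk]
  obtain ⟨r, rfl⟩ : ∃ r, k = r + 1 := ⟨k - 1, by omega⟩
  rw [show r + 1 - 1 = r by omega] at h4
  have h5 : n ≤ 4 * 2 ^ r := by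
    have : 2 ^ (r + 1 + 1) = 4 * 2 ^ r := by rw [pow_succ, pow_succ]; ring
    omega
  calc n * (r + 1) ≤ (4 * 2 ^ r) * (r + 1) := Nat.mul_le_mul_right _ h5
    _ = 4 * ((r + 1) * 2 ^ r) := by ring
    _ ≤ 4 * minEdges ρ n c := Nat.mul_le_mul_left _ h4

lemma upper_log {ρ : (Fin 2 → ℝ) → (Fin 2 → ℝ) → ℝ} (hρ : ρ = l1 ∨ ρ = linf) {n : ℕ}
    (hn : 2 ≤ n) : minEdges ρ n 1 ≤ 4 * (n * Nat.log 2 n) := by
  classical
  apply Nat.sInf_le
  intro M hM
  obtain ⟨κ, hκ⟩ := exists_chart hρ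
  obtain ⟨k, hk⟩ : ∃ k, k = Nat.log 2 n := ⟨_, rfl⟩
  have h2 : n < 2 ^ (k + 1) := by rw [hk]; exact Nat.lt_pow_succ_log_self (by norm_num) n
  have hkpos : 0 < k := by rw [hk]; exact Nat.log_pos (by norm_num) hn
  have hc : (M.image κ).card ≤ n := by rw [← hM]; exact card_image_le
  obtain ⟨E, hE, hP⟩ := net (k + 1) (M.image κ) (by omega)
  have hne : (M.image κ).Nonempty := (card_pos.1 (by omega : 0 < M.card)).image κ
  obtain ⟨V, hV, G, w, g1, g2, g3, f, s, hs, g4⟩ := graph_of_net d1_metric _ hne E hP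
  refine ⟨V, hV, G, w, g1, g2, ?_, fun x => f (κ x), s, hs, ?_⟩
  · refine g3.trans (hE.trans ?_)
    rw [← hk]
    calc 2 * (M.image κ).card * (k + 1) ≤ 2 * n * (k + 1) := by gcongr
      _ ≤ 2 * n * (k + k) := by gcongr; omega
      _ = 4 * (n * k) := by ring
  · intro x hx y hy
    have := g4 (κ x) (mem_image_of_mem κ hx) (κ y) (mem_image_of_mem κ hy)
    rwa [hκ] at this

lemma lower_const {d : ℕ} (hd : 2 ≤ d) {ρ : (Fin d → ℝ) → (Fin d → ℝ) → ℝ}
    (hρ : ρ = l1 ∨ ρ = linf) {c : ℝ} (hc1 : 1 < c) :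
    ∃ n : ℕ, 2 ≤ n ∧ n * (Real.logb 2 (1 / (c - 1)) / 12) ≤ minEdges ρ n c := by
  have hpos : 0 < c - 1 := by linarith
  by_cases hcc : c - 1 ≤ 1 / 32
  · obtain ⟨N, hN⟩ : ∃ N : ℕ, N = ⌊1 / (16 * (c - 1))⌋₊ := ⟨_, rfl⟩
    have hN1 : (N : ℝ) ≤ 1 / (16 * (c - 1)) := by
      rw [hN]; exact Nat.floor_le (by positivity)
    have hN2 : 1 / (16 * (c - 1)) < N + 1 := by rw [hN]; exact Nat.lt_floor_add_one _
    have hN3 : 2 ≤ N := by
      rw [hN]
      apply Nat.le_floor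
      rw [le_div_iff₀ (by positivity)]
      push_cast
      linarith
    obtain ⟨k, hk⟩ : ∃ k, k = Nat.log 2 N := ⟨_, rfl⟩
    have h1 : 2 ^ k ≤ N := by rw [hk]; exact Nat.pow_log_le_self 2 (by omega)
    have h2 : N < 2 ^ (k + 1) := by rw [hk]; exact Nat.lt_pow_succ_log_self (by norm_num) N
    have hkpos : 1 ≤ k := by rw [hk]; exact Nat.log_pos (by norm_num) hN3
    have h1' : (2 : ℝ) ^ k ≤ 1 / (16 * (c - 1)) := by
      refine le_trans ?_ hN1
      exact_mod_cast h1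
    have h2' : 1 / (16 * (c - 1)) < 2 ^ (k + 1) := by
      refine lt_of_lt_of_le hN2 ?_
      exact_mod_cast h2
    have h3 : c ≤ 1 + 1 / (16 * 2 ^ k) := by
      have : c - 1 ≤ 1 / (16 * 2 ^ k) := by
        rw [le_div_iff₀ (by positivity)] at h1' ⊢
        linarith
      linarith
    have hS := suffices_minEdges (metric hρ) (n := 2 ^ k) Nat.one_le_two_pow hc1.le
    have h4 := lower hd hρ (le_refl (2 ^ k)) h3 hS
    refine ⟨2 ^ k, ?_, ?_⟩
    · calc 2 = 2 ^ 1 := by norm_num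
        _ ≤ 2 ^ k := Nat.pow_le_pow_right (by norm_num) hkpos
    · have h5 : 1 / (c - 1) ≤ 2 ^ (k + 5) := by
        have e1 : 1 / (c - 1) = 16 * (1 / (16 * (c - 1))) := by field_simp
        rw [e1, pow_add]
        rw [pow_add] at h2'
        linarith
      have h6 : Real.logb 2 (1 / (c - 1)) ≤ (k : ℝ) + 5 := by
        rw [Real.logb_le_iff_le_rpow (by norm_num) (by positivity)]
        have : (2 : ℝ) ^ ((k : ℝ) + 5) = 2 ^ (k + 5) := by
          rw [← Real.rpow_natCast]; push_cast; ring_nf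
        rw [this]
        exact h5
      obtain ⟨r, hr⟩ : ∃ r, k = r + 1 := ⟨k - 1, by omega⟩
      have h7 : ((k * 2 ^ (k - 1) : ℕ) : ℝ) ≤ minEdges ρ (2 ^ k) c := by exact_mod_cast h4
      refine le_trans ?_ h7
      have h8 : Real.logb 2 (1 / (c - 1)) / 12 ≤ (k : ℝ) / 2 := by
        have : (1 : ℝ) ≤ k := by exact_mod_cast hkpos
        linarith
      have h9 : ((k * 2 ^ (k - 1) : ℕ) : ℝ) = ((2 ^ k : ℕ) : ℝ) * ((k : ℝ) / 2) := by
        rw [hr, show r + 1 - 1 = r by omega]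
        push_cast
        rw [pow_succ]
        ring
      rw [h9]
      exact mul_le_mul_of_nonneg_left h8 (by positivity)
  · push Not at hcc
    have hS := suffices_minEdges (metric hρ) (n := 2) (by norm_num) hc1.le
    have h4 := lower_two hd hρ hS
    refine ⟨2, le_rfl, ?_⟩
    have h6 : Real.logb 2 (1 / (c - 1)) ≤ 5 := by
      rw [Real.logb_le_iff_le_rpow (by norm_num) (by positivity)]
      have : (2 : ℝ) ^ (5 : ℝ) = 32 := by
        rw [show (5 : ℝ) = ((5 : ℕ) : ℝ) by norm_num, Real.rpow_natCast]; norm_num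
      rw [this, div_le_iff₀ hpos]
      linarith
    have h7 : (1 : ℝ) ≤ minEdges ρ 2 c := by exact_mod_cast h4
    push_cast
    linarith

/-- Let `ρ` be the `ℓ₁` or the `ℓ_∞` distance of `ℝ^d`, `d ≥ 2`.
(A) For `d = 2`, `E(n, 1)` is between `n ⌊log₂ n⌋ / 4` and `4 n ⌊log₂ n⌋`.
(B) `E(n, c) ≥ n ⌊log₂ n⌋ / 4` for `1 ≤ c ≤ 1 + 1/(16 n)`.
(C) `sup_n E(n, c)/n ≥ log₂ (1/(c-1)) / 12` for `c > 1`. -/
theorem result :
    (∀ ρ : (Fin 2 → ℝ) → (Fin 2 → ℝ) → ℝ, (ρ = l1 ∨ ρ = linf) → ∀ n : ℕ, 2 ≤ n →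
      n * Nat.log 2 n ≤ 4 * minEdges ρ n 1 ∧ minEdges ρ n 1 ≤ 4 * (n * Nat.log 2 n)) ∧
    (∀ d : ℕ, 2 ≤ d → ∀ ρ : (Fin d → ℝ) → (Fin d → ℝ) → ℝ, (ρ = l1 ∨ ρ = linf) →
      (∀ n : ℕ, 2 ≤ n → ∀ c : ℝ, 1 ≤ c → c ≤ 1 + 1 / (16 * n) →
        n * Nat.log 2 n ≤ 4 * minEdges ρ n c) ∧
      (∀ c : ℝ, 1 < c → ∃ n : ℕ, 2 ≤ n ∧
        n * (Real.logb 2 (1 / (c - 1)) / 12) ≤ minEdges ρ n c)) := by
  refine ⟨?_, ?_⟩
  · intro ρ hρ n hn
    exact ⟨lower_log le_rfl hρ hn le_rfl (by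
      have : (0 : ℝ) ≤ 1 / (16 * n) := by positivity
      linarith), upper_log hρ hn⟩
  · intro d hd ρ hρ
    exact ⟨fun n hn c hc1 hc => lower_log hd hρ hn hc1 hc, fun c hc => lower_const hd hρ hc⟩

end Pool.Agent.Results.MP_9b2a83_an.LogLower
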