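import Mathlib
import Pool.Agent.Results.MP_9b2a83_an.LogLower

/-!
# Sparse weighted graphs containing finite subsets of `ℓ₁^d`: powers of the logarithm
-/

namespace Pool.Agent.Results.MP_9b2a83_an.AllDims

open Finset Polynomial
open Pool.Agent.Helper666.SG
open Pool.Agent.Results.MP_9b2a83_an.LogLower

/-! ## Potentials -/

section Potentials

variable {V : Type} {G : SimpleGraph V} {w : Sym2 V → ℝ}

lemma gdist_walk (hw : ∀ e ∈ G.edgeSet, 0 < w e) (hc : G.Connected) {a u v : V}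
    (p : G.Walk u v) : gdist G w a v ≤ gdist G w a u + walkLength w p := by
  have := lip_walk (w := w) (F := fun x => gdist G w a x)
    (fun x y h => by have := gdist_adj hw hc (a := a) h; linarith) p
  linarith

lemma gdist_tri (hw : ∀ e ∈ G.edgeSet, 0 < w e) (hc : G.Connected) (a u v : V) :
    gdist G w a v ≤ gdist G w a u + gdist G w u v := by
  have : Nonempty (G.Walk u v) := hc.preconnected u v
  have key : gdist G w a v - gdist G w a u ≤ gdist G w u v := by
    apply le_ciInf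
    intro p
    have := gdist_walk hw hc (a := a) p
    linarith
  linarith

/-- McShane extension. -/
noncomputable def pot' (G : SimpleGraph V) (w : Sym2 V → ℝ) {K : Type} (φ : K → ℝ)
    (g : K → V) (v : V) : ℝ := ⨅ t : K, (φ t + gdist G w (g t) v)

lemma pot'_lip (hw : ∀ e ∈ G.edgeSet, 0 < w e) (hc : G.Connected) {K : Type} [Finite K]
    [Nonempty K] (φ : K → ℝ) (g : K → V) (a b : V) (h : G.Adj a b) :
    pot' G w φ g b - pot' G w φ g a ≤ w s(a, b) := by
  obtain ⟨t, ht⟩ := exists_eq_ciInf_of_finite (f := fun t : K => φ t + gdist G w (g t) a)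
  have h1 : pot' G w φ g b ≤ φ t + gdist G w (g t) b :=
    ciInf_le (Set.finite_range _).bddBelow t
  have h2 := gdist_adj hw hc (a := g t) h
  have h3 : pot' G w φ g a = φ t + gdist G w (g t) a := ht.symm
  linarith

lemma pot'_eq (hw : ∀ e ∈ G.edgeSet, 0 < w e) {K : Type} [Finite K] (φ : K → ℝ) (g : K → V)
    (h : ∀ t t', φ t' - φ t ≤ gdist G w (g t) (g t')) (t : K) :
    pot' G w φ g (g t) = φ t := by
  have : Nonempty K := ⟨t⟩
  apply le_antisymm
  · have h1 : pot' G w φ g (g t) ≤ φ t + gdist G w (g t) (g t) :=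
      ciInf_le (Set.finite_range _).bddBelow t
    rw [gdist_self hw] at h1
    linarith
  · apply le_ciInf
    intro t'
    have := h t' t
    linarith

end Potentials

/-! ## A counting lemma for dominance relations without `K_{2,2}` -/

/-- The real point of an integer point. -/
def pt {d : ℕ} (z : Fin d → ℤ) : Fin d → ℝ := fun k => (z k : ℝ)

lemma l1_pt {d : ℕ} (x y : Fin d → ℤ) : l1 (pt x) (pt y) = ((∑ k, |x k - y k| : ℤ) : ℝ) := by
  simp [l1, pt]

lemma dominated {d : ℕ} {x y : Fin d → ℤ} (h : ∑ k, |x k - y k| ≤ ∑ k, y k - ∑ k, x k + 1) :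
    x ≤ y := by
  intro k
  by_contra hk0
  have hk : y k < x k := not_le.1 hk0
  have h1 : ∑ k, (|x k - y k| - (y k - x k)) ≤ 1 := by
    rw [sum_sub_distrib, sum_sub_distrib]
    linarith
  have h2 : |x k - y k| - (y k - x k) ≤ ∑ k, (|x k - y k| - (y k - x k)) := by
    apply single_le_sum (f := fun k => |x k - y k| - (y k - x k)) _ (mem_univ k)
    intro i _
    have := neg_abs_le (x i - y i)
    linarith
  have h3 : |x k - y k| = x k - y k := abs_of_pos (by linarith)
  have h4 : |x k - y k| - (y k - x k) ≤ 1 := h2.trans h1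
  rw [h3] at h4
  omega

theorem core2 {d : ℕ} {I J V : Type} [Finite V] {G : SimpleGraph V} {w : Sym2 V → ℝ}
    (hc : G.Connected) (hw : ∀ e ∈ G.edgeSet, 0 < w e) (src : I → Fin d → ℤ)
    (snk : J → Fin d → ℤ) (M : Finset (Fin d → ℝ)) {c : ℝ} (hM : EmbedsWith l1 M c G w)
    (hsrc : ∀ i, pt (src i) ∈ M) (Js : Set J) (hsnk : ∀ j ∈ Js, pt (snk j) ∈ M)
    (hcc : ∀ i, ∀ j ∈ Js, src i ≤ snk j → (c - 1) * l1 (pt (src i)) (pt (snk j)) ≤ 1 / 4)
    (T : Finset (I × J)) (hT : ∀ x ∈ T, x.2 ∈ Js ∧ src x.1 ≤ snk x.2)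
    (hT1 : ∀ x ∈ T, ∃ j' ∈ Js, j' ≠ x.2 ∧ src x.1 ≤ snk j')
    (hT2 : ∀ x ∈ T, ∃ i', i' ≠ x.1 ∧ src i' ≤ snk x.2)
    (hK : ∀ i i', i ≠ i' → ∀ j ∈ Js, ∀ j' ∈ Js, j ≠ j' → src i ≤ snk j → src i ≤ snk j' →
      src i' ≤ snk j → src i' ≤ snk j' → False) :
    T.card ≤ G.edgeSet.ncard := by
  classical
  rcases T.eq_empty_or_nonempty with hTe | ⟨x0, hx0⟩
  · rw [hTe]; simp
  obtain ⟨f, s, hs, hf⟩ := hM
  have hlow : ∀ x ∈ M, ∀ y ∈ M, s * l1 x y ≤ gdist G w (f x) (f y) :=
    fun x hx y hy => (hf x hx y hy).1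
  have hne : Nonempty M := ⟨⟨_, hsrc x0.1⟩⟩
  obtain ⟨A, hA⟩ : ∃ A : V → ℝ, A = pot' G w (fun x : M => s * ∑ k, (x : Fin d → ℝ) k)
    (fun x : M => f x) := ⟨_, rfl⟩
  have lipA : ∀ a b, G.Adj a b → A b - A a ≤ w s(a, b) := by
    rw [hA]; exact pot'_lip hw hc _ _
  have eqA : ∀ x ∈ M, A (f x) = s * ∑ k, x k := by
    intro x hx
    rw [hA]
    refine pot'_eq hw (fun x : M => s * ∑ k, (x : Fin d → ℝ) k) (fun x : M => f x) ?_ ⟨x, hx⟩
    intro t t'
    refine le_trans ?_ (hlow t t.2 t' t'.2)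
    rw [← mul_sub]
    apply mul_le_mul_of_nonneg_left _ hs.le
    rw [← sum_sub_distrib]
    simp only [l1]
    apply sum_le_sum
    intro k _
    rw [abs_sub_comm]
    exact le_abs_self _
  have eqA' : ∀ z : Fin d → ℤ, pt z ∈ M → A (f (pt z)) = s * ((∑ k, z k : ℤ) : ℝ) := by
    intro z hz
    rw [eqA _ hz]
    simp [pt]
  -- the sources and sinks seen from a vertex
  obtain ⟨R, hR⟩ : ∃ R : V → I → Prop, ∀ v i, R v i ↔
      gdist G w (f (pt (src i))) v ≤ A v - A (f (pt (src i))) + s / 2 := ⟨_, fun _ _ => Iff.rfl⟩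
  obtain ⟨F, hF⟩ : ∃ F : V → J → Prop, ∀ v j, F v j ↔
      gdist G w v (f (pt (snk j))) ≤ A (f (pt (snk j))) - A v + s / 2 := ⟨_, fun _ _ => Iff.rfl⟩
  have hRF : ∀ v i, R v i → ∀ j ∈ Js, F v j → src i ≤ snk j := by
    intro v i h1 j hj h2
    rw [hR] at h1
    rw [hF] at h2
    apply dominated
    have h3 := gdist_tri hw hc (f (pt (src i))) v (f (pt (snk j)))
    have h4 := hlow _ (hsrc i) _ (hsnk j hj)
    rw [l1_pt] at h4
    rw [eqA' _ (hsrc i)] at h1
    rw [eqA' _ (hsnk j hj)] at h2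
    have h5 : s * ((∑ k, |src i k - snk j k| : ℤ) : ℝ)
        ≤ s * ((∑ k, snk j k - ∑ k, src i k + 1 : ℤ) : ℝ) := by
      push_cast at h1 h2 h4 ⊢
      linarith
    exact_mod_cast le_of_mul_le_mul_left h5 hs
  have dom : ∀ i, ∀ j ∈ Js, src i ≤ snk j →
      gdist G w (f (pt (src i))) (f (pt (snk j)))
        ≤ A (f (pt (snk j))) - A (f (pt (src i))) + s / 4 := by
    intro i j hj hxy
    have h1 := (hf _ (hsrc i) _ (hsnk j hj)).2
    have h2 := mul_le_mul_of_nonneg_left (hcc i j hj hxy) hs.le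
    have h3 : s * l1 (pt (src i)) (pt (snk j))
        = A (f (pt (snk j))) - A (f (pt (src i))) := by
      rw [eqA' _ (hsrc i), eqA' _ (hsnk j hj), l1_pt, ← mul_sub]
      congr 1
      have : ∑ k, |src i k - snk j k| = ∑ k, snk j k - ∑ k, src i k := by
        rw [← sum_sub_distrib]
        apply sum_congr rfl
        intro k _
        rw [abs_of_nonpos (by linarith [hxy k])]
        ring
      rw [this]
      push_cast
      ring
    rw [← h3]
    linarith
  have edge : ∀ x : I × J, x ∈ T → ∃ a b : V, G.Adj a b ∧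
      (∀ i, R a i → i = x.1) ∧ R a x.1 ∧ (∃ j' ∈ Js, j' ≠ x.2 ∧ F a j') ∧ F a x.2 ∧
      (∀ j ∈ Js, F b j → j = x.2) ∧ F b x.2 := by
    rintro ⟨i, j⟩ hx
    obtain ⟨hj, hij⟩ := hT _ hx
    obtain ⟨j', hj', hjj', hij'⟩ := hT1 _ hx
    obtain ⟨i', hii', hij2⟩ := hT2 _ hx
    dsimp only at hj hij hjj' hij' hii' hij2 ⊢
    have d1 := dom i j hj hij
    have hlt : gdist G w (f (pt (src i))) (f (pt (snk j)))
        < A (f (pt (snk j))) - A (f (pt (src i))) + s / 2 := by linarith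
    obtain ⟨p, hp⟩ := exists_walk_lt hc hlt
    have onp : ∀ v ∈ p.support, R v i ∧ F v j := by
      intro v hv
      have hs' : walkLength w (p.takeUntil v hv) + walkLength w (p.dropUntil v hv)
          = walkLength w p := by
        rw [← walkLength_append, SimpleGraph.Walk.take_spec]
      have a1 := lip_walk lipA (p.takeUntil v hv)
      have a2 := lip_walk lipA (p.dropUntil v hv)
      have b1 := gdist_le hw (p.takeUntil v hv)
      have b2 := gdist_le hw (p.dropUntil v hv)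
      rw [hR, hF]
      constructor <;> linarith
    obtain ⟨dd, hd, hd1, hd2⟩ := p.exists_boundary_dart
      {v | ∃ j' ∈ Js, j' ≠ j ∧ F v j'}
      (by
        rw [Set.mem_ofPred_eq]
        refine ⟨j', hj', hjj', ?_⟩
        rw [hF]
        have := dom i j' hj' hij'
        linarith)
      (by
        rw [Set.mem_ofPred_eq]
        rintro ⟨j2, hj2, hj2j, h⟩
        have q1 : R (f (pt (snk j))) i := (onp _ p.end_mem_support).1
        have q2 : R (f (pt (snk j))) i' := by
          rw [hR]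
          have := dom i' j hj hij2
          linarith
        exact hK i i' hii'.symm j hj j2 hj2 hj2j.symm hij (hRF _ _ q1 _ hj2 h) hij2
          (hRF _ _ q2 _ hj2 h))
    have s1 := onp _ (p.dart_fst_mem_support_of_mem_darts hd)
    have s2 := onp _ (p.dart_snd_mem_support_of_mem_darts hd)
    rw [Set.mem_ofPred_eq] at hd1 hd2
    obtain ⟨j2, hj2, hj2j, h⟩ := hd1
    refine ⟨dd.fst, dd.snd, dd.adj, ?_, s1.1, ⟨j2, hj2, hj2j, h⟩, s1.2, ?_, s2.2⟩
    · intro i2 h2
      by_contra hi2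
      exact hK i i2 (Ne.symm hi2) j hj j2 hj2 hj2j.symm hij (hRF _ _ s1.1 _ hj2 h)
        (hRF _ _ h2 _ hj s1.2) (hRF _ _ h2 _ hj2 h)
    · intro j3 hj3 h3
      by_contra hj3j
      exact hd2 ⟨j3, hj3, hj3j, h3⟩
  have hVne : Nonempty V := hc.nonempty
  choose! a b hab using edge
  have hinj : Set.InjOn (fun x => s(a x, b x)) (T : Set (I × J)) := by
    intro x hx y hy hh
    obtain ⟨_, p1, p2, p3, p4, p5, p6⟩ := hab x hx
    obtain ⟨_, q1, q2, q3, q4, q5, q6⟩ := hab y hy
    have hyJ := (hT y hy).1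
    have hxJ := (hT x hx).1
    rcases Sym2.eq_iff.1 hh with ⟨h1, h2⟩ | ⟨h1, h2⟩
    · rw [← h1] at q2
      rw [← h2] at q6
      exact Prod.ext (p1 _ q2).symm (p5 _ hyJ q6).symm
    · exfalso
      obtain ⟨j', hj', hne', hFj'⟩ := q3
      rw [← h2] at hFj' q4
      have e1 := p5 _ hj' hFj'
      have e2 := p5 _ hyJ q4
      exact hne' (e1.trans e2.symm)
  have hfin : G.edgeSet.Finite := Set.toFinite _
  rw [Set.ncard_eq_toFinset_card _ hfin]
  apply Finset.card_le_card_of_injOn (fun x => s(a x, b x)) _ hinj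
  intro x hx
  simp only [Set.Finite.coe_toFinset]
  exact (hab x hx).1

/-- The counting lemma for an arbitrary metric: sources and sinks at distance at least `H`. -/
theorem core3 {X I J V : Type} [Finite V] {ρ : X → X → ℝ} {G : SimpleGraph V} {w : Sym2 V → ℝ}
    (hc : G.Connected) (hw : ∀ e ∈ G.edgeSet, 0 < w e) (src : I → X)
    (snk : J → X) (M : Finset X) {c H : ℝ} (hM : EmbedsWith ρ M c G w)
    (hsrc : ∀ i, src i ∈ M) (Js : Set J) (hsnk : ∀ j ∈ Js, snk j ∈ M)
    (A : I → J → Prop) (hA : ∀ i, ∀ j ∈ Js, A i j → ρ (src i) (snk j) = H)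
    (hA' : ∀ i, ∀ j ∈ Js, ¬ A i j → H + 1 ≤ ρ (src i) (snk j)) (hcc : (c - 1) * H ≤ 1 / 4)
    (T : Finset (I × J)) (hT : ∀ x ∈ T, x.2 ∈ Js ∧ A x.1 x.2)
    (hT1 : ∀ x ∈ T, ∃ j' ∈ Js, j' ≠ x.2 ∧ A x.1 j')
    (hT2 : ∀ x ∈ T, ∃ i', i' ≠ x.1 ∧ A i' x.2)
    (hK : ∀ i i', i ≠ i' → ∀ j ∈ Js, ∀ j' ∈ Js, j ≠ j' → A i j → A i j' →
      A i' j → A i' j' → False) :
    T.card ≤ G.edgeSet.ncard := by
  classical
  obtain ⟨f, s, hs, hf⟩ := hM
  have low : ∀ i, ∀ j ∈ Js, s * H ≤ gdist G w (f (src i)) (f (snk j)) := by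
    intro i j hj
    refine le_trans (mul_le_mul_of_nonneg_left ?_ hs.le) (hf _ (hsrc i) _ (hsnk j hj)).1
    by_cases h : A i j
    · rw [hA i j hj h]
    · linarith [hA' i j hj h]
  have up : ∀ i, ∀ j ∈ Js, A i j →
      gdist G w (f (src i)) (f (snk j)) ≤ s * H + s / 4 := by
    intro i j hj h
    have h1 := (hf _ (hsrc i) _ (hsnk j hj)).2
    rw [hA i j hj h] at h1
    have h2 := mul_le_mul_of_nonneg_left hcc hs.le
    linarith
  have rel' : ∀ i, ∀ j ∈ Js, gdist G w (f (src i)) (f (snk j)) < s * H + s → A i j := by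
    intro i j hj h
    by_contra hn
    have h1 := (hf _ (hsrc i) _ (hsnk j hj)).1
    have h2 := mul_le_mul_of_nonneg_left (hA' i j hj hn) hs.le
    linarith
  obtain ⟨N, hN⟩ : ∃ N : V → I → J → Prop, ∀ v i j, N v i j ↔
      gdist G w (f (src i)) v + gdist G w v (f (snk j)) < s * H + s / 2 :=
    ⟨_, fun _ _ _ => Iff.rfl⟩
  have hNA : ∀ v i, ∀ j ∈ Js, N v i j → A i j := by
    intro v i j hj h
    rw [hN] at h
    apply rel' i j hj
    have := gdist_tri hw hc (f (src i)) v (f (snk j))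
    linarith
  have cross : ∀ v i i', i ≠ i' → ∀ j ∈ Js, ∀ j' ∈ Js, j ≠ j' → N v i j → N v i' j' →
      False := by
    intro v i i' hii j hj j' hj' hjj h1 h2
    have a1 := hNA v i j hj h1
    have a2 := hNA v i' j' hj' h2
    rw [hN] at h1 h2
    have t1 := gdist_tri hw hc (f (src i)) v (f (snk j'))
    have t2 := gdist_tri hw hc (f (src i')) v (f (snk j))
    have l1' := low i j' hj'
    have l2' := low i' j hj
    exact hK i i' hii j hj j' hj' hjj a1 (rel' i j' hj' (by linarith))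
      (rel' i' j hj (by linarith)) a2
  have edge : ∀ x : I × J, x ∈ T → ∃ a b : V, G.Adj a b ∧
      N a x.1 x.2 ∧ (∃ j' ∈ Js, j' ≠ x.2 ∧ N a x.1 j') ∧ N b x.1 x.2 ∧
      (∀ j ∈ Js, N b x.1 j → j = x.2) := by
    rintro ⟨i, j⟩ hx
    obtain ⟨hj, hij⟩ := hT _ hx
    obtain ⟨j', hj', hjj', hij'⟩ := hT1 _ hx
    obtain ⟨i', hii', hij2⟩ := hT2 _ hx
    dsimp only at hj hij hjj' hij' hii' hij2 ⊢
    have hlt : gdist G w (f (src i)) (f (snk j)) < s * H + s / 2 := by
      have := up i j hj hij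
      linarith
    obtain ⟨p, hp⟩ := exists_walk_lt hc hlt
    have onp : ∀ v ∈ p.support, N v i j := by
      intro v hv
      have hs' : walkLength w (p.takeUntil v hv) + walkLength w (p.dropUntil v hv)
          = walkLength w p := by
        rw [← walkLength_append, SimpleGraph.Walk.take_spec]
      have b1 := gdist_le hw (p.takeUntil v hv)
      have b2 := gdist_le hw (p.dropUntil v hv)
      rw [hN]
      linarith
    obtain ⟨dd, hd, hd1, hd2⟩ := p.exists_boundary_dart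
      {v | ∃ j' ∈ Js, j' ≠ j ∧ N v i j'}
      (by
        rw [Set.mem_ofPred_eq]
        refine ⟨j', hj', hjj', ?_⟩
        rw [hN, gdist_self hw]
        have := up i j' hj' hij'
        linarith)
      (by
        rw [Set.mem_ofPred_eq]
        rintro ⟨j2, hj2, hj2j, h⟩
        have q1 := hNA _ i j2 hj2 h
        rw [hN] at h
        have l1' := low i j hj
        have u1 := up i' j hj hij2
        have t1 := gdist_tri hw hc (f (src i')) (f (snk j)) (f (snk j2))
        have q2 := rel' i' j2 hj2 (by linarith)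
        exact hK i i' hii'.symm j hj j2 hj2 hj2j.symm hij q1 hij2 q2)
    rw [Set.mem_ofPred_eq] at hd1 hd2
    refine ⟨dd.fst, dd.snd, dd.adj, onp _ (p.dart_fst_mem_support_of_mem_darts hd), hd1,
      onp _ (p.dart_snd_mem_support_of_mem_darts hd), ?_⟩
    intro j3 hj3 h3
    by_contra hj3j
    exact hd2 ⟨j3, hj3, hj3j, h3⟩
  have hVne : Nonempty V := hc.nonempty
  choose! a b hab using edge
  have hinj : Set.InjOn (fun x => s(a x, b x)) (T : Set (I × J)) := by
    intro x hx y hy hh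
    obtain ⟨_, p1, ⟨jx, hjx, hjxne, p2⟩, p3, p4⟩ := hab x hx
    obtain ⟨_, q1, ⟨jy, hjy, hjyne, q2⟩, q3, q4⟩ := hab y hy
    have hyJ := (hT y hy).1
    have hxJ := (hT x hx).1
    rcases Sym2.eq_iff.1 hh with ⟨h1, h2⟩ | ⟨h1, h2⟩
    · rw [← h1] at q1 q2
      rw [← h2] at q3 q4
      have hi : x.1 = y.1 := by
        by_contra hne
        by_cases hxy : x.2 = y.2
        · exact cross _ _ _ hne jx hjx y.2 hyJ (by rw [← hxy]; exact hjxne) p2 q1
        · exact cross _ _ _ hne x.2 hxJ y.2 hyJ hxy p1 q1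
      refine Prod.ext hi ?_
      rw [← hi] at q3
      exact (p4 _ hyJ q3).symm
    · exfalso
      rw [← h2] at q1 q2
      by_cases hi : x.1 = y.1
      · rw [← hi] at q1 q2
        exact hjyne ((p4 _ hjy q2).trans (p4 _ hyJ q1).symm)
      · by_cases hxy : x.2 = y.2
        · exact cross _ _ _ hi x.2 hxJ jy hjy (by rw [hxy]; exact hjyne.symm) p3 q2
        · exact cross _ _ _ hi x.2 hxJ y.2 hyJ hxy p3 q1
  have hfin : G.edgeSet.Finite := Set.toFinite _
  rw [Set.ncard_eq_toFinset_card _ hfin]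
  apply Finset.card_le_card_of_injOn (fun x => s(a x, b x)) _ hinj
  intro x hx
  simp only [Set.Finite.coe_toFinset]
  exact (hab x hx).1

/-! ## Prefixes -/

/-- The number with the first `a` digits `δ 0, …, δ (a-1)` in base `b`. -/
def pre (b : ℕ) (δ : ℕ → ℕ) : ℕ → ℕ
  | 0 => 0
  | a + 1 => b * pre b δ a + δ a

lemma pre_lt {b : ℕ} {δ : ℕ → ℕ} (hδ : ∀ j, δ j < b) : ∀ a, pre b δ a < b ^ a
  | 0 => by simp [pre]
  | a + 1 => by
    have h1 := pre_lt hδ a
    have h2 := hδ a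
    have h3 : b * (pre b δ a + 1) ≤ b * b ^ a := Nat.mul_le_mul_left _ h1
    rw [pre, pow_succ, mul_comm (b ^ a) b]
    rw [mul_add] at h3
    omega

lemma pre_div {b : ℕ} {δ : ℕ → ℕ} (hδ : ∀ j, δ j < b) (hb : 0 < b) (a : ℕ) :
    ∀ r, pre b δ (a + r) / b ^ r = pre b δ a
  | 0 => by simp
  | r + 1 => by
    have h1 : pre b δ (a + (r + 1)) / b = pre b δ (a + r) := by
      rw [← add_assoc, pre, Nat.mul_add_div hb, Nat.div_eq_of_lt (hδ _), add_zero]
    rw [pow_succ, mul_comm, ← Nat.div_div_eq_div_mul, h1]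
    exact pre_div hδ hb a r

lemma pre_inj {b : ℕ} {δ δ' : ℕ → ℕ} (hδ : ∀ j, δ j < b) (hδ' : ∀ j, δ' j < b) (hb : 0 < b) :
    ∀ a, pre b δ a = pre b δ' a → ∀ j < a, δ j = δ' j
  | 0, _, j, hj => by omega
  | a + 1, h, j, hj => by
    rw [pre, pre] at h
    have h1 : pre b δ a = pre b δ' a := by
      have h2 : (b * pre b δ a + δ a) / b = (b * pre b δ' a + δ' a) / b := by rw [h]
      rwa [Nat.mul_add_div hb, Nat.div_eq_of_lt (hδ _), add_zero,
        Nat.mul_add_div hb, Nat.div_eq_of_lt (hδ' _), add_zero] at h2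
    rcases Nat.lt_succ_iff_lt_or_eq.1 hj with h3 | h3
    · exact pre_inj hδ hδ' hb a h1 j h3
    · subst h3
      rw [h1] at h
      omega

lemma pre_congr {b : ℕ} {δ δ' : ℕ → ℕ} : ∀ a, (∀ j < a, δ j = δ' j) → pre b δ a = pre b δ' a
  | 0, _ => rfl
  | a + 1, h => by
    rw [pre, pre, pre_congr a (fun j hj => h j (by omega)), h a (by omega)]

/-! ## The point set: polynomials over a prime field -/

section Construction

variable {b : ℕ} [hb : Fact b.Prime]

/-- The digits of a polynomial at the point `i`. -/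
noncomputable def dig (b : ℕ) (i : ℕ) (p : (ZMod b)[X]) (j : ℕ) : ℕ := ((taylor (i : ZMod b) p).coeff j).val

lemma dig_lt (i : ℕ) (p : (ZMod b)[X]) (j : ℕ) : dig b i p j < b := by
  have : NeZero b := ⟨hb.out.ne_zero⟩
  exact ZMod.val_lt _

lemma pre_iff (i : ℕ) (p q : (ZMod b)[X]) (a : ℕ) :
    pre b (dig b i p) a = pre b (dig b i q) a ↔ (X - C (i : ZMod b)) ^ a ∣ p - q := by
  have : NeZero b := ⟨hb.out.ne_zero⟩
  rw [X_sub_C_pow_dvd_iff, X_pow_dvd_iff]
  have key : ∀ j, ((p - q).comp (X + C (i : ZMod b))).coeff j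
      = (taylor (i : ZMod b) p).coeff j - (taylor (i : ZMod b) q).coeff j := by
    intro j
    rw [sub_comp, coeff_sub]
    rfl
  constructor
  · intro h j hj
    have h1 := pre_inj (dig_lt i p) (dig_lt i q) hb.out.pos a h j hj
    rw [key, sub_eq_zero]
    exact ZMod.val_injective b h1
  · intro h
    apply pre_congr
    intro j hj
    have h1 := h j hj
    rw [key, sub_eq_zero] at h1
    simp only [dig, h1]

/-- The polynomial with given coefficients. -/
noncomputable def poly (b l : ℕ) (c : Fin l → ZMod b) : (ZMod b)[X] :=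
  ((degreeLTEquiv (ZMod b) l).symm c : degreeLT (ZMod b) l)

lemma poly_degree {l : ℕ} (c : Fin l → ZMod b) : (poly b l c).degree < l :=
  mem_degreeLT.1 ((degreeLTEquiv (ZMod b) l).symm c).2

lemma poly_inj {l : ℕ} {c c' : Fin l → ZMod b} (h : poly b l c = poly b l c') : c = c' :=
  (degreeLTEquiv (ZMod b) l).symm.injective (Subtype.ext h)

lemma poly_surj {l : ℕ} (p : (ZMod b)[X]) (h : p.degree < l) : ∃ c, poly b l c = p := by
  refine ⟨degreeLTEquiv (ZMod b) l ⟨p, mem_degreeLT.2 h⟩, ?_⟩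
  rw [poly, LinearEquiv.symm_apply_apply]

variable {m h : ℕ}

/-- The shape given by `t`. -/
def shape {m h : ℕ} (t : Fin m → Fin h) (i : ℕ) : ℕ :=
  if hi : i < m then (t ⟨i, hi⟩ : ℕ) else if i = m then m * h - ∑ k, (t k : ℕ) else 0

lemma sum_le_mul (t : Fin m → Fin h) : ∑ k, (t k : ℕ) ≤ m * h := by
  calc ∑ k, (t k : ℕ) ≤ ∑ _k : Fin m, h := sum_le_sum fun k _ => (t k).2.le
    _ = m * h := by simp

lemma shape_sum (t : Fin m → Fin h) : ∑ i ∈ range (m + 1), shape t i = m * h := by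
  rw [sum_range_succ]
  have h1 : ∑ i ∈ range m, shape t i = ∑ k, (t k : ℕ) := by
    rw [← Fin.sum_univ_eq_sum_range]
    apply sum_congr rfl
    intro k _
    simp [shape]
  have h2 : shape t m = m * h - ∑ k, (t k : ℕ) := by simp [shape]
  rw [h1, h2]
  have := sum_le_mul t
  omega

lemma shape_le (t : Fin m → Fin h) (i : ℕ) : shape t i ≤ m * h := by
  by_cases hi : i < m + 1
  · rw [← shape_sum t]
    exact single_le_sum (fun _ _ => Nat.zero_le _) (mem_range.2 hi)
  · have : shape t i = 0 := by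
      rw [shape, dif_neg (by omega), if_neg (by omega)]
    omega

lemma shape_zero (t : Fin m → Fin h) {i : ℕ} (hi : m + 1 ≤ i) : shape t i = 0 := by
  rw [shape, dif_neg (by omega), if_neg (by omega)]

/-- The sources. -/
noncomputable def src (b m h d : ℕ) (c : Fin (m * h + 1) → ZMod b) (k : Fin d) : ℤ :=
  if (k : ℕ) < m + 1 then (pre b (dig b k (poly b _ c)) (m * h + 1) : ℤ)
  else if (k : ℕ) < 2 * (m + 1) then
    -(pre b (dig b ((k : ℕ) - (m + 1)) (poly b _ c)) (m * h + 1) : ℤ)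
  else 0

/-- The sinks. -/
def snk (b : ℕ) {m h : ℕ} (d : ℕ) (j : (Fin m → Fin h) × (ℕ → ℕ)) (k : Fin d) : ℤ :=
  if (k : ℕ) < m + 1 then
    ((j.2 k * b ^ (m * h + 1 - shape j.1 k) + b ^ (m * h + 1 - shape j.1 k) : ℕ) : ℤ) - 1
  else if (k : ℕ) < 2 * (m + 1) then
    -((j.2 ((k : ℕ) - (m + 1)) * b ^ (m * h + 1 - shape j.1 ((k : ℕ) - (m + 1))) : ℕ) : ℤ)
  else 0

/-- The sink of the box of shape `t` around `c`. -/
noncomputable def sinkIdx (b : ℕ) {m h : ℕ} (t : Fin m → Fin h) (c : Fin (m * h + 1) → ZMod b) :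
    (Fin m → Fin h) × (ℕ → ℕ) :=
  (t, fun i => pre b (dig b i (poly b _ c)) (shape t i))

lemma rel {d : ℕ} (hd : 2 * (m + 1) ≤ d) (c : Fin (m * h + 1) → ZMod b)
    (t : Fin m → Fin h) (w : ℕ → ℕ) :
    src b m h d c ≤ snk b d (t, w) ↔
      ∀ i < m + 1, pre b (dig b i (poly b _ c)) (shape t i) = w i := by
  have hbpos : 0 < b := hb.out.pos
  have hdiv : ∀ i, pre b (dig b i (poly b _ c)) (m * h + 1) / b ^ (m * h + 1 - shape t i)
      = pre b (dig b i (poly b _ c)) (shape t i) := by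
    intro i
    have h1 := shape_le t i
    have h2 := pre_div (dig_lt i (poly b _ c)) hbpos (shape t i) (m * h + 1 - shape t i)
    rwa [show shape t i + (m * h + 1 - shape t i) = m * h + 1 by omega] at h2
  constructor
  · intro hle i hi
    have h1 := hle ⟨i, by omega⟩
    have h2 := hle ⟨i + (m + 1), by omega⟩
    simp only [src, snk] at h1 h2
    rw [if_pos hi, if_pos hi] at h1
    rw [if_neg (by omega), if_pos (by omega), if_neg (by omega), if_pos (by omega),
      Nat.add_sub_cancel] at h2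
    rw [← hdiv i]
    have hB : 0 < b ^ (m * h + 1 - shape t i) := by positivity
    rw [Nat.div_eq_iff hB]
    push_cast at h1 h2
    constructor
    · have : ((w i * b ^ (m * h + 1 - shape t i) : ℕ) : ℤ)
          ≤ pre b (dig b i (poly b _ c)) (m * h + 1) := by push_cast; linarith
      exact_mod_cast this
    · have : ((pre b (dig b i (poly b _ c)) (m * h + 1) : ℕ) : ℤ) + 1
          ≤ ((w i * b ^ (m * h + 1 - shape t i) + b ^ (m * h + 1 - shape t i) : ℕ) : ℤ) := by
        push_cast; linarith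
      have h3 : pre b (dig b i (poly b _ c)) (m * h + 1) + 1
          ≤ w i * b ^ (m * h + 1 - shape t i) + b ^ (m * h + 1 - shape t i) := by
        exact_mod_cast this
      omega
  · intro H k
    simp only [src, snk]
    have key : ∀ i < m + 1, w i * b ^ (m * h + 1 - shape t i)
        ≤ pre b (dig b i (poly b _ c)) (m * h + 1) ∧
        pre b (dig b i (poly b _ c)) (m * h + 1) + 1
          ≤ w i * b ^ (m * h + 1 - shape t i) + b ^ (m * h + 1 - shape t i) := by
      intro i hi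
      have h1 := H i hi
      rw [← hdiv i] at h1
      have hB : 0 < b ^ (m * h + 1 - shape t i) := by positivity
      rw [Nat.div_eq_iff hB] at h1
      constructor
      · exact h1.1
      · have := h1.2
        omega
    by_cases hk1 : (k : ℕ) < m + 1
    · rw [if_pos hk1, if_pos hk1]
      have h1 := (key k hk1).2
      have h2 : ((pre b (dig b k (poly b _ c)) (m * h + 1) : ℕ) : ℤ) + 1
          ≤ ((w k * b ^ (m * h + 1 - shape t k) + b ^ (m * h + 1 - shape t k) : ℕ) : ℤ) := by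
        exact_mod_cast h1
      linarith
    · rw [if_neg hk1, if_neg hk1]
      by_cases hk2 : (k : ℕ) < 2 * (m + 1)
      · rw [if_pos hk2, if_pos hk2]
        have h1 := (key ((k : ℕ) - (m + 1)) (by omega)).1
        have h2 : ((w ((k : ℕ) - (m + 1)) * b ^ (m * h + 1 - shape t ((k : ℕ) - (m + 1))) : ℕ) : ℤ)
            ≤ ((pre b (dig b ((k : ℕ) - (m + 1)) (poly b _ c)) (m * h + 1) : ℕ) : ℤ) := by
          exact_mod_cast h1
        linarith
      · rw [if_neg hk2, if_neg hk2]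

lemma dist_bound {d : ℕ} (hd : 2 * (m + 1) ≤ d) (c : Fin (m * h + 1) → ZMod b)
    (t : Fin m → Fin h) (w : ℕ → ℕ) (hle : src b m h d c ≤ snk b d (t, w)) :
    l1 (pt (src b m h d c)) (pt (snk b d (t, w))) ≤ 2 * (m + 1) * (b : ℝ) ^ (m * h + 1) := by
  have hbpos : 0 < b := hb.out.pos
  have H := (rel hd c t w).1 hle
  have hdiv : ∀ i, pre b (dig b i (poly b _ c)) (m * h + 1) / b ^ (m * h + 1 - shape t i)
      = pre b (dig b i (poly b _ c)) (shape t i) := by
    intro i
    have h1 := shape_le t i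
    have h2 := pre_div (dig_lt i (poly b _ c)) hbpos (shape t i) (m * h + 1 - shape t i)
    rwa [show shape t i + (m * h + 1 - shape t i) = m * h + 1 by omega] at h2
  have key : ∀ i < m + 1, w i * b ^ (m * h + 1 - shape t i)
      ≤ pre b (dig b i (poly b _ c)) (m * h + 1) ∧
      pre b (dig b i (poly b _ c)) (m * h + 1) + 1
        ≤ w i * b ^ (m * h + 1 - shape t i) + b ^ (m * h + 1 - shape t i) ∧
      b ^ (m * h + 1 - shape t i) ≤ b ^ (m * h + 1) := by
    intro i hi
    have h1 := H i hi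
    rw [← hdiv i] at h1
    have hB : 0 < b ^ (m * h + 1 - shape t i) := by positivity
    rw [Nat.div_eq_iff hB] at h1
    refine ⟨h1.1, ?_, Nat.pow_le_pow_right hbpos (Nat.sub_le _ _)⟩
    have := h1.2
    omega
  have hk : ∀ k : Fin d, |src b m h d c k - snk b d (t, w) k|
      ≤ if (k : ℕ) < 2 * (m + 1) then (b : ℤ) ^ (m * h + 1) else 0 := by
    intro k
    rw [abs_of_nonpos (by linarith [hle k])]
    simp only [src, snk]
    by_cases hk1 : (k : ℕ) < m + 1
    · rw [if_pos hk1, if_pos hk1, if_pos (by omega)]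
      obtain ⟨h1, _, h3⟩ := key k hk1
      have h1' : ((w k * b ^ (m * h + 1 - shape t k) : ℕ) : ℤ)
          ≤ ((pre b (dig b k (poly b _ c)) (m * h + 1) : ℕ) : ℤ) := by exact_mod_cast h1
      have h3' : ((b ^ (m * h + 1 - shape t k) : ℕ) : ℤ) ≤ (b : ℤ) ^ (m * h + 1) := by
        exact_mod_cast h3
      rw [Nat.cast_add]
      linarith
    · rw [if_neg hk1, if_neg hk1]
      by_cases hk2 : (k : ℕ) < 2 * (m + 1)
      · rw [if_pos hk2, if_pos hk2, if_pos hk2]
        obtain ⟨_, h2, h3⟩ := key ((k : ℕ) - (m + 1)) (by omega)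
        have h2' : ((pre b (dig b ((k : ℕ) - (m + 1)) (poly b _ c)) (m * h + 1) : ℕ) : ℤ) + 1
            ≤ ((w ((k : ℕ) - (m + 1)) * b ^ (m * h + 1 - shape t ((k : ℕ) - (m + 1))) : ℕ) : ℤ)
              + ((b ^ (m * h + 1 - shape t ((k : ℕ) - (m + 1))) : ℕ) : ℤ) := by
          exact_mod_cast h2
        have h3' : ((b ^ (m * h + 1 - shape t ((k : ℕ) - (m + 1))) : ℕ) : ℤ)
            ≤ (b : ℤ) ^ (m * h + 1) := by
          exact_mod_cast h3
        linarith
      · rw [if_neg hk2, if_neg hk2, if_neg hk2]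
        simp
  rw [l1_pt]
  have h1 : ∑ k : Fin d, |src b m h d c k - snk b d (t, w) k|
      ≤ 2 * ((m : ℤ) + 1) * (b : ℤ) ^ (m * h + 1) := by
    refine (sum_le_sum fun k _ => hk k).trans ?_
    rw [Fin.sum_univ_eq_sum_range (fun k => if k < 2 * (m + 1) then (b : ℤ) ^ (m * h + 1) else 0) d,
      ← sum_filter, sum_const, nsmul_eq_mul]
    apply mul_le_mul_of_nonneg_right _ (by positivity)
    have h2 : ((range d).filter fun k => k < 2 * (m + 1)).card ≤ 2 * (m + 1) := by
      refine (card_le_card (t := range (2 * (m + 1))) ?_).trans (by rw [card_range])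
      intro k hk
      rw [mem_filter] at hk
      exact mem_range.2 hk.2
    exact_mod_cast h2
  exact_mod_cast h1

/-- Product of the local factors. -/
noncomputable def fac (b : ℕ) (m : ℕ) (a : ℕ → ℕ) : (ZMod b)[X] :=
  ∏ i ∈ range (m + 1), (X - C ((i : ℕ) : ZMod b)) ^ a i

lemma fac_monic (a : ℕ → ℕ) : (fac b m a).Monic :=
  monic_prod_of_monic _ _ fun _ _ => (monic_X_sub_C _).pow _

lemma fac_natDegree (a : ℕ → ℕ) : (fac b m a).natDegree = ∑ i ∈ range (m + 1), a i := by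
  rw [fac, natDegree_prod_of_monic _ _ fun _ _ => (monic_X_sub_C _).pow _]
  apply sum_congr rfl
  intro i _
  rw [(monic_X_sub_C _).natDegree_pow, natDegree_X_sub_C, mul_one]

lemma fac_dvd (hm : m + 1 ≤ b) (a : ℕ → ℕ) (p : (ZMod b)[X])
    (hp : ∀ i < m + 1, (X - C ((i : ℕ) : ZMod b)) ^ a i ∣ p) : fac b m a ∣ p := by
  apply Finset.prod_dvd_of_coprime
  · intro i hi i' hi' hne
    apply IsCoprime.pow
    apply isCoprime_X_sub_C_of_isUnit_sub
    rw [isUnit_iff_ne_zero, sub_ne_zero]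
    intro hh
    rw [mem_coe, mem_range] at hi hi'
    have := (ZMod.natCast_eq_natCast_iff' i i' b).1 hh
    rw [Nat.mod_eq_of_lt (by omega), Nat.mod_eq_of_lt (by omega)] at this
    exact hne this
  · intro i hi
    exact hp i (mem_range.1 hi)

lemma shape_ne_sum {t t' : Fin m → Fin h} (htt : t ≠ t') :
    m * h < ∑ i ∈ range (m + 1), max (shape t i) (shape t' i) := by
  rw [← shape_sum t]
  apply sum_lt_sum
  · intro i _; exact le_max_left _ _
  · by_contra hcon
    push Not at hcon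
    have hle : ∀ i ∈ range (m + 1), shape t' i ≤ shape t i :=
      fun i hi => (le_max_right _ _).trans (hcon i hi)
    have heq : ∀ i ∈ range (m + 1), shape t' i = shape t i :=
      (sum_eq_sum_iff_of_le hle).1 ((shape_sum t').trans (shape_sum t).symm)
    apply htt
    funext k
    have := heq k (mem_range.2 (by have := k.2; omega))
    rw [shape, shape, dif_pos k.2, dif_pos k.2] at this
    exact (Fin.ext this).symm

theorem lower2 {d : ℕ} (hm : 1 ≤ m) (hh : 2 ≤ h) (hd : 2 * (m + 1) ≤ d) (hb1 : h ^ m ≤ b)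
    (hb2 : m + 1 ≤ b) {μ : ℕ} {κ : ℝ} (hκ : κ ≤ 1 + 1 / (8 * (m + 1) * b ^ (m * h + 1)))
    (hS : Suffices (l1 (d := d)) (2 * b ^ (m * h + 1)) κ μ) :
    h ^ m * b ^ (m * h + 1) ≤ μ := by
  classical
  have hbpos : 0 < b := hb.out.pos
  have : NeZero b := ⟨hb.out.ne_zero⟩
  obtain ⟨T, hT⟩ : ∃ T : Finset ((Fin (m * h + 1) → ZMod b) × ((Fin m → Fin h) × (ℕ → ℕ))),
      T = (univ : Finset ((Fin (m * h + 1) → ZMod b) × (Fin m → Fin h))).image
        fun x => (x.1, sinkIdx b x.2 x.1) := ⟨_, rfl⟩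
  have hTmem : ∀ y ∈ T, ∃ c t, y = (c, sinkIdx b t c) := by
    intro y hy
    rw [hT, mem_image] at hy
    obtain ⟨x, _, rfl⟩ := hy
    exact ⟨x.1, x.2, rfl⟩
  have hTcard : T.card = h ^ m * b ^ (m * h + 1) := by
    rw [hT, card_image_of_injective]
    · rw [card_univ, Fintype.card_prod, Fintype.card_fun, Fintype.card_fun, Fintype.card_fin,
        Fintype.card_fin, Fintype.card_fin, ZMod.card, mul_comm]
    · rintro ⟨c, t⟩ ⟨c', t'⟩ hx
      have h1 := congrArg Prod.fst hx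
      have h2 := congrArg (fun z => z.2.1) hx
      exact Prod.ext h1 h2
  obtain ⟨M0, hM0⟩ : ∃ M0 : Finset (Fin d → ℝ), M0 =
      (univ.image fun c => pt (src b m h d c)) ∪ (T.image Prod.snd).image fun j => pt (snk b d j) :=
    ⟨_, rfl⟩
  have hsn : (T.image Prod.snd).card ≤ h ^ m * b ^ (m * h) := by
    have h1 : (T.image Prod.snd).card ≤ ((univ : Finset (Fin m → Fin h)).sigma fun t =>
        Fintype.piFinset fun i : Fin (m + 1) => range (b ^ shape t i)).card := by
      apply Finset.card_le_card_of_injOn (fun j => ⟨j.1, fun i => j.2 i⟩)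
      · intro j hj
        rw [mem_coe, mem_image] at hj
        obtain ⟨y, hy, rfl⟩ := hj
        obtain ⟨c, t, rfl⟩ := hTmem y hy
        rw [mem_coe, mem_sigma]
        refine ⟨mem_univ _, ?_⟩
        rw [Fintype.mem_piFinset]
        intro i
        rw [mem_range]
        exact pre_lt (dig_lt _ _) _
      · intro j hj j' hj' he
        rw [mem_coe, mem_image] at hj hj'
        obtain ⟨y, hy, rfl⟩ := hj
        obtain ⟨y', hy', rfl⟩ := hj'
        obtain ⟨c, t, rfl⟩ := hTmem y hy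
        obtain ⟨c', t', rfl⟩ := hTmem y' hy'
        simp only [sinkIdx] at he ⊢
        obtain ⟨e1, e2⟩ := Sigma.mk.inj_iff.1 he
        subst e1
        have e3 := eq_of_heq e2
        refine Prod.ext rfl ?_
        funext i
        by_cases hi : i < m + 1
        · exact congrFun e3 ⟨i, hi⟩
        · show pre b _ (shape t i) = pre b _ (shape t i)
          rw [shape_zero t (by omega)]; rfl
    refine h1.trans (le_of_eq ?_)
    rw [card_sigma]
    have h2 : ∀ t ∈ (univ : Finset (Fin m → Fin h)),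
        (Fintype.piFinset fun i : Fin (m + 1) => range (b ^ shape t i)).card = b ^ (m * h) := by
      intro t _
      rw [Fintype.card_piFinset]
      simp only [card_range]
      rw [prod_pow_eq_pow_sum, ← shape_sum t, ← Fin.sum_univ_eq_sum_range]
    rw [sum_congr rfl h2]
    simp
  have hM0card : M0.card ≤ 2 * b ^ (m * h + 1) := by
    have h1 : (univ.image fun c => pt (src b m h d c)).card ≤ b ^ (m * h + 1) := by
      refine card_image_le.trans (le_of_eq ?_)
      rw [card_univ, Fintype.card_fun, Fintype.card_fin, ZMod.card]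
    have h2 : ((T.image Prod.snd).image fun j => pt (snk b d j)).card ≤ b ^ (m * h + 1) := by
      refine card_image_le.trans (hsn.trans ?_)
      rw [pow_succ, mul_comm]
      exact Nat.mul_le_mul_left _ hb1
    rw [hM0]
    exact (card_union_le _ _).trans (by omega)
  have : Infinite (Fin d → ℝ) := by
    have : Nonempty (Fin d) := ⟨⟨0, by omega⟩⟩
    infer_instance
  obtain ⟨M, hMM, hMc⟩ := Infinite.exists_superset_card_eq M0 _ hM0card
  obtain ⟨V, hV, G, w, g1, g2, g3, g4⟩ := hS M hMc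
  refine le_trans (le_of_eq hTcard.symm) (le_trans ?_ g3)
  have relT : ∀ c t, src b m h d c ≤ snk b d (sinkIdx b t c) := by
    intro c t
    exact (rel hd c t _).2 fun i _ => rfl
  apply core2 g1 g2 (src b m h d) (snk b d) M g4
    (fun c => hMM (by rw [hM0, mem_union]; exact Or.inl (mem_image_of_mem _ (mem_univ c))))
    (Set.range fun x : (Fin (m * h + 1) → ZMod b) × (Fin m → Fin h) => sinkIdx b x.2 x.1)
    _ _ T _ _ _ _
  · rintro j ⟨⟨c, t⟩, rfl⟩
    apply hMM
    rw [hM0, mem_union]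
    right
    apply mem_image_of_mem
    rw [mem_image]
    refine ⟨(c, sinkIdx b t c), ?_, rfl⟩
    rw [hT, mem_image]
    exact ⟨(c, t), mem_univ _, rfl⟩
  · rintro c' j ⟨⟨c, t⟩, rfl⟩ hle
    have h1 := dist_bound hd c' t _ hle
    have h0 : 0 ≤ l1 (pt (src b m h d c')) (pt (snk b d (sinkIdx b t c))) := by
      simp only [l1]
      exact sum_nonneg fun i _ => abs_nonneg _
    have hB : (0 : ℝ) < 8 * (m + 1) * b ^ (m * h + 1) := by
      have : (0 : ℝ) < b := by exact_mod_cast hbpos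
      positivity
    calc (κ - 1) * l1 (pt (src b m h d c')) (pt (snk b d (sinkIdx b t c)))
        ≤ 1 / (8 * (m + 1) * b ^ (m * h + 1)) *
          l1 (pt (src b m h d c')) (pt (snk b d (sinkIdx b t c))) :=
          mul_le_mul_of_nonneg_right (by linarith) h0
      _ ≤ 1 / (8 * (m + 1) * b ^ (m * h + 1)) * (2 * (m + 1) * (b : ℝ) ^ (m * h + 1)) :=
          mul_le_mul_of_nonneg_left h1 (by positivity)
      _ = 1 / 4 := by
          rw [div_mul_eq_mul_div, one_mul, div_eq_div_iff hB.ne' (by norm_num)]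
          ring
  · intro y hy
    obtain ⟨c, t, rfl⟩ := hTmem y hy
    exact ⟨⟨(c, t), rfl⟩, relT c t⟩
  · intro y hy
    obtain ⟨c, t, rfl⟩ := hTmem y hy
    have hnt : Nontrivial (Fin m → Fin h) := by
      have : Nonempty (Fin m) := ⟨⟨0, by omega⟩⟩
      have : Nontrivial (Fin h) := Fin.nontrivial_iff_two_le.2 hh
      infer_instance
    obtain ⟨t', ht'⟩ := exists_ne t
    refine ⟨sinkIdx b t' c, ⟨(c, t'), rfl⟩, ?_, relT c t'⟩
    intro he
    exact ht' (congrArg Prod.fst he)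
  · intro y hy
    obtain ⟨c, t, rfl⟩ := hTmem y hy
    have hdeg : (poly b (m * h + 1) c + fac b m (shape t)).degree < ((m * h + 1 : ℕ) : WithBot ℕ) := by
      refine lt_of_le_of_lt (degree_add_le _ _) (max_lt (poly_degree c) ?_)
      rw [degree_eq_natDegree (fac_monic _).ne_zero, fac_natDegree, shape_sum]
      exact_mod_cast Nat.lt_succ_self _
    obtain ⟨c', hc'⟩ := poly_surj _ hdeg
    refine ⟨c', ?_, ?_⟩
    · intro he
      dsimp only at he
      rw [he] at hc'
      exact (fac_monic (m := m) (shape t)).ne_zero (left_eq_add.1 hc')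
    · refine (rel hd c' t _).2 ?_
      intro i hi
      rw [pre_iff, hc', add_sub_cancel_left]
      exact Finset.dvd_prod_of_mem _ (mem_range.2 hi)
  · rintro c c' hcc j ⟨⟨c1, t1⟩, rfl⟩ j' ⟨⟨c2, t2⟩, rfl⟩ hjj r1 r2 r3 r4
    dsimp only at r1 r2 r3 r4 hjj
    have q1 := (rel hd c t1 _).1 r1
    have q2 := (rel hd c t2 _).1 r2
    have q3 := (rel hd c' t1 _).1 r3
    have q4 := (rel hd c' t2 _).1 r4
    by_cases htt : t1 = t2
    · subst htt
      apply hjj
      refine Prod.ext rfl ?_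
      funext i
      by_cases hi : i < m + 1
      · exact (q1 i hi).symm.trans (q2 i hi)
      · simp only [sinkIdx]
        rw [shape_zero t1 (by omega)]; rfl
    · apply hcc
      apply poly_inj
      by_contra hne
      have hdvd : fac b m (fun i => max (shape t1 i) (shape t2 i)) ∣
          poly b _ c - poly b _ c' := by
        apply fac_dvd hb2
        intro i hi
        rcases max_choice (shape t1 i) (shape t2 i) with hmx | hmx
        · simp only [hmx]
          rw [← pre_iff]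
          exact (q1 i hi).trans (q3 i hi).symm
        · simp only [hmx]
          rw [← pre_iff]
          exact (q2 i hi).trans (q4 i hi).symm
      have hne' : poly b _ c - poly b _ c' ≠ 0 := sub_ne_zero.2 hne
      have hd1 : (fac b m (fun i => max (shape t1 i) (shape t2 i))).degree
          ≤ (poly b _ c - poly b _ c').degree := degree_le_of_dvd hdvd hne'
      have hd2 : (poly b _ c - poly b _ c').degree < ((m * h + 1 : ℕ) : WithBot ℕ) :=
        lt_of_le_of_lt (degree_sub_le _ _) (max_lt (poly_degree c) (poly_degree c'))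
      rw [degree_eq_natDegree (fac_monic _).ne_zero, fac_natDegree] at hd1
      have hd3 := lt_of_le_of_lt hd1 hd2
      have hd4 : ∑ i ∈ range (m + 1), max (shape t1 i) (shape t2 i) < m * h + 1 := by
        exact_mod_cast hd3
      have := shape_ne_sum htt
      omega

lemma pts_bound {d : ℕ} (c c1 : Fin (m * h + 1) → ZMod b) (t : Fin m → Fin h) (k : Fin d) :
    |src b m h d c k - snk b d (sinkIdx b t c1) k| ≤ (b : ℤ) ^ (m * h + 1) := by
  have hbpos : 0 < b := hb.out.pos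
  have hX : ∀ i, ((pre b (dig b i (poly b _ c)) (m * h + 1) : ℕ) : ℤ) + 1
      ≤ (b : ℤ) ^ (m * h + 1) := by
    intro i
    have := pre_lt (dig_lt i (poly b _ c)) (m * h + 1)
    exact_mod_cast this
  have hY : ∀ i, (((sinkIdx b t c1).2 i * b ^ (m * h + 1 - shape t i)
      + b ^ (m * h + 1 - shape t i) : ℕ) : ℤ) ≤ (b : ℤ) ^ (m * h + 1) := by
    intro i
    have h1 := pre_lt (dig_lt i (poly b _ c1)) (shape t i)
    have h2 : (pre b (dig b i (poly b _ c1)) (shape t i) + 1) * b ^ (m * h + 1 - shape t i)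
        ≤ b ^ (shape t i) * b ^ (m * h + 1 - shape t i) := Nat.mul_le_mul_right _ h1
    rw [← pow_add, show shape t i + (m * h + 1 - shape t i) = m * h + 1 by
      have := shape_le t i; omega, add_mul, one_mul] at h2
    exact_mod_cast h2
  have hB : ∀ i, (1 : ℤ) ≤ ((b ^ (m * h + 1 - shape t i) : ℕ) : ℤ) := by
    intro i
    exact_mod_cast Nat.one_le_pow _ _ hbpos
  simp only [src, snk]
  by_cases hk1 : (k : ℕ) < m + 1
  · rw [if_pos hk1, if_pos hk1]
    have h1 := hX k
    have h2 := hY k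
    have h3 := hB k
    have h4 : (0 : ℤ) ≤ ((pre b (dig b k (poly b _ c)) (m * h + 1) : ℕ) : ℤ) := Nat.cast_nonneg _
    have h5 : (0 : ℤ) ≤ (((sinkIdx b t c1).2 k * b ^ (m * h + 1 - shape t k) : ℕ) : ℤ) :=
      Nat.cast_nonneg _
    have e : (sinkIdx b t c1).1 = t := rfl
    rw [e]
    rw [Nat.cast_add] at h2 ⊢
    rw [abs_le]
    constructor <;> linarith
  · rw [if_neg hk1, if_neg hk1]
    by_cases hk2 : (k : ℕ) < 2 * (m + 1)
    · rw [if_pos hk2, if_pos hk2]
      have h1 := hX ((k : ℕ) - (m + 1))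
      have h2 := hY ((k : ℕ) - (m + 1))
      have h3 := hB ((k : ℕ) - (m + 1))
      have h4 : (0 : ℤ) ≤ ((pre b (dig b ((k : ℕ) - (m + 1)) (poly b _ c)) (m * h + 1) : ℕ) : ℤ) :=
        Nat.cast_nonneg _
      have h5 : (0 : ℤ) ≤ (((sinkIdx b t c1).2 ((k : ℕ) - (m + 1)) *
          b ^ (m * h + 1 - shape t ((k : ℕ) - (m + 1))) : ℕ) : ℤ) := Nat.cast_nonneg _
      have e : (sinkIdx b t c1).1 = t := rfl
      rw [e]
      rw [Nat.cast_add] at h2
      rw [abs_le]
      constructor <;> linarith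
    · rw [if_neg hk2, if_neg hk2]
      simp

/-- The sources in `ℓ_∞^(d+1)`. -/
noncomputable def srcI (b m h d : ℕ) (c : Fin (m * h + 1) → ZMod b) : Fin (d + 1) → ℝ :=
  Fin.cons 0 (pt (src b m h d c))

/-- The sinks in `ℓ_∞^(d+1)`. -/
def snkI (H : ℝ) (b : ℕ) {m h : ℕ} (d : ℕ) (j : (Fin m → Fin h) × (ℕ → ℕ)) :
    Fin (d + 1) → ℝ :=
  Fin.cons H fun k => (snk b d j k : ℝ) - H

lemma linf_eq {d : ℕ} (c c1 : Fin (m * h + 1) → ZMod b) (t : Fin m → Fin h)
    (hle : src b m h d c ≤ snk b d (sinkIdx b t c1)) :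
    linf (srcI b m h d c) (snkI ((b : ℝ) ^ (m * h + 1)) b d (sinkIdx b t c1))
      = (b : ℝ) ^ (m * h + 1) := by
  have hB : (0 : ℝ) ≤ (b : ℝ) ^ (m * h + 1) := by positivity
  simp only [linf]
  apply le_antisymm
  · rw [pi_norm_le_iff_of_nonneg hB]
    intro k
    refine Fin.cases ?_ (fun k => ?_) k
    · simp [srcI, snkI]
    · have h1 := pts_bound c c1 t k
      have h2 := hle k
      have h1' : |(src b m h d c k : ℝ) - snk b d (sinkIdx b t c1) k| ≤ (b : ℝ) ^ (m * h + 1) := by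
        exact_mod_cast h1
      have h2' : (src b m h d c k : ℝ) ≤ snk b d (sinkIdx b t c1) k := by exact_mod_cast h2
      simp only [srcI, snkI, Pi.sub_apply, Fin.cons_succ, pt, Real.norm_eq_abs]
      rw [abs_le] at h1' ⊢
      constructor <;> linarith [h1'.1, h1'.2]
  · have := norm_le_pi_norm (srcI b m h d c -
      snkI ((b : ℝ) ^ (m * h + 1)) b d (sinkIdx b t c1)) 0
    simpa [srcI, snkI, abs_of_nonneg hB] using this

omit hb in
lemma linf_ge {d : ℕ} (c c1 : Fin (m * h + 1) → ZMod b) (t : Fin m → Fin h)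
    (hle : ¬ src b m h d c ≤ snk b d (sinkIdx b t c1)) :
    (b : ℝ) ^ (m * h + 1) + 1 ≤
      linf (srcI b m h d c) (snkI ((b : ℝ) ^ (m * h + 1)) b d (sinkIdx b t c1)) := by
  rw [Pi.le_def] at hle
  push Not at hle
  obtain ⟨k, hk⟩ := hle
  have hk' : (snk b d (sinkIdx b t c1) k : ℝ) + 1 ≤ src b m h d c k := by exact_mod_cast hk
  have := norm_le_pi_norm (srcI b m h d c -
    snkI ((b : ℝ) ^ (m * h + 1)) b d (sinkIdx b t c1)) k.succ
  simp only [linf]
  refine le_trans ?_ this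
  simp only [srcI, snkI, Pi.sub_apply, Fin.cons_succ, pt, Real.norm_eq_abs]
  refine le_trans ?_ (le_abs_self _)
  linarith

theorem lowerInf {d : ℕ} (hm : 1 ≤ m) (hh : 2 ≤ h) (hd : 2 * (m + 1) ≤ d) (hb1 : h ^ m ≤ b)
    (hb2 : m + 1 ≤ b) {μ : ℕ} {κ : ℝ} (hκ : κ ≤ 1 + 1 / (8 * (m + 1) * b ^ (m * h + 1)))
    (hS : Suffices (linf (d := d + 1)) (2 * b ^ (m * h + 1)) κ μ) :
    h ^ m * b ^ (m * h + 1) ≤ μ := by
  classical
  have hbpos : 0 < b := hb.out.pos
  have : NeZero b := ⟨hb.out.ne_zero⟩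
  obtain ⟨T, hT⟩ : ∃ T : Finset ((Fin (m * h + 1) → ZMod b) × ((Fin m → Fin h) × (ℕ → ℕ))),
      T = (univ : Finset ((Fin (m * h + 1) → ZMod b) × (Fin m → Fin h))).image
        fun x => (x.1, sinkIdx b x.2 x.1) := ⟨_, rfl⟩
  have hTmem : ∀ y ∈ T, ∃ c t, y = (c, sinkIdx b t c) := by
    intro y hy
    rw [hT, mem_image] at hy
    obtain ⟨x, _, rfl⟩ := hy
    exact ⟨x.1, x.2, rfl⟩
  have hTcard : T.card = h ^ m * b ^ (m * h + 1) := by
    rw [hT, card_image_of_injective]
    · rw [card_univ, Fintype.card_prod, Fintype.card_fun, Fintype.card_fun, Fintype.card_fin,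
        Fintype.card_fin, Fintype.card_fin, ZMod.card, mul_comm]
    · rintro ⟨c, t⟩ ⟨c', t'⟩ hx
      have h1 := congrArg Prod.fst hx
      have h2 := congrArg (fun z => z.2.1) hx
      exact Prod.ext h1 h2
  obtain ⟨M0, hM0⟩ : ∃ M0 : Finset (Fin (d + 1) → ℝ), M0 =
      (univ.image fun c => srcI b m h d c) ∪
        (T.image Prod.snd).image fun j => snkI (b ^ (m * h + 1)) b d j := ⟨_, rfl⟩
  have hsn : (T.image Prod.snd).card ≤ h ^ m * b ^ (m * h) := by
    have h1 : (T.image Prod.snd).card ≤ ((univ : Finset (Fin m → Fin h)).sigma fun t =>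
        Fintype.piFinset fun i : Fin (m + 1) => range (b ^ shape t i)).card := by
      apply Finset.card_le_card_of_injOn (fun j => ⟨j.1, fun i => j.2 i⟩)
      · intro j hj
        rw [mem_coe, mem_image] at hj
        obtain ⟨y, hy, rfl⟩ := hj
        obtain ⟨c, t, rfl⟩ := hTmem y hy
        rw [mem_coe, mem_sigma]
        refine ⟨mem_univ _, ?_⟩
        rw [Fintype.mem_piFinset]
        intro i
        rw [mem_range]
        exact pre_lt (dig_lt _ _) _
      · intro j hj j' hj' he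
        rw [mem_coe, mem_image] at hj hj'
        obtain ⟨y, hy, rfl⟩ := hj
        obtain ⟨y', hy', rfl⟩ := hj'
        obtain ⟨c, t, rfl⟩ := hTmem y hy
        obtain ⟨c', t', rfl⟩ := hTmem y' hy'
        simp only [sinkIdx] at he ⊢
        obtain ⟨e1, e2⟩ := Sigma.mk.inj_iff.1 he
        subst e1
        have e3 := eq_of_heq e2
        refine Prod.ext rfl ?_
        funext i
        by_cases hi : i < m + 1
        · exact congrFun e3 ⟨i, hi⟩
        · show pre b _ (shape t i) = pre b _ (shape t i)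
          rw [shape_zero t (by omega)]; rfl
    refine h1.trans (le_of_eq ?_)
    rw [card_sigma]
    have h2 : ∀ t ∈ (univ : Finset (Fin m → Fin h)),
        (Fintype.piFinset fun i : Fin (m + 1) => range (b ^ shape t i)).card = b ^ (m * h) := by
      intro t _
      rw [Fintype.card_piFinset]
      simp only [card_range]
      rw [prod_pow_eq_pow_sum, ← shape_sum t, ← Fin.sum_univ_eq_sum_range]
    rw [sum_congr rfl h2]
    simp
  have hM0card : M0.card ≤ 2 * b ^ (m * h + 1) := by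
    have h1 : (univ.image fun c => srcI b m h d c).card ≤ b ^ (m * h + 1) := by
      refine card_image_le.trans (le_of_eq ?_)
      rw [card_univ, Fintype.card_fun, Fintype.card_fin, ZMod.card]
    have h2 : ((T.image Prod.snd).image fun j => snkI (b ^ (m * h + 1)) b d j).card
        ≤ b ^ (m * h + 1) := by
      refine card_image_le.trans (hsn.trans ?_)
      rw [pow_succ, mul_comm]
      exact Nat.mul_le_mul_left _ hb1
    rw [hM0]
    exact (card_union_le _ _).trans (by omega)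
  have : Infinite (Fin (d + 1) → ℝ) := inferInstance
  obtain ⟨M, hMM, hMc⟩ := Infinite.exists_superset_card_eq M0 _ hM0card
  obtain ⟨V, hV, G, w, g1, g2, g3, g4⟩ := hS M hMc
  refine le_trans (le_of_eq hTcard.symm) (le_trans ?_ g3)
  have relT : ∀ c t, src b m h d c ≤ snk b d (sinkIdx b t c) := by
    intro c t
    exact (rel hd c t _).2 fun i _ => rfl
  refine core3 (H := (b : ℝ) ^ (m * h + 1)) g1 g2 (srcI b m h d)
    (snkI ((b : ℝ) ^ (m * h + 1)) b d) M g4
    (fun c => hMM (by rw [hM0, mem_union]; exact Or.inl (mem_image_of_mem _ (mem_univ c))))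
    (Set.range fun x : (Fin (m * h + 1) → ZMod b) × (Fin m → Fin h) => sinkIdx b x.2 x.1)
    ?_ (fun c j => src b m h d c ≤ snk b d j) ?_ ?_ ?_ T ?_ ?_ ?_ ?_
  · rintro j ⟨⟨c, t⟩, rfl⟩
    apply hMM
    rw [hM0, mem_union]
    right
    apply mem_image_of_mem
    rw [mem_image]
    refine ⟨(c, sinkIdx b t c), ?_, rfl⟩
    rw [hT, mem_image]
    exact ⟨(c, t), mem_univ _, rfl⟩
  · rintro c' j ⟨⟨c, t⟩, rfl⟩ hle
    exact linf_eq c' c t hle
  · rintro c' j ⟨⟨c, t⟩, rfl⟩ hle
    exact linf_ge c' c t hle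
  · have hB : (0 : ℝ) < b ^ (m * h + 1) := by
      have : (0 : ℝ) < b := by exact_mod_cast hbpos
      positivity
    have hB' : (0 : ℝ) < 8 * (m + 1) * b ^ (m * h + 1) := by positivity
    calc (κ - 1) * (b : ℝ) ^ (m * h + 1)
        ≤ 1 / (8 * (m + 1) * b ^ (m * h + 1)) * (b : ℝ) ^ (m * h + 1) :=
          mul_le_mul_of_nonneg_right (by linarith) hB.le
      _ = 1 / (8 * (m + 1)) := by field_simp
      _ ≤ 1 / 4 := by
          apply one_div_le_one_div_of_le (by norm_num)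
          have : (0 : ℝ) ≤ m := Nat.cast_nonneg m
          linarith
  · intro y hy
    obtain ⟨c, t, rfl⟩ := hTmem y hy
    exact ⟨⟨(c, t), rfl⟩, relT c t⟩
  · intro y hy
    obtain ⟨c, t, rfl⟩ := hTmem y hy
    have hnt : Nontrivial (Fin m → Fin h) := by
      have : Nonempty (Fin m) := ⟨⟨0, by omega⟩⟩
      have : Nontrivial (Fin h) := Fin.nontrivial_iff_two_le.2 hh
      infer_instance
    obtain ⟨t', ht'⟩ := exists_ne t
    refine ⟨sinkIdx b t' c, ⟨(c, t'), rfl⟩, ?_, relT c t'⟩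
    intro he
    exact ht' (congrArg Prod.fst he)
  · intro y hy
    obtain ⟨c, t, rfl⟩ := hTmem y hy
    have hdeg : (poly b (m * h + 1) c + fac b m (shape t)).degree < ((m * h + 1 : ℕ) : WithBot ℕ) := by
      refine lt_of_le_of_lt (degree_add_le _ _) (max_lt (poly_degree c) ?_)
      rw [degree_eq_natDegree (fac_monic _).ne_zero, fac_natDegree, shape_sum]
      exact_mod_cast Nat.lt_succ_self _
    obtain ⟨c', hc'⟩ := poly_surj _ hdeg
    refine ⟨c', ?_, ?_⟩
    · intro he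
      dsimp only at he
      rw [he] at hc'
      exact (fac_monic (m := m) (shape t)).ne_zero (left_eq_add.1 hc')
    · refine (rel hd c' t _).2 ?_
      intro i hi
      rw [pre_iff, hc', add_sub_cancel_left]
      exact Finset.dvd_prod_of_mem _ (mem_range.2 hi)
  · rintro c c' hcc j ⟨⟨c1, t1⟩, rfl⟩ j' ⟨⟨c2, t2⟩, rfl⟩ hjj r1 r2 r3 r4
    dsimp only at r1 r2 r3 r4 hjj
    have q1 := (rel hd c t1 _).1 r1
    have q2 := (rel hd c t2 _).1 r2
    have q3 := (rel hd c' t1 _).1 r3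
    have q4 := (rel hd c' t2 _).1 r4
    by_cases htt : t1 = t2
    · subst htt
      apply hjj
      refine Prod.ext rfl ?_
      funext i
      by_cases hi : i < m + 1
      · exact (q1 i hi).symm.trans (q2 i hi)
      · simp only [sinkIdx]
        rw [shape_zero t1 (by omega)]; rfl
    · apply hcc
      apply poly_inj
      by_contra hne
      have hdvd : fac b m (fun i => max (shape t1 i) (shape t2 i)) ∣
          poly b _ c - poly b _ c' := by
        apply fac_dvd hb2
        intro i hi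
        rcases max_choice (shape t1 i) (shape t2 i) with hmx | hmx
        · simp only [hmx]
          rw [← pre_iff]
          exact (q1 i hi).trans (q3 i hi).symm
        · simp only [hmx]
          rw [← pre_iff]
          exact (q2 i hi).trans (q4 i hi).symm
      have hne' : poly b _ c - poly b _ c' ≠ 0 := sub_ne_zero.2 hne
      have hd1 : (fac b m (fun i => max (shape t1 i) (shape t2 i))).degree
          ≤ (poly b _ c - poly b _ c').degree := degree_le_of_dvd hdvd hne'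
      have hd2 : (poly b _ c - poly b _ c').degree < ((m * h + 1 : ℕ) : WithBot ℕ) :=
        lt_of_le_of_lt (degree_sub_le _ _) (max_lt (poly_degree c) (poly_degree c'))
      rw [degree_eq_natDegree (fac_monic _).ne_zero, fac_natDegree] at hd1
      have hd3 := lt_of_le_of_lt hd1 hd2
      have hd4 : ∑ i ∈ range (m + 1), max (shape t1 i) (shape t2 i) < m * h + 1 := by
        exact_mod_cast hd3
      have := shape_ne_sum htt
      omega

end Construction

/-! ## Asymptotics -/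

lemma asymptotic {X : Type} {ρ : X → X → ℝ} (hρ : MetricLike ρ) {m : ℕ} (hm : 1 ≤ m)
    (key : ∀ (b h μ : ℕ) (κ : ℝ), b.Prime → 2 ≤ h → h ^ m ≤ b → m + 1 ≤ b →
      κ ≤ 1 + 1 / (8 * (m + 1) * b ^ (m * h + 1)) →
      Suffices ρ (2 * b ^ (m * h + 1)) κ μ → h ^ m * b ^ (m * h + 1) ≤ μ) :
    ∃ C : ℝ, 0 < C ∧ ∀ N : ℕ, ∃ n : ℕ, N ≤ n ∧ ∀ c : ℝ, 1 ≤ c →
      c ≤ 1 + 1 / (4 * (m + 1) * n) →
      C * n * (Real.logb 2 n / Real.logb 2 (Real.logb 2 n)) ^ m ≤ minEdges ρ n c := by
  refine ⟨1 / 2 * (1 / (5 * m ^ 2)) ^ m, by positivity, ?_⟩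
  intro N
  obtain ⟨h, hh⟩ : ∃ h, h = max N (m + 1) := ⟨_, rfl⟩
  have hN : N ≤ h := by rw [hh]; exact le_max_left _ _
  have hm1 : m + 1 ≤ h := by rw [hh]; exact le_max_right _ _
  have h2 : 2 ≤ h := by omega
  obtain ⟨b, hbp, hb1, hb2⟩ := Nat.exists_prime_lt_and_le_two_mul (h ^ m) (by positivity)
  have hhm : h ≤ h ^ m := Nat.le_self_pow (by omega) h
  obtain ⟨n, hn⟩ : ∃ n, n = 2 * b ^ (m * h + 1) := ⟨_, rfl⟩
  have hb2' : 2 ≤ b := hbp.two_le
  have hmh : h ≤ m * h := Nat.le_mul_of_pos_left h (by omega)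
  have hnN : N ≤ n := by
    have h1 : h < 2 ^ h := Nat.lt_two_pow_self
    have h3 : 2 ^ h ≤ b ^ (m * h + 1) :=
      (Nat.pow_le_pow_left hb2' h).trans (Nat.pow_le_pow_right (by omega) (by omega))
    omega
  refine ⟨n, hnN, ?_⟩
  intro κ hκ1 hκ
  have hS := suffices_minEdges hρ (n := n) (c := κ)
    (by have : 0 < b ^ (m * h + 1) := by positivity
        omega) hκ1
  have hlow : h ^ m * b ^ (m * h + 1) ≤ minEdges ρ n κ := by
    apply key b h _ κ hbp h2 hb1.le (by omega)
    · refine hκ.trans (le_of_eq ?_)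
      rw [hn]
      push_cast
      ring_nf
    · rw [← hn]; exact hS
  -- the logarithms
  have hmr : (1 : ℝ) ≤ m := by exact_mod_cast hm
  have hhr : (2 : ℝ) ≤ h := by exact_mod_cast h2
  have hbr : (2 : ℝ) ≤ b := by exact_mod_cast hb2'
  obtain ⟨L, hL⟩ : ∃ L, L = Real.logb 2 h := ⟨_, rfl⟩
  obtain ⟨B, hB⟩ : ∃ B, B = Real.logb 2 b := ⟨_, rfl⟩
  have hL1 : 1 ≤ L := by
    rw [hL, Real.le_logb_iff_rpow_le (by norm_num) (by linarith)]
    simpa using hhr
  have hB1 : 1 ≤ B := by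
    rw [hB, Real.le_logb_iff_rpow_le (by norm_num) (by linarith)]
    simpa using hbr
  have hB2 : B ≤ 1 + m * L := by
    have h3 : (b : ℝ) ≤ 2 * (h : ℝ) ^ m := by exact_mod_cast hb2
    have h4 : B ≤ Real.logb 2 (2 * (h : ℝ) ^ m) := by
      rw [hB]
      exact Real.logb_le_logb_of_le (by norm_num) (by linarith) h3
    rw [Real.logb_mul (by norm_num) (by positivity), Real.logb_self_eq_one (by norm_num),
      Real.logb_pow, ← hL] at h4
    exact h4
  have hlogn : Real.logb 2 n = 1 + (m * h + 1) * B := by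
    rw [hn]
    push_cast
    rw [Real.logb_mul (by norm_num) (by positivity), Real.logb_self_eq_one (by norm_num),
      Real.logb_pow, ← hB]
    push_cast
    ring
  have hmhr : (2 : ℝ) ≤ m * h := by nlinarith
  have hup : Real.logb 2 n ≤ 5 * m ^ 2 * h * L := by
    rw [hlogn]
    have e1 : B ≤ 2 * m * L := by nlinarith
    have e2 : ((m : ℝ) * h + 1) * B ≤ (2 * (m * h)) * (2 * m * L) := by
      apply mul_le_mul (by linarith) e1 (by linarith) (by positivity)
    have e3 : (1 : ℝ) ≤ m ^ 2 * h * L := by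
      have : (1 : ℝ) ≤ m ^ 2 * h := by nlinarith
      nlinarith
    nlinarith
  have hlo : (h : ℝ) ≤ Real.logb 2 n := by
    rw [hlogn]
    nlinarith
  have hLL : L ≤ Real.logb 2 (Real.logb 2 n) := by
    rw [hL]
    exact Real.logb_le_logb_of_le (by norm_num) (by linarith) hlo
  have hratio : Real.logb 2 n / Real.logb 2 (Real.logb 2 n) ≤ 5 * m ^ 2 * h := by
    rw [div_le_iff₀ (by linarith)]
    refine hup.trans ?_
    exact mul_le_mul_of_nonneg_left hLL (by positivity)
  have hratio0 : 0 ≤ Real.logb 2 n / Real.logb 2 (Real.logb 2 n) :=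
    div_nonneg (by linarith) (by linarith)
  have hpow : (Real.logb 2 n / Real.logb 2 (Real.logb 2 n)) ^ m ≤ (5 * m ^ 2 * h) ^ m :=
    pow_le_pow_left₀ hratio0 hratio m
  have hlowr : ((h ^ m * b ^ (m * h + 1) : ℕ) : ℝ) ≤ minEdges ρ n κ := by exact_mod_cast hlow
  refine le_trans ?_ hlowr
  calc 1 / 2 * (1 / (5 * (m : ℝ) ^ 2)) ^ m * n *
        (Real.logb 2 n / Real.logb 2 (Real.logb 2 n)) ^ m
      ≤ 1 / 2 * (1 / (5 * (m : ℝ) ^ 2)) ^ m * n * (5 * m ^ 2 * h) ^ m :=
        mul_le_mul_of_nonneg_left hpow (by positivity)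
    _ = 1 / 2 * n * h ^ m * ((1 / (5 * (m : ℝ) ^ 2)) * (5 * m ^ 2)) ^ m := by
        rw [mul_pow (5 * (m : ℝ) ^ 2) (h : ℝ) m, mul_pow (1 / (5 * (m : ℝ) ^ 2))]; ring
    _ = 1 / 2 * n * h ^ m := by
        rw [one_div_mul_cancel (by positivity), one_pow, mul_one]
    _ = ((h ^ m * b ^ (m * h + 1) : ℕ) : ℝ) := by
        rw [hn]; push_cast; ring

/-! ## The upper bound in all dimensions, `p = 1` -/

lemma l1_cons {d : ℕ} (a a' : ℝ) (x y : Fin d → ℝ) :
    l1 (Fin.cons a x : Fin (d + 1) → ℝ) (Fin.cons a' y) = |a - a'| + l1 x y := by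
  simp [l1, Fin.sum_univ_succ]

lemma l1_tail {d : ℕ} (x y : Fin (d + 1) → ℝ) :
    l1 x y = |x 0 - y 0| + l1 (Fin.tail x) (Fin.tail y) := by
  simp [l1, Fin.sum_univ_succ, Fin.tail]

lemma lift_path {d : ℕ} (a : ℝ) {E : Set (Sym2 (Fin d → ℝ))} {u v : Fin d → ℝ} {L : ℝ}
    (h : Path l1 E u v L) :
    Path l1 (Sym2.map (fun x => (Fin.cons a x : Fin (d + 1) → ℝ)) '' E)
      (Fin.cons a u : Fin (d + 1) → ℝ) (Fin.cons a v) L := by
  induction h with
  | nil u => exact Path.nil _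
  | @cons u v x L he _ ih =>
    have h1 : s((Fin.cons a u : Fin (d + 1) → ℝ), (Fin.cons a v : Fin (d + 1) → ℝ)) ∈
        Sym2.map (fun x => (Fin.cons a x : Fin (d + 1) → ℝ)) '' E := ⟨s(u, v), he, rfl⟩
    exact (Path.cons h1 ih).cast (by rw [l1_cons]; simp)

lemma lineGen {P : Type} {δ : P → P → ℝ} (hδ : MetricLike δ) (g : ℝ → P)
    (hg : ∀ a a', δ (g a) (g a') = |a - a'|) (Y : Finset ℝ) :
    ∃ F : Finset (Sym2 P), F.card ≤ Y.card ∧
      ∀ y ∈ Y, ∀ y' ∈ Y, Path δ (F : Set (Sym2 P)) (g y) (g y') |y - y'| := by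
  classical
  induction Y using Finset.induction_on_max with
  | empty => exact ⟨∅, by simp, by simp⟩
  | insert a Y hY ih =>
    obtain ⟨F, hF, hP⟩ := ih
    have haY : a ∉ Y := fun h => lt_irrefl _ (hY a h)
    rcases Y.eq_empty_or_nonempty with h | h
    · subst h
      refine ⟨∅, by simp, ?_⟩
      intro y hy y' hy'
      simp only [insert_empty_eq, mem_singleton] at hy hy'
      subst hy; subst hy'
      exact (Path.nil _).cast (by simp)
    · obtain ⟨b, hb⟩ : ∃ b, b = Y.max' h := ⟨_, rfl⟩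
      have hbY : b ∈ Y := by rw [hb]; exact Y.max'_mem h
      have hmax : ∀ y ∈ Y, y ≤ b := fun y hy => by rw [hb]; exact Y.le_max' y hy
      refine ⟨insert s(g b, g a) F, ?_, ?_⟩
      · rw [card_insert_of_notMem haY]
        exact (card_insert_le _ _).trans (by omega)
      · have hsub : (F : Set (Sym2 P)) ⊆ ((insert s(g b, g a) F : Finset _) :
            Set (Sym2 P)) := by
          rw [coe_insert]; exact Set.subset_insert _ _
        have hstep : ∀ y ∈ Y, Path δ ((insert s(g b, g a) F : Finset _) :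
            Set (Sym2 P)) (g y) (g a) |y - a| := by
          intro y hy
          have e1 := (hP y hy b hbY).mono hsub
          have e2 : Path δ ((insert s(g b, g a) F : Finset _) :
            Set (Sym2 P)) (g b) (g a) (δ (g b) (g a)) :=
            Path.single (by rw [coe_insert]; exact Set.mem_insert _ _)
          refine (e1.append e2).cast ?_
          have h1 := hmax y hy
          have h2 := hY b hbY
          rw [hg, abs_of_nonpos (by linarith), abs_of_nonpos (by linarith),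
            abs_of_nonpos (by linarith)]
          ring
        intro y hy y' hy'
        rw [mem_insert] at hy hy'
        rcases hy with hy | hy <;> rcases hy' with hy' | hy'
        · subst hy; subst hy'
          exact (Path.nil _).cast (by simp)
        · subst hy
          exact ((hstep y' hy').symm hδ).cast (abs_sub_comm _ _)
        · subst hy'
          exact hstep y hy
        · exact (hP y hy y' hy').mono hsub

lemma line1 (Y : Finset (Fin 1 → ℝ)) : ∃ F : Finset (Sym2 (Fin 1 → ℝ)), F.card ≤ Y.card ∧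
    ∀ y ∈ Y, ∀ y' ∈ Y, Path l1 (F : Set (Sym2 (Fin 1 → ℝ))) y y' (l1 y y') := by
  classical
  obtain ⟨F, hF, hP⟩ := lineGen (l1_metric (d := 1)) (fun a _ => a) (by intro a a'; simp [l1])
    (Y.image fun y => y 0)
  refine ⟨F, hF.trans card_image_le, ?_⟩
  intro y hy y' hy'
  have h1 := hP (y 0) (mem_image_of_mem (fun y : Fin 1 → ℝ => y 0) hy) (y' 0)
    (mem_image_of_mem (fun y : Fin 1 → ℝ => y 0) hy')
  have e1 : (fun _ => y 0 : Fin 1 → ℝ) = y := by funext k; rw [Subsingleton.elim k 0]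
  have e2 : (fun _ => y' 0 : Fin 1 → ℝ) = y' := by funext k; rw [Subsingleton.elim k 0]
  rw [e1, e2] at h1
  exact h1.cast (by simp [l1])

lemma splitD {d : ℕ} (S : Finset (Fin (d + 1) → ℝ)) : ∀ a : ℕ, a ≤ S.card → ∃ L ⊆ S,
    L.card = a ∧ ∃ μ : ℝ, (∀ p ∈ L, p 0 ≤ μ) ∧ ∀ p ∈ S \ L, μ ≤ p 0 := by
  classical
  intro a
  induction a with
  | zero =>
    intro _
    refine ⟨∅, by simp, by simp, ?_⟩
    rcases S.eq_empty_or_nonempty with h | h
    · exact ⟨0, by simp, by simp [h]⟩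
    · obtain ⟨p, _, hp⟩ := S.exists_min_image (fun p => p 0) h
      exact ⟨p 0, by simp, fun q hq => hp q (by simpa using hq)⟩
  | succ a ih =>
    intro ha
    obtain ⟨L, hL, hc, μ, h1, h2⟩ := ih (by omega)
    have hne : (S \ L).Nonempty := by
      rw [← card_pos, card_sdiff_of_subset hL]
      omega
    obtain ⟨p, hp, hmin⟩ := (S \ L).exists_min_image (fun p => p 0) hne
    have hpL : p ∉ L := (mem_sdiff.1 hp).2
    refine ⟨insert p L, ?_, ?_, p 0, ?_, ?_⟩
    · exact insert_subset (mem_sdiff.1 hp).1 hL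
    · rw [card_insert_of_notMem hpL, hc]
    · intro q hq
      rw [mem_insert] at hq
      rcases hq with rfl | hq
      · exact le_rfl
      · exact (h1 q hq).trans (h2 p hp)
    · intro q hq
      rw [mem_sdiff, mem_insert, not_or] at hq
      exact hmin q (mem_sdiff.2 ⟨hq.1, hq.2.2⟩)

/-- A network with `(d+1) (m+1)^d n` edges for `n ≤ 2^m` points of `ℓ₁^(d+1)`. -/
lemma netD : ∀ (d m : ℕ) (M : Finset (Fin (d + 1) → ℝ)), M.card ≤ 2 ^ m →
    ∃ E : Finset (Sym2 (Fin (d + 1) → ℝ)), E.card ≤ ((d + 1) * (m + 1) ^ d) * M.card ∧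
      ∀ p ∈ M, ∀ q ∈ M, Path l1 (E : Set (Sym2 (Fin (d + 1) → ℝ))) p q (l1 p q) := by
  classical
  intro d
  induction d with
  | zero =>
    intro m M _
    obtain ⟨F, hF, hP⟩ := line1 M
    exact ⟨F, by simpa using hF, hP⟩
  | succ d ihd =>
    intro m
    induction m with
    | zero =>
      intro M hM
      refine ⟨∅, by simp, ?_⟩
      intro p hp q hq
      have : p = q := card_le_one.1 (by simpa using hM) p hp q hq
      subst this
      exact (Path.nil p).cast (by rw [l1_metric.self])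
    | succ m ih =>
      intro M hM
      obtain ⟨L, hLM, hLc, μ, h1, h2⟩ := splitD M (M.card / 2) (Nat.div_le_self _ _)
      have hRc : (M \ L).card = M.card - M.card / 2 := by
        rw [card_sdiff_of_subset hLM, hLc]
      have hM' : M.card ≤ 2 ^ m * 2 := by rw [← pow_succ]; exact hM
      obtain ⟨E1, c1, p1⟩ := ih L (by omega)
      obtain ⟨E2, c2, p2⟩ := ih (M \ L) (by omega)
      have cT : (M.image (fun p => (Fin.tail p : Fin (d + 1) → ℝ))).card ≤ M.card := card_image_le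
      obtain ⟨F0, cF0, pF0⟩ := ihd (m + 1) (M.image fun p => (Fin.tail p : Fin (d + 1) → ℝ))
        (cT.trans hM)
      obtain ⟨F, hFdef⟩ : ∃ F : Finset (Sym2 (Fin (d + 1 + 1) → ℝ)), F = F0.image
        (Sym2.map fun x => (Fin.cons μ x : Fin (d + 1 + 1) → ℝ)) := ⟨_, rfl⟩
      obtain ⟨S, hS⟩ : ∃ S : Finset (Sym2 (Fin (d + 1 + 1) → ℝ)), S = M.image
        fun p => s(p, (Fin.cons μ (Fin.tail p) : Fin (d + 1 + 1) → ℝ)) := ⟨_, rfl⟩
      have cS : S.card ≤ M.card := by rw [hS]; exact card_image_le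
      have cF : F.card ≤ ((d + 1) * (m + 1 + 1) ^ d) * M.card := by
        rw [hFdef]
        exact card_image_le.trans (cF0.trans (Nat.mul_le_mul_left _ cT))
      obtain ⟨E, hE⟩ : ∃ E : Finset (Sym2 (Fin (d + 1 + 1) → ℝ)), E = E1 ∪ E2 ∪ (F ∪ S) :=
        ⟨_, rfl⟩
      have sub1 : (E1 : Set (Sym2 (Fin (d + 1 + 1) → ℝ))) ⊆ E := by
        intro x hx
        rw [mem_coe] at hx ⊢
        rw [hE, mem_union, mem_union]; exact Or.inl (Or.inl hx)
      have sub2 : (E2 : Set (Sym2 (Fin (d + 1 + 1) → ℝ))) ⊆ E := by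
        intro x hx
        rw [mem_coe] at hx ⊢
        rw [hE, mem_union, mem_union]; exact Or.inl (Or.inr hx)
      have sub3 : (Sym2.map (fun x => (Fin.cons μ x : Fin (d + 1 + 1) → ℝ)) ''
          (F0 : Set (Sym2 (Fin (d + 1) → ℝ)))) ⊆ E := by
        intro x hx
        rw [mem_coe, hE, mem_union, mem_union (t := S)]
        refine Or.inr (Or.inl ?_)
        rw [hFdef, ← mem_coe, coe_image]
        exact hx
      have sub4 : ∀ p ∈ M, s(p, (Fin.cons μ (Fin.tail p) : Fin (d + 1 + 1) → ℝ)) ∈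
          (E : Set (Sym2 (Fin (d + 1 + 1) → ℝ))) := by
        intro p hp
        rw [mem_coe, hE, mem_union, mem_union (t := S)]
        refine Or.inr (Or.inr ?_)
        rw [hS]
        exact mem_image_of_mem
          (fun p : Fin (d + 1 + 1) → ℝ => s(p, (Fin.cons μ (Fin.tail p) : Fin (d + 1 + 1) → ℝ))) hp
      have cross : ∀ p ∈ L, ∀ q ∈ M \ L,
          Path l1 (E : Set (Sym2 (Fin (d + 1 + 1) → ℝ))) p q (l1 p q) := by
        intro p hp q hq
        have hpM := hLM hp
        have hqM := (mem_sdiff.1 hq).1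
        have s1 : Path l1 (E : Set (Sym2 (Fin (d + 1 + 1) → ℝ))) p
            (Fin.cons μ (Fin.tail p)) (l1 p (Fin.cons μ (Fin.tail p))) := Path.single (sub4 p hpM)
        have s2 := (lift_path μ (pF0 (Fin.tail p)
          (mem_image_of_mem (fun p => (Fin.tail p : Fin (d + 1) → ℝ)) hpM) (Fin.tail q)
          (mem_image_of_mem (fun p => (Fin.tail p : Fin (d + 1) → ℝ)) hqM))).mono sub3
        have s3 : Path l1 (E : Set (Sym2 (Fin (d + 1 + 1) → ℝ))) q
            (Fin.cons μ (Fin.tail q)) (l1 q (Fin.cons μ (Fin.tail q))) := Path.single (sub4 q hqM)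
        refine ((s1.append s2).append (s3.symm l1_metric)).cast ?_
        have a1 := h1 p hp
        have a2 := h2 q hq
        rw [l1_tail p (Fin.cons μ (Fin.tail p)), l1_tail q (Fin.cons μ (Fin.tail q)), l1_tail p q,
          Fin.cons_zero, Fin.cons_zero, Fin.tail_cons, Fin.tail_cons, l1_metric.self,
          l1_metric.self, abs_of_nonpos (by linarith : p 0 - μ ≤ 0), abs_of_nonneg (by linarith : 0 ≤ q 0 - μ),
          abs_of_nonpos (by linarith : p 0 - q 0 ≤ 0)]
        ring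
      refine ⟨E, ?_, ?_⟩
      · have u1 : E.card ≤ (E1 ∪ E2).card + (F ∪ S).card := by rw [hE]; exact card_union_le _ _
        have u2 := card_union_le E1 E2
        have u3 := card_union_le F S
        have u4 : L.card + (M \ L).card = M.card := by rw [hLc, hRc]; omega
        have u5 : ((d + 1 + 1) * (m + 1) ^ (d + 1)) * L.card
            + ((d + 1 + 1) * (m + 1) ^ (d + 1)) * (M \ L).card
            = ((d + 1 + 1) * (m + 1) ^ (d + 1)) * M.card := by
          rw [← u4]; ring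
        have u6 : (d + 1 + 1) * (m + 1) ^ (d + 1) + (d + 1) * (m + 1 + 1) ^ d + 1
            ≤ (d + 1 + 1) * (m + 1 + 1) ^ (d + 1) := by
          have v1 : (m + 1) ^ (d + 1) ≤ (m + 1 + 1) ^ d * (m + 1) := by
            rw [pow_succ]
            exact Nat.mul_le_mul_right _ (Nat.pow_le_pow_left (by omega) d)
          have v2 : (m + 1 + 1) ^ (d + 1) = (m + 1 + 1) ^ d * (m + 1) + (m + 1 + 1) ^ d := by
            rw [pow_succ, Nat.mul_succ]
          have v3 : 1 ≤ (m + 1 + 1) ^ d := Nat.one_le_pow _ _ (by omega)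
          rw [v2]
          nlinarith
        have u7 : ((d + 1 + 1) * (m + 1) ^ (d + 1) + (d + 1) * (m + 1 + 1) ^ d + 1) * M.card
            ≤ ((d + 1 + 1) * (m + 1 + 1) ^ (d + 1)) * M.card := Nat.mul_le_mul_right _ u6
        have u8 : ((d + 1 + 1) * (m + 1) ^ (d + 1) + (d + 1) * (m + 1 + 1) ^ d + 1) * M.card
            = ((d + 1 + 1) * (m + 1) ^ (d + 1)) * M.card
              + ((d + 1) * (m + 1 + 1) ^ d) * M.card + M.card := by ring
        rw [u8] at u7
        omega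
      · intro p hp q hq
        by_cases hpL : p ∈ L <;> by_cases hqL : q ∈ L
        · exact (p1 p hpL q hqL).mono sub1
        · exact cross p hpL q (mem_sdiff.2 ⟨hq, hqL⟩)
        · exact ((cross q hqL p (mem_sdiff.2 ⟨hp, hpL⟩)).symm l1_metric).cast
            (l1_metric.symm q p)
        · exact (p2 p (mem_sdiff.2 ⟨hp, hpL⟩) q (mem_sdiff.2 ⟨hq, hqL⟩)).mono sub2

lemma upperD {d : ℕ} {n : ℕ} (hn : 2 ≤ n) :
    minEdges (l1 (d := d + 1)) n 1 ≤ (d + 1) * 3 ^ d * (n * (Nat.log 2 n) ^ d) := by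
  classical
  apply Nat.sInf_le
  intro M hM
  obtain ⟨k, hk⟩ : ∃ k, k = Nat.log 2 n := ⟨_, rfl⟩
  have h2 : n < 2 ^ (k + 1) := by rw [hk]; exact Nat.lt_pow_succ_log_self (by norm_num) n
  have hkpos : 0 < k := by rw [hk]; exact Nat.log_pos (by norm_num) hn
  obtain ⟨E, hE, hP⟩ := netD d (k + 1) M (by omega)
  have hne : M.Nonempty := card_pos.1 (by omega)
  obtain ⟨V, hV, G, w, g1, g2, g3, g4⟩ := graph_of_net l1_metric _ hne E hP
  refine ⟨V, hV, G, w, g1, g2, ?_, g4⟩
  refine g3.trans (hE.trans ?_)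
  rw [hM, ← hk]
  have h3 : (k + 1 + 1) ^ d ≤ 3 ^ d * k ^ d := by
    rw [← mul_pow]
    exact Nat.pow_le_pow_left (by omega) d
  calc ((d + 1) * (k + 1 + 1) ^ d) * n ≤ ((d + 1) * (3 ^ d * k ^ d)) * n := by gcongr
    _ = (d + 1) * 3 ^ d * (n * k ^ d) := by ring

/-- Let `E_p(n, c, d)` be `minEdges ρ n c` for `ρ` the distance of `ℓ_p^d`, `p = 1` or `∞`.
(1) `n ⌊log₂ n⌋ / 4 ≤ E_p(n, 1, 2) ≤ 4 n ⌊log₂ n⌋`.
(2) For `d ≥ 2`: `E_p(n, c, d) ≥ n ⌊log₂ n⌋ / 4` if `1 ≤ c ≤ 1 + 1/(16 n)`, and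
`sup_n E_p(n, c, d)/n ≥ log₂ (1/(c-1)) / 12` if `c > 1`.
(3) `E_1(n, 1, d) ≤ d 3^(d-1) n ⌊log₂ n⌋^(d-1)`.
(4) For `m ≥ 1` and `d ≥ 2 (m + 1)` there are `C > 0` and infinitely many `n` with
`E_1(n, c, d) ≥ C n (log n / log log n)^m` for `1 ≤ c ≤ 1 + 1/(4 (m+1) n)`.
(5) The same for `p = ∞` and `d ≥ 2 m + 3`. -/
theorem result :
    (∀ ρ : (Fin 2 → ℝ) → (Fin 2 → ℝ) → ℝ, (ρ = l1 ∨ ρ = linf) → ∀ n : ℕ, 2 ≤ n →
      n * Nat.log 2 n ≤ 4 * minEdges ρ n 1 ∧ minEdges ρ n 1 ≤ 4 * (n * Nat.log 2 n)) ∧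
    (∀ d : ℕ, 2 ≤ d → ∀ ρ : (Fin d → ℝ) → (Fin d → ℝ) → ℝ, (ρ = l1 ∨ ρ = linf) →
      (∀ n : ℕ, 2 ≤ n → ∀ c : ℝ, 1 ≤ c → c ≤ 1 + 1 / (16 * n) →
        n * Nat.log 2 n ≤ 4 * minEdges ρ n c) ∧
      (∀ c : ℝ, 1 < c → ∃ n : ℕ, 2 ≤ n ∧
        n * (Real.logb 2 (1 / (c - 1)) / 12) ≤ minEdges ρ n c)) ∧
    (∀ d : ℕ, 1 ≤ d → ∀ n : ℕ, 2 ≤ n →
      minEdges (l1 (d := d)) n 1 ≤ d * 3 ^ (d - 1) * (n * (Nat.log 2 n) ^ (d - 1))) ∧
    (∀ m d : ℕ, 1 ≤ m → 2 * (m + 1) ≤ d → ∃ C : ℝ, 0 < C ∧ ∀ N : ℕ, ∃ n : ℕ, N ≤ n ∧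
      ∀ c : ℝ, 1 ≤ c → c ≤ 1 + 1 / (4 * (m + 1) * n) →
      C * n * (Real.logb 2 n / Real.logb 2 (Real.logb 2 n)) ^ m
        ≤ minEdges (l1 (d := d)) n c) ∧
    (∀ m d : ℕ, 1 ≤ m → 2 * m + 3 ≤ d → ∃ C : ℝ, 0 < C ∧ ∀ N : ℕ, ∃ n : ℕ, N ≤ n ∧
      ∀ c : ℝ, 1 ≤ c → c ≤ 1 + 1 / (4 * (m + 1) * n) →
      C * n * (Real.logb 2 n / Real.logb 2 (Real.logb 2 n)) ^ m
        ≤ minEdges (linf (d := d)) n c) := by
  refine ⟨LogLower.result.1, LogLower.result.2, ?_, ?_, ?_⟩
  · intro d hd n hn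
    obtain ⟨e, rfl⟩ : ∃ e, d = e + 1 := ⟨d - 1, by omega⟩
    rw [Nat.add_sub_cancel]
    exact upperD hn
  · intro m d hm hd
    apply asymptotic l1_metric hm
    intro b h μ κ hb hh h1 h2 hκ hS
    have : Fact b.Prime := ⟨hb⟩
    exact lower2 hm hh hd h1 h2 hκ hS
  · intro m d hm hd
    apply asymptotic linf_metric hm
    intro b h μ κ hb hh h1 h2 hκ hS
    have : Fact b.Prime := ⟨hb⟩
    obtain ⟨e, rfl⟩ : ∃ e, d = e + 1 := ⟨d - 1, by omega⟩
    exact lowerInf hm hh (by omega) h1 h2 hκ hS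

end Pool.Agent.Results.MP_9b2a83_an.AllDims
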