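import Pool.Agent.Results.MP_9b2a83_an.AllDims

/-!
`MP_9b2a83_an`: upper bound `E_∞(n, 1, d) ≤ C_d n (log n)^(2 d - 2)`, and the collected results.
-/

namespace Pool.Agent.Results.MP_9b2a83_an.BothNorms

open Finset Pool.Agent.Helper666.SG Pool.Agent.Results.MP_9b2a83_an.LogLower
  Pool.Agent.Results.MP_9b2a83_an.AllDims

section Abstract

variable {P : Type} {δ : P → P → ℝ}

lemma splitF (φ : P → ℝ) (S : Finset P) : ∀ a : ℕ, a ≤ S.card → ∃ L ⊆ S,
    L.card = a ∧ ∃ μ : ℝ, (∀ p ∈ L, φ p ≤ μ) ∧ ∀ p ∈ S, p ∉ L → μ ≤ φ p := by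
  classical
  intro a
  induction a with
  | zero =>
    intro _
    refine ⟨∅, by simp, by simp, ?_⟩
    rcases S.eq_empty_or_nonempty with h | h
    · exact ⟨0, by simp, by simp [h]⟩
    · obtain ⟨p, _, hp⟩ := S.exists_min_image φ h
      exact ⟨φ p, by simp, fun q hq _ => hp q hq⟩
  | succ a ih =>
    intro ha
    obtain ⟨L, hL, hc, μ, h1, h2⟩ := ih (by omega)
    have hne : (S \ L).Nonempty := by
      rw [← card_pos, card_sdiff_of_subset hL]
      omega
    obtain ⟨p, hp, hmin⟩ := (S \ L).exists_min_image φ hne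
    have hpL : p ∉ L := (mem_sdiff.1 hp).2
    refine ⟨insert p L, ?_, ?_, φ p, ?_, ?_⟩
    · exact insert_subset (mem_sdiff.1 hp).1 hL
    · rw [card_insert_of_notMem hpL, hc]
    · intro q hq
      rw [mem_insert] at hq
      rcases hq with rfl | hq
      · exact le_rfl
      · exact (h1 q hq).trans (h2 p (mem_sdiff.1 hp).1 hpL)
    · intro q hq hq'
      rw [mem_insert, not_or] at hq'
      exact hmin q (mem_sdiff.2 ⟨hq, hq'.2⟩)

/-- Divide and conquer over a list of functionals. -/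
lemma recur (hδ : MetricLike δ) (K : ℕ) : ∀ (l l' : List (P → ℝ)),
    (∀ M A B : Finset P, A ⊆ M → B ⊆ M →
      (∀ φ : P → ℝ, φ ∈ l ∨ φ ∈ l' → ∀ a ∈ A, ∀ b ∈ B, φ a ≤ φ b) →
      ∃ E : Finset (Sym2 P), E.card ≤ K * M.card ∧
        ∀ a ∈ A, ∀ b ∈ B, Path δ (E : Set (Sym2 P)) a b (δ a b)) →
    ∀ (m : ℕ) (M A B : Finset P), M.card ≤ 2 ^ m → A ⊆ M → B ⊆ M →
      (∀ φ ∈ l', ∀ a ∈ A, ∀ b ∈ B, φ a ≤ φ b) →
      ∃ E : Finset (Sym2 P), E.card ≤ K * (m + 1) ^ l.length * M.card ∧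
        ∀ a ∈ A, ∀ b ∈ B, (∀ φ ∈ l, φ a ≤ φ b) → Path δ (E : Set (Sym2 P)) a b (δ a b) := by
  classical
  intro l
  induction l with
  | nil =>
    intro l' hgood m M A B _ hA hB hdom
    obtain ⟨E, h1, h2⟩ := hgood M A B hA hB (by
      intro φ hφ
      rcases hφ with hφ | hφ
      · simp at hφ
      · exact hdom φ hφ)
    exact ⟨E, by simpa using h1, fun a ha b hb _ => h2 a ha b hb⟩
  | cons ψ l ihl =>
    intro l' hgood
    have hgood' := ihl (ψ :: l') (by
      intro M A B hA hB hdom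
      apply hgood M A B hA hB
      intro φ hφ
      apply hdom φ
      simp only [List.mem_cons] at hφ ⊢
      tauto)
    intro m
    induction m with
    | zero =>
      intro M A B hM hA hB _
      refine ⟨∅, by simp, ?_⟩
      intro a ha b hb _
      have : a = b := card_le_one.1 (by simpa using hM) a (hA ha) b (hB hb)
      subst this
      exact (Path.nil a).cast (by rw [hδ.self])
    | succ m ih =>
      intro M A B hM hA hB hdom
      obtain ⟨L, hLM, hLc, μ, h1, h2⟩ := splitF ψ M (M.card / 2) (Nat.div_le_self _ _)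
      have hRc : (M \ L).card = M.card - M.card / 2 := by
        rw [card_sdiff_of_subset hLM, hLc]
      have hM' : M.card ≤ 2 ^ m * 2 := by rw [← pow_succ]; exact hM
      obtain ⟨E1, c1, p1⟩ := ih L (A ∩ L) (B ∩ L) (by omega) inter_subset_right
        inter_subset_right (fun φ hφ a ha b hb =>
          hdom φ hφ a (mem_inter.1 ha).1 b (mem_inter.1 hb).1)
      obtain ⟨E2, c2, p2⟩ := ih (M \ L) (A \ L) (B \ L) (by omega) (sdiff_subset_sdiff hA le_rfl)
        (sdiff_subset_sdiff hB le_rfl) (fun φ hφ a ha b hb =>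
          hdom φ hφ a (mem_sdiff.1 ha).1 b (mem_sdiff.1 hb).1)
      obtain ⟨E3, c3, p3⟩ := hgood' (m + 1) M (A.filter fun a => ψ a ≤ μ)
        (B.filter fun b => μ ≤ ψ b) hM ((filter_subset _ _).trans hA)
        ((filter_subset _ _).trans hB) (by
          intro φ hφ a ha b hb
          rw [mem_filter] at ha hb
          rcases List.mem_cons.1 hφ with hφ | hφ
          · rw [hφ]; exact ha.2.trans hb.2
          · exact hdom φ hφ a ha.1 b hb.1)
      refine ⟨E1 ∪ E2 ∪ E3, ?_, ?_⟩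
      · have u1 : (E1 ∪ E2 ∪ E3).card ≤ E1.card + E2.card + E3.card :=
          (card_union_le _ _).trans (Nat.add_le_add_right (card_union_le _ _) _)
        rw [List.length_cons] at c1 c2 ⊢
        have u2 : K * (m + 1) ^ (l.length + 1) * L.card
            + K * (m + 1) ^ (l.length + 1) * (M \ L).card
            = K * (m + 1) ^ (l.length + 1) * M.card := by
          rw [← mul_add]
          congr 1
          omega
        have u3 : (m + 1) ^ (l.length + 1) + (m + 1 + 1) ^ l.length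
            ≤ (m + 1 + 1) ^ (l.length + 1) := by
          have : (m + 1) ^ l.length ≤ (m + 1 + 1) ^ l.length :=
            Nat.pow_le_pow_left (by omega) _
          rw [pow_succ, pow_succ]
          nlinarith
        have u4 : K * ((m + 1) ^ (l.length + 1) + (m + 1 + 1) ^ l.length) * M.card
            ≤ K * (m + 1 + 1) ^ (l.length + 1) * M.card :=
          Nat.mul_le_mul_right _ (Nat.mul_le_mul_left _ u3)
        have u5 : K * ((m + 1) ^ (l.length + 1) + (m + 1 + 1) ^ l.length) * M.card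
            = K * (m + 1) ^ (l.length + 1) * M.card + K * (m + 1 + 1) ^ l.length * M.card := by
          ring
        omega
      · have s1 : (E1 : Set (Sym2 P)) ⊆ ((E1 ∪ E2 ∪ E3 : Finset _) : Set (Sym2 P)) := by
          intro x hx
          rw [mem_coe] at hx ⊢
          exact mem_union_left _ (mem_union_left _ hx)
        have s2 : (E2 : Set (Sym2 P)) ⊆ ((E1 ∪ E2 ∪ E3 : Finset _) : Set (Sym2 P)) := by
          intro x hx
          rw [mem_coe] at hx ⊢
          exact mem_union_left _ (mem_union_right _ hx)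
        have s3 : (E3 : Set (Sym2 P)) ⊆ ((E1 ∪ E2 ∪ E3 : Finset _) : Set (Sym2 P)) := by
          intro x hx
          rw [mem_coe] at hx ⊢
          exact mem_union_right _ hx
        intro a ha b hb hab
        have habψ : ψ a ≤ ψ b := hab ψ (by simp)
        by_cases haL : a ∈ L <;> by_cases hbL : b ∈ L
        · exact (p1 a (mem_inter.2 ⟨ha, haL⟩) b (mem_inter.2 ⟨hb, hbL⟩) hab).mono s1
        · refine (p3 a (mem_filter.2 ⟨ha, h1 a haL⟩) b
            (mem_filter.2 ⟨hb, h2 b (hB hb) hbL⟩) ?_).mono s3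
          exact fun φ hφ => hab φ (List.mem_cons_of_mem _ hφ)
        · have e1 := h2 a (hA ha) haL
          have e2 := h1 b hbL
          refine (p3 a (mem_filter.2 ⟨ha, by linarith⟩) b
            (mem_filter.2 ⟨hb, by linarith⟩) ?_).mono s3
          exact fun φ hφ => hab φ (List.mem_cons_of_mem _ hφ)
        · exact (p2 a (mem_sdiff.2 ⟨ha, haL⟩) b (mem_sdiff.2 ⟨hb, hbL⟩) hab).mono s2

end Abstract

section Linf

variable {e : ℕ}

lemma helly1 (S T : Finset ℝ) (h : ∀ s ∈ S, ∀ t ∈ T, s ≤ t) :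
    ∃ x, (∀ s ∈ S, s ≤ x) ∧ ∀ t ∈ T, x ≤ t := by
  rcases S.eq_empty_or_nonempty with hS | hS
  · rcases T.eq_empty_or_nonempty with hT | hT
    · exact ⟨0, by simp [hS], by simp [hT]⟩
    · exact ⟨T.min' hT, by simp [hS], fun t ht => T.min'_le t ht⟩
  · exact ⟨S.max' hS, fun s hs => S.le_max' s hs, fun t ht => h _ (S.max'_mem hS) t ht⟩

lemma linf_le {x y : Fin (e + 1) → ℝ} {r : ℝ} (hr : 0 ≤ r) (h : ∀ k, |x k - y k| ≤ r) :
    linf x y ≤ r := by
  simp only [linf]
  exact (pi_norm_le_iff_of_nonneg hr).2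
    (fun k => by rw [Pi.sub_apply, Real.norm_eq_abs]; exact h k)

lemma le_linf (x y : Fin (e + 1) → ℝ) (k : Fin (e + 1)) : |x k - y k| ≤ linf x y := by
  simp only [linf]
  have := norm_le_pi_norm (x - y) k
  rwa [Pi.sub_apply, Real.norm_eq_abs] at this

lemma linf_cone {i : Fin (e + 1)} {x y : Fin (e + 1) → ℝ} (h0 : x i ≤ y i)
    (h : ∀ k : Fin e, |x (i.succAbove k) - y (i.succAbove k)| ≤ y i - x i) :
    linf x y = y i - x i := by
  apply le_antisymm
  · apply linf_le (by linarith)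
    intro k
    rcases Fin.eq_self_or_eq_succAbove i k with hk | ⟨j, hj⟩
    · rw [hk, abs_of_nonpos (by linarith)]; linarith
    · rw [hj]; exact h j
  · have := le_linf x y i
    rw [abs_of_nonpos (by linarith)] at this
    linarith

/-- Two finite sets, the second above the first in the cone of coordinate `i`. -/
lemma biclique (he : 1 ≤ e) (i : Fin (e + 1)) (M A B : Finset (Fin (e + 1) → ℝ))
    (hA : A ⊆ M) (hB : B ⊆ M)
    (h1 : ∀ k : Fin e, ∀ a ∈ A, ∀ b ∈ B, a i + a (i.succAbove k) ≤ b i + b (i.succAbove k))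
    (h2 : ∀ k : Fin e, ∀ a ∈ A, ∀ b ∈ B, a i - a (i.succAbove k) ≤ b i - b (i.succAbove k)) :
    ∃ E : Finset (Sym2 (Fin (e + 1) → ℝ)), E.card ≤ 2 ^ (e + 1) * M.card ∧
      ∀ a ∈ A, ∀ b ∈ B, Path linf (E : Set (Sym2 (Fin (e + 1) → ℝ))) a b (linf a b) := by
  classical
  rcases A.eq_empty_or_nonempty with hA0 | hA0
  · exact ⟨∅, by simp, by simp [hA0]⟩
  rcases B.eq_empty_or_nonempty with hB0 | hB0
  · exact ⟨∅, by simp, by simp [hB0]⟩
  obtain ⟨a0, ha0, hamax⟩ := A.exists_max_image (fun a => a i) hA0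
  obtain ⟨b0, hb0, hbmin⟩ := B.exists_min_image (fun b => b i) hB0
  obtain ⟨σ, hσ⟩ : ∃ σ : (Fin (e + 1) → ℝ) → Fin e → Bool, σ = fun a k =>
    decide (b0 (i.succAbove k) + a0 i ≤ a i + a (i.succAbove k)) := ⟨_, rfl⟩
  obtain ⟨τ, hτ⟩ : ∃ τ : (Fin (e + 1) → ℝ) → Fin e → Bool, τ = fun b k =>
    decide (a0 (i.succAbove k) + b0 i ≤ b i + b (i.succAbove k)) := ⟨_, rfl⟩
  have clsA : ∀ a ∈ A, ∀ a' ∈ A, σ a = σ a' → ∀ k : Fin e,
      (a i + a (i.succAbove k)) + (a' i - a' (i.succAbove k)) ≤ a0 i + b0 i := by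
    intro a ha a' ha' haa k
    have e1 := congrFun haa k
    rw [hσ] at e1
    have e2 := h1 k a ha b0 hb0
    have e3 := h2 k a' ha' b0 hb0
    have e4 := hamax a' ha'
    have e5 := hamax a ha
    simp only [decide_eq_decide] at e1
    by_cases hc : b0 (i.succAbove k) + a0 i ≤ a' i + a' (i.succAbove k)
    · linarith
    · have hc' := lt_of_not_ge (fun h => hc (e1.1 h))
      linarith
  have clsB : ∀ b ∈ B, ∀ b' ∈ B, τ b = τ b' → ∀ k : Fin e,
      a0 i + b0 i ≤ (b i + b (i.succAbove k)) + (b' i - b' (i.succAbove k)) := by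
    intro b hb b' hb' hbb k
    have e1 := congrFun hbb k
    rw [hτ] at e1
    have e2 := h1 k a0 ha0 b hb
    have e3 := h2 k a0 ha0 b' hb'
    have e4 := hbmin b' hb'
    have e5 := hbmin b hb
    simp only [decide_eq_decide] at e1
    by_cases hc : a0 (i.succAbove k) + b0 i ≤ b' i + b' (i.succAbove k)
    · have := e1.2 hc
      linarith
    · rw [not_le] at hc
      linarith
  obtain ⟨c, hc⟩ : ∃ c : ℝ, c = (a0 i + b0 i) / 2 := ⟨_, rfl⟩
  have key : ∀ s t : Fin e → Bool, ∀ k : Fin e, ∃ x : ℝ,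
      (∀ a ∈ A, σ a = s → a i + a (i.succAbove k) - c ≤ x ∧ x ≤ c - (a i - a (i.succAbove k))) ∧
      (∀ b ∈ B, τ b = t → c - (b i - b (i.succAbove k)) ≤ x ∧
        x ≤ b i + b (i.succAbove k) - c) := by
    intro s t k
    obtain ⟨x, hx1, hx2⟩ := helly1
      ((A.filter fun a => σ a = s).image (fun a => a i + a (i.succAbove k) - c) ∪
        (B.filter fun b => τ b = t).image (fun b => c - (b i - b (i.succAbove k))))
      ((A.filter fun a => σ a = s).image (fun a => c - (a i - a (i.succAbove k))) ∪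
        (B.filter fun b => τ b = t).image (fun b => b i + b (i.succAbove k) - c)) (by
        intro u hu v hv
        simp only [mem_union, mem_image, mem_filter] at hu hv
        rcases hu with ⟨a, ⟨ha, has⟩, rfl⟩ | ⟨b, ⟨hb, hbt⟩, rfl⟩ <;>
          rcases hv with ⟨a', ⟨ha', has'⟩, rfl⟩ | ⟨b', ⟨hb', hbt'⟩, rfl⟩
        · have := clsA a ha a' ha' (has.trans has'.symm) k
          linarith
        · have := h1 k a ha b' hb'
          linarith
        · have := h2 k a' ha' b hb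
          linarith
        · have := clsB b' hb' b hb (hbt'.trans hbt.symm) k
          linarith)
    refine ⟨x, ?_, ?_⟩
    · intro a ha has
      constructor
      · apply hx1
        exact mem_union_left _ (mem_image.2 ⟨a, mem_filter.2 ⟨ha, has⟩, rfl⟩)
      · apply hx2
        exact mem_union_left _ (mem_image.2 ⟨a, mem_filter.2 ⟨ha, has⟩, rfl⟩)
    · intro b hb hbt
      constructor
      · apply hx1
        exact mem_union_right _ (mem_image.2 ⟨b, mem_filter.2 ⟨hb, hbt⟩, rfl⟩)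
      · apply hx2
        exact mem_union_right _ (mem_image.2 ⟨b, mem_filter.2 ⟨hb, hbt⟩, rfl⟩)
  choose X hXA hXB using key
  obtain ⟨S, hS⟩ : ∃ S : (Fin e → Bool) → (Fin e → Bool) → (Fin (e + 1) → ℝ),
    S = fun s t => i.insertNth c (X s t) := ⟨_, rfl⟩
  have hS1 : ∀ s t, S s t i = c := by intro s t; rw [hS]; simp
  have hS2 : ∀ s t k, S s t (i.succAbove k) = X s t k := by intro s t k; rw [hS]; simp
  obtain ⟨E1, hE1⟩ : ∃ E1 : Finset (Sym2 (Fin (e + 1) → ℝ)), E1 =
    (A ×ˢ (univ : Finset (Fin e → Bool))).image (fun p => s(p.1, S (σ p.1) p.2)) := ⟨_, rfl⟩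
  obtain ⟨E2, hE2⟩ : ∃ E2 : Finset (Sym2 (Fin (e + 1) → ℝ)), E2 =
    (B ×ˢ (univ : Finset (Fin e → Bool))).image (fun p => s(S p.2 (τ p.1), p.1)) := ⟨_, rfl⟩
  have hu : (univ : Finset (Fin e → Bool)).card = 2 ^ e := by simp
  refine ⟨E1 ∪ E2, ?_, ?_⟩
  · have c1 : E1.card ≤ M.card * 2 ^ e := by
      rw [hE1]
      refine card_image_le.trans ?_
      rw [card_product, hu]
      exact Nat.mul_le_mul_right _ (card_le_card hA)
    have c2 : E2.card ≤ M.card * 2 ^ e := by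
      rw [hE2]
      refine card_image_le.trans ?_
      rw [card_product, hu]
      exact Nat.mul_le_mul_right _ (card_le_card hB)
    refine (card_union_le _ _).trans ?_
    calc E1.card + E2.card ≤ M.card * 2 ^ e + M.card * 2 ^ e := Nat.add_le_add c1 c2
      _ = 2 ^ (e + 1) * M.card := by ring
  · intro a ha b hb
    have q1 : Path linf ((E1 ∪ E2 : Finset _) : Set (Sym2 (Fin (e + 1) → ℝ))) a
        (S (σ a) (τ b)) (linf a (S (σ a) (τ b))) := by
      apply Path.single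
      rw [mem_coe]
      apply mem_union_left
      rw [hE1]
      exact mem_image.2 ⟨(a, τ b), mem_product.2 ⟨ha, mem_univ _⟩, rfl⟩
    have q2 : Path linf ((E1 ∪ E2 : Finset _) : Set (Sym2 (Fin (e + 1) → ℝ)))
        (S (σ a) (τ b)) b (linf (S (σ a) (τ b)) b) := by
      apply Path.single
      rw [mem_coe]
      apply mem_union_right
      rw [hE2]
      exact mem_image.2 ⟨(b, σ a), mem_product.2 ⟨hb, mem_univ _⟩, rfl⟩
    have g1 := clsA a ha a ha rfl ⟨0, he⟩
    have g2 := clsB b hb b hb rfl ⟨0, he⟩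
    have r1 : linf a (S (σ a) (τ b)) = c - a i := by
      rw [← hS1 (σ a) (τ b)]
      apply linf_cone
      · rw [hS1]; linarith
      · intro k
        rw [hS1, hS2, abs_le]
        have := hXA (σ a) (τ b) k a ha rfl
        constructor <;> linarith [this.1, this.2]
    have r2 : linf (S (σ a) (τ b)) b = b i - c := by
      rw [← hS1 (σ a) (τ b)]
      apply linf_cone
      · rw [hS1]; linarith
      · intro k
        rw [hS1, hS2, abs_le]
        have := hXB (σ a) (τ b) k b hb rfl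
        constructor <;> linarith [this.1, this.2]
    have r3 : linf a b = b i - a i := by
      apply linf_cone
      · linarith
      · intro k
        have s1 := h1 k a ha b hb
        have s2 := h2 k a ha b hb
        rw [abs_le]
        constructor <;> linarith
    exact (q1.append q2).cast (by rw [r1, r2, r3]; ring)

lemma netInf (he : 1 ≤ e) (m : ℕ) (M : Finset (Fin (e + 1) → ℝ)) (hM : M.card ≤ 2 ^ m) :
    ∃ E : Finset (Sym2 (Fin (e + 1) → ℝ)),
      E.card ≤ (e + 1) * (2 ^ (e + 1) * (m + 1) ^ (2 * e) * M.card) ∧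
      ∀ p ∈ M, ∀ q ∈ M, Path linf (E : Set (Sym2 (Fin (e + 1) → ℝ))) p q (linf p q) := by
  classical
  have step : ∀ i : Fin (e + 1), ∃ E : Finset (Sym2 (Fin (e + 1) → ℝ)),
      E.card ≤ 2 ^ (e + 1) * (m + 1) ^ (2 * e) * M.card ∧
      ∀ a ∈ M, ∀ b ∈ M, (∀ k, |a k - b k| ≤ b i - a i) →
        Path linf (E : Set (Sym2 (Fin (e + 1) → ℝ))) a b (linf a b) := by
    intro i
    obtain ⟨E, h1, h2⟩ := recur (linf_metric (d := e + 1)) (2 ^ (e + 1))
      ((List.finRange e).map (fun k (x : Fin (e + 1) → ℝ) => x i + x (i.succAbove k)) ++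
        (List.finRange e).map (fun k (x : Fin (e + 1) → ℝ) => x i - x (i.succAbove k))) [] (by
        intro M A B hA hB hdom
        apply biclique he i M A B hA hB
        · intro k a ha b hb
          exact hdom (fun x => x i + x (i.succAbove k)) (Or.inl (List.mem_append.2
            (Or.inl (List.mem_map.2 ⟨k, List.mem_finRange k, rfl⟩)))) a ha b hb
        · intro k a ha b hb
          exact hdom (fun x => x i - x (i.succAbove k)) (Or.inl (List.mem_append.2
            (Or.inr (List.mem_map.2 ⟨k, List.mem_finRange k, rfl⟩)))) a ha b hb)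
      m M M M hM subset_rfl subset_rfl (by simp)
    refine ⟨E, ?_, ?_⟩
    · rw [List.length_append, List.length_map, List.length_map, List.length_finRange] at h1
      rwa [two_mul]
    · intro a ha b hb hab
      apply h2 a ha b hb
      intro φ hφ
      rw [List.mem_append, List.mem_map, List.mem_map] at hφ
      rcases hφ with ⟨k, _, rfl⟩ | ⟨k, _, rfl⟩
      · have := abs_le.1 (hab (i.succAbove k))
        have t1 := this.1
        have t2 := this.2
        show a i + a (i.succAbove k) ≤ b i + b (i.succAbove k)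
        linarith
      · have := abs_le.1 (hab (i.succAbove k))
        have t1 := this.1
        have t2 := this.2
        show a i - a (i.succAbove k) ≤ b i - b (i.succAbove k)
        linarith
  choose F hF1 hF2 using step
  refine ⟨univ.biUnion F, ?_, ?_⟩
  · refine card_biUnion_le.trans ?_
    refine (sum_le_sum fun i _ => hF1 i).trans ?_
    simp
  · intro p hp q hq
    obtain ⟨i, hi⟩ : ∃ i : Fin (e + 1), ∀ k, |p k - q k| ≤ |p i - q i| :=
      Finite.exists_max (fun k => |p k - q k|)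
    have sub : (F i : Set (Sym2 (Fin (e + 1) → ℝ))) ⊆
        ((univ.biUnion F : Finset _) : Set (Sym2 (Fin (e + 1) → ℝ))) := by
      intro x hx
      rw [mem_coe] at hx ⊢
      exact mem_biUnion.2 ⟨i, mem_univ _, hx⟩
    rcases le_total (p i) (q i) with h | h
    · refine (hF2 i p hp q hq ?_).mono sub
      intro k
      have := hi k
      rw [abs_of_nonpos (by linarith : p i - q i ≤ 0)] at this
      linarith
    · refine (((hF2 i q hq p hp ?_).mono sub).symm linf_metric).cast (linf_metric.symm _ _)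
      intro k
      have := hi k
      rw [abs_of_nonneg (by linarith : 0 ≤ p i - q i)] at this
      rw [abs_sub_comm]
      linarith

lemma upperInf (he : 1 ≤ e) {n : ℕ} (hn : 2 ≤ n) :
    minEdges (linf (d := e + 1)) n 1
      ≤ (e + 1) * 2 ^ (e + 1) * 9 ^ e * (n * (Nat.log 2 n) ^ (2 * e)) := by
  classical
  apply Nat.sInf_le
  intro M hM
  obtain ⟨k, hk⟩ : ∃ k, k = Nat.log 2 n := ⟨_, rfl⟩
  have h2 : n < 2 ^ (k + 1) := by rw [hk]; exact Nat.lt_pow_succ_log_self (by norm_num) n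
  have hkpos : 0 < k := by rw [hk]; exact Nat.log_pos (by norm_num) hn
  obtain ⟨E, hE, hP⟩ := netInf he (k + 1) M (by omega)
  have hne : M.Nonempty := card_pos.1 (by omega)
  obtain ⟨V, hV, G, w, g1, g2, g3, g4⟩ := graph_of_net linf_metric _ hne E hP
  refine ⟨V, hV, G, w, g1, g2, ?_, g4⟩
  refine g3.trans (hE.trans ?_)
  rw [hM, ← hk]
  have h3 : (k + 1 + 1) ^ (2 * e) ≤ 9 ^ e * k ^ (2 * e) := by
    have : (9 : ℕ) ^ e = 3 ^ (2 * e) := by rw [pow_mul]; norm_num
    rw [this, ← mul_pow]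
    exact Nat.pow_le_pow_left (by omega) _
  calc (e + 1) * (2 ^ (e + 1) * (k + 1 + 1) ^ (2 * e) * n)
      ≤ (e + 1) * (2 ^ (e + 1) * (9 ^ e * k ^ (2 * e)) * n) := by gcongr
    _ = (e + 1) * 2 ^ (e + 1) * 9 ^ e * (n * k ^ (2 * e)) := by ring

end Linf

/-- Let `E_p(n, c, d)` be `minEdges ρ n c` for `ρ` the distance of `ℓ_p^d`, `p = 1` or `∞`.
(1) `n ⌊log₂ n⌋ / 4 ≤ E_p(n, 1, 2) ≤ 4 n ⌊log₂ n⌋`.
(2) `E_1(n, 1, d) ≤ d 3^(d-1) n ⌊log₂ n⌋^(d-1)` and
`E_∞(n, 1, d) ≤ d 2^d 9^(d-1) n ⌊log₂ n⌋^(2 (d-1))`.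
(3) For `m ≥ 1` and `p = 1`, `d ≥ 2 (m + 1)`, or `p = ∞`, `d ≥ 2 m + 3`, there are `C > 0` and
infinitely many `n` with `E_p(n, c, d) ≥ C n (log n / log log n)^m` for
`1 ≤ c ≤ 1 + 1/(4 (m+1) n)`.
(4) For `d ≥ 2`: `E_p(n, c, d) ≥ n ⌊log₂ n⌋ / 4` if `1 ≤ c ≤ 1 + 1/(16 n)`, and
`sup_n E_p(n, c, d)/n ≥ log₂ (1/(c-1)) / 12` if `c > 1`. -/
theorem result :
    (∀ ρ : (Fin 2 → ℝ) → (Fin 2 → ℝ) → ℝ, (ρ = l1 ∨ ρ = linf) → ∀ n : ℕ, 2 ≤ n →
      n * Nat.log 2 n ≤ 4 * minEdges ρ n 1 ∧ minEdges ρ n 1 ≤ 4 * (n * Nat.log 2 n)) ∧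
    (∀ d : ℕ, 1 ≤ d → ∀ n : ℕ, 2 ≤ n →
      minEdges (l1 (d := d)) n 1 ≤ d * 3 ^ (d - 1) * (n * (Nat.log 2 n) ^ (d - 1))) ∧
    (∀ d : ℕ, 2 ≤ d → ∀ n : ℕ, 2 ≤ n →
      minEdges (linf (d := d)) n 1
        ≤ d * 2 ^ d * 9 ^ (d - 1) * (n * (Nat.log 2 n) ^ (2 * (d - 1)))) ∧
    (∀ m d : ℕ, 1 ≤ m → 2 * (m + 1) ≤ d → ∃ C : ℝ, 0 < C ∧ ∀ N : ℕ, ∃ n : ℕ, N ≤ n ∧
      ∀ c : ℝ, 1 ≤ c → c ≤ 1 + 1 / (4 * (m + 1) * n) →
      C * n * (Real.logb 2 n / Real.logb 2 (Real.logb 2 n)) ^ m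
        ≤ minEdges (l1 (d := d)) n c) ∧
    (∀ m d : ℕ, 1 ≤ m → 2 * m + 3 ≤ d → ∃ C : ℝ, 0 < C ∧ ∀ N : ℕ, ∃ n : ℕ, N ≤ n ∧
      ∀ c : ℝ, 1 ≤ c → c ≤ 1 + 1 / (4 * (m + 1) * n) →
      C * n * (Real.logb 2 n / Real.logb 2 (Real.logb 2 n)) ^ m
        ≤ minEdges (linf (d := d)) n c) ∧
    (∀ d : ℕ, 2 ≤ d → ∀ ρ : (Fin d → ℝ) → (Fin d → ℝ) → ℝ, (ρ = l1 ∨ ρ = linf) →
      (∀ n : ℕ, 2 ≤ n → ∀ c : ℝ, 1 ≤ c → c ≤ 1 + 1 / (16 * n) →
        n * Nat.log 2 n ≤ 4 * minEdges ρ n c) ∧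
      (∀ c : ℝ, 1 < c → ∃ n : ℕ, 2 ≤ n ∧
        n * (Real.logb 2 (1 / (c - 1)) / 12) ≤ minEdges ρ n c)) := by
  refine ⟨AllDims.result.1, AllDims.result.2.2.1, ?_, AllDims.result.2.2.2.1,
    AllDims.result.2.2.2.2, AllDims.result.2.1⟩
  intro d hd n hn
  obtain ⟨e, rfl⟩ : ∃ e, d = e + 1 := ⟨d - 1, by omega⟩
  rw [Nat.add_sub_cancel]
  exact upperInf (by omega) hn

end Pool.Agent.Results.MP_9b2a83_an.BothNorms
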