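import Pool.Agent.Results.MP_9b2a83_an.BothNorms

/-!
`MP_9b2a83_an`, question Q1: `C_p(c, d)` lies between powers of `log (1/(c-1))`.
-/

namespace Pool.Agent.Results.MP_9b2a83_an.Polylog

open Finset Pool.Agent.Helper666.SG Pool.Agent.Results.MP_9b2a83_an.LogLower
  Pool.Agent.Results.MP_9b2a83_an.AllDims Pool.Agent.Results.MP_9b2a83_an.BothNorms

section Abstract

variable {P : Type} {δ : P → P → ℝ}

lemma graph_of_net' (hδ : MetricLike δ) (c : ℝ) (M : Finset P) (hM : M.Nonempty)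
    (E : Finset (Sym2 P))
    (hE : ∀ p ∈ M, ∀ q ∈ M, ∃ L, Path δ (E : Set (Sym2 P)) p q L ∧ L ≤ c * δ p q) :
    ∃ (V : Type) (_ : Finite V) (G : SimpleGraph V) (w : Sym2 V → ℝ), G.Connected ∧
      (∀ e ∈ G.edgeSet, 0 < w e) ∧ G.edgeSet.ncard ≤ E.card ∧ EmbedsWith δ M c G w := by
  classical
  obtain ⟨p0, hp0⟩ := hM
  have h0 : p0 ∈ Reach δ E p0 := ⟨0, Path.nil p0⟩
  have hfin : Finite (Reach δ E p0) := (reach_finite E p0).to_subtype
  have hconn : (netGraph δ E p0).Connected := by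
    rw [SimpleGraph.connected_iff_exists_forall_reachable]
    refine ⟨⟨p0, h0⟩, ?_⟩
    rintro ⟨v, L, hL⟩
    obtain ⟨_, p, _⟩ := toWalk hδ E p0 hL h0
    exact ⟨p⟩
  have hpos : ∀ e ∈ (netGraph δ E p0).edgeSet, 0 < netWeight hδ E p0 e := by
    intro e
    induction e with
    | _ a b =>
      intro h
      have h' : a ≠ b ∧ s((a : P), (b : P)) ∈ E := h
      exact hδ.pos _ _ (fun hh => h'.1 (Subtype.ext hh))
  have hcard : (netGraph δ E p0).edgeSet.ncard ≤ E.card := by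
    rw [← Set.ncard_coe_finset]
    apply Set.ncard_le_ncard_of_injOn (Sym2.map Subtype.val)
    · intro e
      induction e with
      | _ a b =>
        intro h
        have h' : a ≠ b ∧ s((a : P), (b : P)) ∈ E := h
        exact h'.2
    · exact (Sym2.map.injective Subtype.val_injective).injOn
  refine ⟨Reach δ E p0, hfin, netGraph δ E p0, netWeight hδ E p0, hconn, hpos, hcard, ?_⟩
  have hin : ∀ x ∈ M, x ∈ Reach δ E p0 := fun x hx => by
    obtain ⟨L, hL, _⟩ := hE p0 hp0 x hx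
    exact ⟨L, hL⟩
  refine ⟨fun x => if h : x ∈ M then ⟨x, hin x h⟩ else ⟨p0, h0⟩, 1, one_pos, ?_⟩
  intro x hx y hy
  simp only [hx, hy, dite_true, one_mul, mul_one]
  have : Nonempty ((netGraph δ E p0).Walk ⟨x, hin x hx⟩ ⟨y, hin y hy⟩) :=
    hconn.preconnected _ _
  constructor
  · apply le_ciInf
    intro p
    have h1 := lip_walk (w := netWeight hδ E p0) (F := fun v : Reach δ E p0 => δ x v)
      (by
        intro a b _
        have h2 := hδ.tri x a b
        have h3 : netWeight hδ E p0 s(a, b) = δ a b := rfl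
        rw [h3]
        linarith) p
    simp only [hδ.self, sub_zero] at h1
    exact h1
  · obtain ⟨L, hL, hLc⟩ := hE x hx y hy
    obtain ⟨_, p, hp⟩ := toWalk hδ E p0 hL (hin x hx)
    refine le_trans ?_ hLc
    rw [← hp]
    exact gdist_le hpos p

lemma tele (a : ℕ → ℤ) (s : ℕ) : ∀ I, ∑ j ∈ range I, (a j - a (j + s))
    + ∑ j ∈ range s, a (I + j) = ∑ j ∈ range s, a j := by
  intro I
  induction I with
  | zero => simp
  | succ I ih =>
    have h1 : ∑ j ∈ range (s + 1), a (I + j) = ∑ j ∈ range s, a (I + j) + a (I + s) :=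
      sum_range_succ _ _
    have h2 : ∑ j ∈ range (s + 1), a (I + j) = ∑ j ∈ range s, a (I + 1 + j) + a I := by
      rw [sum_range_succ']
      congr 1
      apply sum_congr rfl
      intro j _
      congr 1
      ring
    rw [sum_range_succ]
    linarith

/-- A separated subset that is dense. -/
lemma exists_net (hδ : MetricLike δ) (N : Finset P) (r : ℝ) :
    ∃ N' ⊆ N, (∀ p ∈ N', ∀ q ∈ N', p ≠ q → r < δ p q) ∧ ∀ p ∈ N, ∃ q ∈ N', δ p q ≤ max r 0 := by
  classical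
  induction N using Finset.induction_on with
  | empty => exact ⟨∅, by simp, by simp, by simp⟩
  | insert a N ha ih =>
    obtain ⟨N', h1, h2, h3⟩ := ih
    by_cases h : ∃ q ∈ N', δ a q ≤ max r 0
    · refine ⟨N', h1.trans (subset_insert _ _), h2, ?_⟩
      intro p hp
      rcases mem_insert.1 hp with rfl | hp
      · exact h
      · exact h3 p hp
    · push Not at h
      refine ⟨insert a N', insert_subset_insert _ h1, ?_, ?_⟩
      · intro p hp q hq hpq
        rcases mem_insert.1 hp with hp' | hp' <;> rcases mem_insert.1 hq with hq' | hq'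
        · exact absurd (hp'.trans hq'.symm) hpq
        · rw [hp']; exact (le_max_left _ _).trans_lt (h q hq')
        · rw [hq', hδ.symm]; exact (le_max_left _ _).trans_lt (h p hp')
        · exact h2 p hp' q hq' hpq
      · intro p hp
        rcases mem_insert.1 hp with hp' | hp'
        · exact ⟨a, mem_insert_self _ _, by rw [hp', hδ.self]; exact le_max_right _ _⟩
        · obtain ⟨q, hq, hq'⟩ := h3 p hp'
          exact ⟨q, mem_insert_of_mem hq, hq'⟩

/-- Nested nets at the scales `2^j r`. -/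
lemma nets (hδ : MetricLike δ) (M : Finset P) {r : ℝ} (hr : 0 < r)
    (hsep : ∀ p ∈ M, ∀ q ∈ M, p ≠ q → r < δ p q) :
    ∃ N : ℕ → Finset P, N 0 = M ∧ (∀ j, N (j + 1) ⊆ N j) ∧
      (∀ j, ∀ p ∈ N j, ∀ q ∈ N j, p ≠ q → 2 ^ j * r < δ p q) ∧
      ∀ j, ∀ p ∈ N j, ∃ q ∈ N (j + 1), δ p q ≤ 2 ^ (j + 1) * r := by
  classical
  choose f hf1 hf2 hf3 using fun (N : Finset P) (r : ℝ) => exists_net hδ N r
  obtain ⟨N, hN⟩ : ∃ N : ℕ → Finset P, N = fun j =>
    Nat.rec M (fun j S => f S (2 ^ (j + 1) * r)) j := ⟨_, rfl⟩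
  have h0 : N 0 = M := by rw [hN]; rfl
  have hs : ∀ j, N (j + 1) = f (N j) (2 ^ (j + 1) * r) := by intro j; rw [hN]
  refine ⟨N, h0, ?_, ?_, ?_⟩
  · intro j; rw [hs]; exact hf1 _ _
  · intro j
    cases j with
    | zero => rw [h0]; simpa using hsep
    | succ j => rw [hs]; exact hf2 _ _
  · intro j p hp
    rw [hs]
    obtain ⟨q, hq, hq'⟩ := hf3 (N j) (2 ^ (j + 1) * r) p hp
    refine ⟨q, hq, hq'.trans ?_⟩
    rw [max_eq_left (by positivity)]

lemma sub_nets {N : ℕ → Finset P} (h : ∀ j, N (j + 1) ⊆ N j) (i s : ℕ) : N (i + s) ⊆ N i := by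
  induction s with
  | zero => simp
  | succ s ih => exact (h (i + s)).trans ih

/-- The number of points with a close neighbour. -/
lemma active_card [DecidableEq P] (hδ : MetricLike δ) {A B : Finset P} {t : ℝ}
    (hB : ∀ p ∈ B, ∀ q ∈ B, p ≠ q → 2 * t < δ p q) (ht : 0 ≤ t)
    (C : Finset P) (hC : C ⊆ A) (hC2 : ∀ p ∈ C, ∃ q ∈ A, q ≠ p ∧ δ p q ≤ t) :
    C.card ≤ 2 * (A \ B).card := by
  classical
  choose! g hg1 hg2 hg3 using hC2
  have h1 : (C ∩ B).card ≤ (A \ B).card := by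
    apply card_le_card_of_injOn g
    · intro p hp
      have hp' := mem_inter.1 (mem_coe.1 hp)
      rw [mem_coe, mem_sdiff]
      refine ⟨hg1 p hp'.1, fun hh => ?_⟩
      have h2 := hB p hp'.2 (g p) hh (Ne.symm (hg2 p hp'.1))
      have h3 := hg3 p hp'.1
      linarith
    · intro p hp q hq hpq
      have hp' := mem_inter.1 (mem_coe.1 hp)
      have hq' := mem_inter.1 (mem_coe.1 hq)
      by_contra hne
      have h2 := hB p hp'.2 q hq'.2 hne
      have h3 := hg3 p hp'.1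
      have h4 := hg3 q hq'.1
      have hpq' : g p = g q := hpq
      have h5 := hδ.tri p (g p) q
      rw [hδ.symm (g p) q, hpq'] at h5
      rw [hpq'] at h3
      linarith
  have h2 : (C \ B).card ≤ (A \ B).card := card_le_card (sdiff_subset_sdiff hC le_rfl)
  have h3 : (C \ B).card + (C ∩ B).card = C.card := card_sdiff_add_card_inter C B
  omega

/-- Local exact networks at all scales glue to a sparse network of stretch `1 + 20/2^k`. -/
lemma glue (hδ : MetricLike δ) (k κ : ℕ) (hk : 5 ≤ k)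
    (hloc : ∀ r : ℝ, 0 < r → ∀ A : Finset P, (∀ p ∈ A, ∀ q ∈ A, p ≠ q → r < δ p q) →
      ∃ E : Finset (Sym2 P), E.card ≤ κ * A.card ∧
        ∀ p ∈ A, ∀ q ∈ A, δ p q ≤ 2 ^ k * r → Path δ (E : Set (Sym2 P)) p q (δ p q))
    (M : Finset P) :
    ∃ E : Finset (Sym2 P), E.card ≤ (1 + 2 * (k + 1) * κ) * M.card ∧
      ∀ p ∈ M, ∀ q ∈ M, ∃ L, Path δ (E : Set (Sym2 P)) p q L ∧
        L ≤ (1 + 20 / 2 ^ k) * δ p q := by
  classical
  have hnn : ∀ x y, 0 ≤ δ x y := by
    intro x y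
    by_cases hxy : x = y
    · rw [hxy, hδ.self]
    · exact (hδ.pos x y hxy).le
  obtain ⟨r, hr, hsep⟩ : ∃ r : ℝ, 0 < r ∧ ∀ p ∈ M, ∀ q ∈ M, p ≠ q → r < δ p q := by
    rcases M.offDiag.eq_empty_or_nonempty with h | h
    · refine ⟨1, one_pos, ?_⟩
      intro p hp q hq hpq
      have : (p, q) ∈ M.offDiag := mem_offDiag.2 ⟨hp, hq, hpq⟩
      rw [h] at this
      simp at this
    · obtain ⟨z, hz, hmin⟩ := M.offDiag.exists_min_image (fun z => δ z.1 z.2) h
      have hz' := mem_offDiag.1 hz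
      have hpos := hδ.pos z.1 z.2 hz'.2.2
      refine ⟨δ z.1 z.2 / 2, by linarith, ?_⟩
      intro p hp q hq hpq
      have := hmin (p, q) (mem_offDiag.2 ⟨hp, hq, hpq⟩)
      simp only at this
      linarith
  obtain ⟨N, N0, N1, N2, N3⟩ := nets hδ M hr hsep
  obtain ⟨I, hI⟩ : ∃ I : ℕ, ∀ p ∈ M, ∀ q ∈ M, δ p q ≤ 2 ^ I * r := by
    obtain ⟨I, hI⟩ := pow_unbounded_of_one_lt ((∑ z ∈ M ×ˢ M, δ z.1 z.2) / r)
      (one_lt_two (α := ℝ))
    refine ⟨I, ?_⟩
    intro p hp q hq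
    have h1 : δ p q ≤ ∑ z ∈ M ×ˢ M, δ z.1 z.2 :=
      single_le_sum (f := fun z : P × P => δ z.1 z.2) (fun z _ => hnn _ _)
        (mem_product.2 ⟨hp, hq⟩ : (p, q) ∈ M ×ˢ M)
    rw [div_lt_iff₀ hr] at hI
    linarith
  choose! π hπ1 hπ2 using N3
  obtain ⟨A, hA⟩ : ∃ A : ℕ → Finset P, A = fun j => (N j).filter fun p =>
    ∃ q ∈ N j, q ≠ p ∧ δ p q ≤ 2 ^ k * (2 ^ j * r) := ⟨_, rfl⟩
  have hAN : ∀ j, A j ⊆ N j := by intro j; rw [hA]; exact filter_subset _ _
  have hloc' : ∀ j, ∃ E : Finset (Sym2 P), E.card ≤ κ * (A j).card ∧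
      ∀ p ∈ A j, ∀ q ∈ A j, δ p q ≤ 2 ^ k * (2 ^ j * r) →
        Path δ (E : Set (Sym2 P)) p q (δ p q) := by
    intro j
    exact hloc (2 ^ j * r) (by positivity) (A j)
      (fun p hp q hq hpq => N2 j p (hAN j hp) q (hAN j hq) hpq)
  choose F hF1 hF2 using hloc'
  obtain ⟨T, hT⟩ : ∃ T : ℕ → Finset (Sym2 P), T = fun j =>
    (N j \ N (j + 1)).image (fun p => s(p, π j p)) := ⟨_, rfl⟩
  obtain ⟨E, hE⟩ : ∃ E : Finset (Sym2 P), E = (range I).biUnion (fun j => T j ∪ F j) := ⟨_, rfl⟩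
  have subT : ∀ j < I, (T j : Set (Sym2 P)) ⊆ (E : Set (Sym2 P)) := by
    intro j hj x hx
    rw [mem_coe] at hx ⊢
    rw [hE]
    exact mem_biUnion.2 ⟨j, mem_range.2 hj, mem_union_left _ hx⟩
  have subF : ∀ j < I, (F j : Set (Sym2 P)) ⊆ (E : Set (Sym2 P)) := by
    intro j hj x hx
    rw [mem_coe] at hx ⊢
    rw [hE]
    exact mem_biUnion.2 ⟨j, mem_range.2 hj, mem_union_right _ hx⟩
  have hη0 : (0 : ℝ) < 20 / 2 ^ k := by positivity
  have hη1 : (20 : ℝ) / 2 ^ k ≤ 1 := by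
    rw [div_le_one (by positivity)]
    calc (20 : ℝ) ≤ 2 ^ 5 := by norm_num
      _ ≤ 2 ^ k := pow_le_pow_right₀ (by norm_num) hk
  refine ⟨E, ?_, ?_⟩
  · have c1 : (E.card : ℤ) ≤ ∑ j ∈ range I, (((N j).card : ℤ) - (N (j + 1)).card) +
        ∑ j ∈ range I, (κ : ℤ) * (2 * (((N j).card : ℤ) - (N (j + (k + 1))).card)) := by
      rw [← sum_add_distrib]
      have : E.card ≤ ∑ j ∈ range I, (T j ∪ F j).card := by rw [hE]; exact card_biUnion_le
      have : (E.card : ℤ) ≤ ∑ j ∈ range I, ((T j ∪ F j).card : ℤ) := by exact_mod_cast this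
      refine this.trans (sum_le_sum ?_)
      intro j _
      have b1 : (T j).card ≤ (N j \ N (j + 1)).card := by rw [hT]; exact card_image_le
      have b2 : (N j \ N (j + 1)).card + (N (j + 1)).card = (N j).card :=
        card_sdiff_add_card_eq_card (N1 j)
      have b3 : (A j).card ≤ 2 * (N j \ N (j + (k + 1))).card := by
        apply active_card hδ (t := 2 ^ k * (2 ^ j * r))
        · intro p hp q hq hpq
          have := N2 (j + (k + 1)) p hp q hq hpq
          have e1 : (2 : ℝ) ^ (j + (k + 1)) * r = 2 * (2 ^ k * (2 ^ j * r)) := by ring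
          rw [e1] at this
          exact this
        · positivity
        · exact hAN j
        · intro p hp
          rw [hA] at hp
          exact (mem_filter.1 hp).2
      have b4 : (N j \ N (j + (k + 1))).card + (N (j + (k + 1))).card = (N j).card :=
        card_sdiff_add_card_eq_card (sub_nets N1 j (k + 1))
      have b5 := hF1 j
      have b6 : (T j ∪ F j).card ≤ (T j).card + (F j).card := card_union_le _ _
      have b7 : ((A j).card : ℤ) ≤ 2 * (((N j).card : ℤ) - (N (j + (k + 1))).card) := by omega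
      have b8 : (κ : ℤ) * ((A j).card : ℤ)
          ≤ (κ : ℤ) * (2 * (((N j).card : ℤ) - (N (j + (k + 1))).card)) :=
        mul_le_mul_of_nonneg_left b7 (by positivity)
      have b9 : ((F j).card : ℤ) ≤ (κ : ℤ) * ((A j).card : ℤ) := by exact_mod_cast b5
      have b10 : ((T j ∪ F j).card : ℤ) ≤ (T j).card + (F j).card := by exact_mod_cast b6
      have b11 : ((T j).card : ℤ) ≤ ((N j).card : ℤ) - (N (j + 1)).card := by omega
      linarith
    have c2 := tele (fun j => ((N j).card : ℤ)) 1 I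
    have c3 := tele (fun j => ((N j).card : ℤ)) (k + 1) I
    simp only [sum_range_one, add_zero] at c2
    rw [N0] at c2
    have c4 : ∑ j ∈ range (k + 1), ((N j).card : ℤ) ≤ (k + 1) * (M.card : ℤ) := by
      calc ∑ j ∈ range (k + 1), ((N j).card : ℤ) ≤ ∑ j ∈ range (k + 1), (M.card : ℤ) := by
            apply sum_le_sum
            intro j _
            have : N (0 + j) ⊆ N 0 := sub_nets N1 0 j
            rw [N0, zero_add] at this
            exact_mod_cast card_le_card this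
        _ = (k + 1) * (M.card : ℤ) := by simp
    have c5 : 0 ≤ ∑ j ∈ range (k + 1), ((N (I + j)).card : ℤ) :=
      sum_nonneg fun j _ => by positivity
    have c6 : ∑ j ∈ range I, (κ : ℤ) * (2 * (((N j).card : ℤ) - (N (j + (k + 1))).card))
        = (κ : ℤ) * 2 * ∑ j ∈ range I, (((N j).card : ℤ) - (N (j + (k + 1))).card) := by
      rw [mul_sum]
      apply sum_congr rfl
      intro j _
      ring
    have c7 : ∑ j ∈ range I, (((N j).card : ℤ) - (N (j + (k + 1))).card)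
        ≤ (k + 1) * (M.card : ℤ) := by linarith
    have c8 : (κ : ℤ) * 2 * ∑ j ∈ range I, (((N j).card : ℤ) - (N (j + (k + 1))).card)
        ≤ (κ : ℤ) * 2 * ((k + 1) * (M.card : ℤ)) :=
      mul_le_mul_of_nonneg_left c7 (by positivity)
    have c9 : ∑ j ∈ range I, (((N j).card : ℤ) - (N (j + 1)).card) ≤ M.card := by
      have : (0 : ℤ) ≤ (N I).card := by positivity
      linarith
    have c10 : (E.card : ℤ) ≤ ((1 + 2 * (k + 1) * κ) * M.card : ℤ) := by
      rw [c6] at c1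
      linarith
    exact_mod_cast c10
  · have claim : ∀ i j, j + i = I → ∀ x ∈ N j, ∀ y ∈ N j, ∃ L,
        Path δ (E : Set (Sym2 P)) x y L ∧
        (L ≤ δ x y ∨ L ≤ (1 + 20 / 2 ^ k) * δ x y - 12 * (2 ^ j * r)) := by
      intro i
      induction i with
      | zero =>
        intro j hj x hx y hy
        have hj' : j = I := by omega
        have e1 : x = y := by
          by_contra hne
          have f1 := N2 j x hx y hy hne
          have s1 : N (0 + j) ⊆ N 0 := sub_nets N1 0 j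
          rw [N0, zero_add] at s1
          have f2 := hI x (s1 hx) y (s1 hy)
          rw [hj'] at f1
          linarith
        rw [e1]
        exact ⟨0, Path.nil _, Or.inl (hnn _ _)⟩
      | succ i ih =>
        intro j hj x hx y hy
        have hjI : j < I := by omega
        by_cases hxy : x = y
        · rw [hxy]
          exact ⟨0, Path.nil _, Or.inl (hnn _ _)⟩
        by_cases hclose : δ x y ≤ 2 ^ k * (2 ^ j * r)
        · refine ⟨δ x y, ?_, Or.inl le_rfl⟩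
          refine (hF2 j x ?_ y ?_ hclose).mono (subF j hjI)
          · rw [hA]
            exact mem_filter.2 ⟨hx, y, hy, Ne.symm hxy, hclose⟩
          · rw [hA]
            exact mem_filter.2 ⟨hy, x, hx, hxy, by rw [hδ.symm]; exact hclose⟩
        · have up : ∀ x ∈ N j, ∃ x' ∈ N (j + 1), δ x x' ≤ 2 * (2 ^ j * r) ∧
              Path δ (E : Set (Sym2 P)) x x' (δ x x') := by
            intro x hx
            by_cases hx1 : x ∈ N (j + 1)
            · refine ⟨x, hx1, ?_, ?_⟩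
              · rw [hδ.self]; positivity
              · exact (Path.nil x).cast (by rw [hδ.self])
            · refine ⟨π j x, hπ1 j x hx, ?_, ?_⟩
              · have := hπ2 j x hx
                have e1 : (2 : ℝ) ^ (j + 1) * r = 2 * (2 ^ j * r) := by ring
                rw [e1] at this
                exact this
              · apply Path.single
                apply subT j hjI
                rw [mem_coe, hT]
                exact mem_image.2 ⟨x, mem_sdiff.2 ⟨hx, hx1⟩, rfl⟩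
          obtain ⟨x', hx', hx2, hx3⟩ := up x hx
          obtain ⟨y', hy', hy2, hy3⟩ := up y hy
          obtain ⟨L, hL, hL2⟩ := ih (j + 1) (by omega) x' hx' y' hy'
          refine ⟨δ x x' + (L + δ y' y), hx3.append (hL.append
            ((hy3.symm hδ).cast (hδ.symm _ _))), Or.inr ?_⟩
          have t1 := hδ.tri x' x y'
          have t2 := hδ.tri x y y'
          rw [hδ.symm x' x] at t1
          rw [hδ.symm y' y]
          obtain ⟨R, hR⟩ : ∃ R, R = 2 ^ j * r := ⟨_, rfl⟩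
          have hRpos : 0 < R := by rw [hR]; positivity
          have e2 : (2 : ℝ) ^ (j + 1) * r = 2 * R := by rw [hR]; ring
          rw [e2] at hL2
          rw [← hR] at hx2 hy2 hclose ⊢
          push Not at hclose
          have t3 : 20 * R ≤ 20 / 2 ^ k * δ x y := by
            have : 20 / 2 ^ k * (2 ^ k * R) ≤ 20 / 2 ^ k * δ x y :=
              mul_le_mul_of_nonneg_left hclose.le hη0.le
            have e3 : (20 : ℝ) / 2 ^ k * (2 ^ k * R) = 20 * R := by field_simp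
            rwa [e3] at this
          rcases hL2 with hL2 | hL2
          · linarith
          · have t4 : δ x' y' ≤ δ x y + 4 * R := by linarith
            have t5 : (1 + 20 / 2 ^ k) * δ x' y' ≤ (1 + 20 / 2 ^ k) * (δ x y + 4 * R) :=
              mul_le_mul_of_nonneg_left t4 (by linarith)
            have t6 : 20 / 2 ^ k * (4 * R) ≤ 1 * (4 * R) :=
              mul_le_mul_of_nonneg_right hη1 (by linarith)
            linarith
    intro p hp q hq
    obtain ⟨L, hL, hL2⟩ := claim I 0 (by omega) p (by rw [N0]; exact hp) q (by rw [N0]; exact hq)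
    refine ⟨L, hL, ?_⟩
    have := hnn p q
    rcases hL2 with h | h
    · have : 0 ≤ 20 / 2 ^ k * δ p q := mul_nonneg hη0.le this
      linarith
    · have : (0 : ℝ) < 2 ^ 0 * r := by positivity
      linarith

end Abstract

section Grid

variable {e : ℕ} {ρ : (Fin (e + 1) → ℝ) → (Fin (e + 1) → ℝ) → ℝ}

lemma shift_floor {u v : ℝ} (h : |u - v| ≤ 1) :
    ⌊u / 2⌋ = ⌊v / 2⌋ ∨ ⌊(u + 1) / 2⌋ = ⌊(v + 1) / 2⌋ := by
  by_contra hh
  rw [not_or] at hh
  obtain ⟨h1, h2⟩ := hh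
  have a1 := Int.floor_le (u / 2)
  have a2 := Int.lt_floor_add_one (u / 2)
  have a3 := Int.floor_le (v / 2)
  have a4 := Int.lt_floor_add_one (v / 2)
  have b1 := Int.floor_le ((u + 1) / 2)
  have b2 := Int.lt_floor_add_one ((u + 1) / 2)
  have b3 := Int.floor_le ((v + 1) / 2)
  have b4 := Int.lt_floor_add_one ((v + 1) / 2)
  obtain ⟨A, hA⟩ : ∃ A, A = ⌊u / 2⌋ := ⟨_, rfl⟩
  obtain ⟨B, hB⟩ : ∃ B, B = ⌊v / 2⌋ := ⟨_, rfl⟩
  obtain ⟨C, hC⟩ : ∃ C, C = ⌊(u + 1) / 2⌋ := ⟨_, rfl⟩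
  obtain ⟨D, hD⟩ : ∃ D, D = ⌊(v + 1) / 2⌋ := ⟨_, rfl⟩
  rw [← hA] at a1 a2 h1
  rw [← hB] at a3 a4 h1
  rw [← hC] at b1 b2 h2
  rw [← hD] at b3 b4 h2
  rw [abs_le] at h
  rcases lt_or_gt_of_ne h1 with h1' | h1' <;> rcases lt_or_gt_of_ne h2 with h2' | h2'
  · have c1 : (A : ℝ) + 1 ≤ B := by exact_mod_cast h1'
    have c2 : (C : ℝ) + 1 ≤ D := by exact_mod_cast h2'
    have c3 : (2 * B - (2 * D - 1) : ℝ) < 1 := by linarith
    have c4 : (-1 : ℝ) < 2 * B - (2 * D - 1) := by linarith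
    have c5 : 2 * B - (2 * D - 1) < 1 := by exact_mod_cast c3
    have c6 : -1 < 2 * B - (2 * D - 1) := by exact_mod_cast c4
    omega
  · have c1 : (A : ℝ) + 1 ≤ B := by exact_mod_cast h1'
    have c2 : (D : ℝ) + 1 ≤ C := by exact_mod_cast h2'
    linarith
  · have c1 : (B : ℝ) + 1 ≤ A := by exact_mod_cast h1'
    have c2 : (C : ℝ) + 1 ≤ D := by exact_mod_cast h2'
    linarith
  · have c1 : (B : ℝ) + 1 ≤ A := by exact_mod_cast h1'
    have c2 : (D : ℝ) + 1 ≤ C := by exact_mod_cast h2'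
    have c3 : (2 * A - (2 * C - 1) : ℝ) < 1 := by linarith
    have c4 : (-1 : ℝ) < 2 * A - (2 * C - 1) := by linarith
    have c5 : 2 * A - (2 * C - 1) < 1 := by exact_mod_cast c3
    have c6 : -1 < 2 * A - (2 * C - 1) := by exact_mod_cast c4
    omega

/-- Exact networks for bounded clusters give exact local networks. -/
lemma localNet (hlow : ∀ x y k, |x k - y k| ≤ ρ x y)
    (hup : ∀ x y (s : ℝ), 0 < s → (∀ k, |x k - y k| < s) → ρ x y ≤ (e + 1) * s)
    (k κ : ℕ)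
    (hnet : ∀ A : Finset (Fin (e + 1) → ℝ), A.card ≤ (2 ^ (k + 1) * (e + 1)) ^ (e + 1) →
      ∃ E : Finset (Sym2 (Fin (e + 1) → ℝ)), E.card ≤ κ * A.card ∧
        ∀ p ∈ A, ∀ q ∈ A, Path ρ (E : Set (Sym2 (Fin (e + 1) → ℝ))) p q (ρ p q))
    {r : ℝ} (hr : 0 < r) (A : Finset (Fin (e + 1) → ℝ))
    (hsep : ∀ p ∈ A, ∀ q ∈ A, p ≠ q → r < ρ p q) :
    ∃ E : Finset (Sym2 (Fin (e + 1) → ℝ)), E.card ≤ (2 ^ (e + 1) * κ) * A.card ∧
      ∀ p ∈ A, ∀ q ∈ A, ρ p q ≤ 2 ^ k * r →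
        Path ρ (E : Set (Sym2 (Fin (e + 1) → ℝ))) p q (ρ p q) := by
  classical
  obtain ⟨sh, hsh⟩ : ∃ sh : (Fin (e + 1) → Bool) → Fin (e + 1) → ℝ, sh = fun τ i =>
    if τ i then 1 else 0 := ⟨_, rfl⟩
  obtain ⟨cell, hcell⟩ : ∃ cell : (Fin (e + 1) → Bool) → (Fin (e + 1) → ℝ) → Fin (e + 1) → ℤ,
    cell = fun τ x i => ⌊(x i / (2 ^ k * r) + sh τ i) / 2⌋ := ⟨_, rfl⟩
  have hclus : ∀ τ z, (A.filter fun x => cell τ x = z).card
      ≤ (2 ^ (k + 1) * (e + 1)) ^ (e + 1) := by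
    intro τ z
    obtain ⟨W, hW⟩ : ∃ W : ℤ, W = 2 ^ (k + 1) * (e + 1) := ⟨_, rfl⟩
    have hWpos : 0 < W := by rw [hW]; positivity
    obtain ⟨sub, hsub⟩ : ∃ sub : (Fin (e + 1) → ℝ) → Fin (e + 1) → ℤ, sub = fun x i =>
      ⌊(x i / (2 ^ k * r) + sh τ i) / 2 * W⌋ := ⟨_, rfl⟩
    have hcard : (Fintype.piFinset fun i : Fin (e + 1) => Finset.Ico (W * z i) (W * (z i + 1))).card
        = (2 ^ (k + 1) * (e + 1)) ^ (e + 1) := by
      rw [Fintype.card_piFinset]
      have : ∀ i : Fin (e + 1), (Finset.Ico (W * z i) (W * (z i + 1))).card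
          = 2 ^ (k + 1) * (e + 1) := by
        intro i
        rw [Int.card_Ico]
        have e1 : W * (z i + 1) - W * z i = ((2 ^ (k + 1) * (e + 1) : ℕ) : ℤ) := by
          rw [hW]; push_cast; ring
        rw [e1]
        exact Int.toNat_natCast _
      simp [this]
    rw [← hcard]
    apply card_le_card_of_injOn sub
    · intro x hx
      have hx' := (mem_filter.1 (mem_coe.1 hx)).2
      rw [mem_coe, Fintype.mem_piFinset]
      intro i
      have h1 := congrFun hx' i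
      rw [hcell] at h1
      simp only at h1
      rw [Int.floor_eq_iff] at h1
      have hW' : (0 : ℝ) < W := by exact_mod_cast hWpos
      rw [mem_Ico, hsub]
      simp only
      constructor
      · rw [Int.le_floor]
        push_cast
        nlinarith [h1.1]
      · rw [Int.floor_lt]
        push_cast
        nlinarith [h1.2]
    · intro x hx y hy hxy
      have hx' := (mem_filter.1 (mem_coe.1 hx)).1
      have hy' := (mem_filter.1 (mem_coe.1 hy)).1
      by_contra hne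
      have h1 := hsep x hx' y hy' hne
      have h2 := hup x y (r / (e + 1)) (by positivity) (by
        intro i
        have h3 := congrFun hxy i
        rw [hsub] at h3
        simp only at h3
        have h4 := Int.abs_sub_lt_one_of_floor_eq_floor h3
        have e2 : (x i / (2 ^ k * r) + sh τ i) / 2 * W - (y i / (2 ^ k * r) + sh τ i) / 2 * W
            = (x i - y i) * ((e + 1) / r) := by
          rw [hW]
          push_cast
          field_simp
          ring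
        rw [e2, abs_mul, abs_of_pos (by positivity : (0 : ℝ) < (e + 1) / r)] at h4
        rw [lt_div_iff₀ (by positivity)]
        rw [mul_div_assoc', div_lt_one hr] at h4
        exact h4)
      have e3 : ((e : ℝ) + 1) * (r / (e + 1)) = r := by field_simp
      rw [e3] at h2
      linarith
  choose F hF1 hF2 using fun τ z => hnet (A.filter fun x => cell τ x = z) (hclus τ z)
  refine ⟨univ.biUnion fun τ => (A.image (cell τ)).biUnion fun z => F τ z, ?_, ?_⟩
  · refine card_biUnion_le.trans ?_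
    have h1 : ∀ τ ∈ (univ : Finset (Fin (e + 1) → Bool)),
        ((A.image (cell τ)).biUnion fun z => F τ z).card ≤ κ * A.card := by
      intro τ _
      refine card_biUnion_le.trans ?_
      refine (sum_le_sum fun z _ => hF1 τ z).trans ?_
      rw [← mul_sum, ← card_eq_sum_card_image]
    refine (sum_le_sum h1).trans ?_
    rw [sum_const, card_univ]
    simp [mul_assoc]
  · intro p hp q hq hpq
    have h1 : ∀ i, ∃ b : Bool, ⌊(p i / (2 ^ k * r) + if b then 1 else 0) / 2⌋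
        = ⌊(q i / (2 ^ k * r) + if b then 1 else 0) / 2⌋ := by
      intro i
      have h2 : |p i / (2 ^ k * r) - q i / (2 ^ k * r)| ≤ 1 := by
        rw [← sub_div, abs_div, abs_of_pos (by positivity : (0 : ℝ) < 2 ^ k * r),
          div_le_one (by positivity)]
        exact (hlow p q i).trans hpq
      rcases shift_floor h2 with h3 | h3
      · exact ⟨false, by simpa using h3⟩
      · exact ⟨true, by simpa using h3⟩
    choose τ hτ using h1
    have h2 : cell τ q = cell τ p := by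
      rw [hcell]
      funext i
      rw [hsh]
      exact (hτ i).symm
    refine (hF2 τ (cell τ p) p (mem_filter.2 ⟨hp, rfl⟩) q (mem_filter.2 ⟨hq, h2⟩)).mono ?_
    intro x hx
    rw [mem_coe] at hx ⊢
    exact mem_biUnion.2 ⟨τ, mem_univ _, mem_biUnion.2 ⟨cell τ p, mem_image_of_mem _ hp, hx⟩⟩

end Grid

lemma bound {X : Type} {ρ : X → X → ℝ} (hδ : MetricLike ρ) {k κ : ℕ} (hk : 5 ≤ k)
    (hloc : ∀ r : ℝ, 0 < r → ∀ A : Finset X, (∀ p ∈ A, ∀ q ∈ A, p ≠ q → r < ρ p q) →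
      ∃ E : Finset (Sym2 X), E.card ≤ κ * A.card ∧
        ∀ p ∈ A, ∀ q ∈ A, ρ p q ≤ 2 ^ k * r → Path ρ (E : Set (Sym2 X)) p q (ρ p q))
    {c : ℝ} (hc : 1 + 20 / 2 ^ k ≤ c) {n : ℕ} (hn : 1 ≤ n) :
    minEdges ρ n c ≤ (1 + 2 * (k + 1) * κ) * n := by
  classical
  apply Nat.sInf_le
  intro M hM
  obtain ⟨E, h1, h2⟩ := glue hδ k κ hk hloc M
  have hne : M.Nonempty := card_pos.1 (by omega)
  obtain ⟨V, hV, G, w, g1, g2, g3, g4⟩ := graph_of_net' hδ c M hne E (by
    intro p hp q hq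
    obtain ⟨L, hL, hL2⟩ := h2 p hp q hq
    refine ⟨L, hL, hL2.trans (mul_le_mul_of_nonneg_right hc ?_)⟩
    by_cases hpq : p = q
    · rw [hpq, hδ.self]
    · exact (hδ.pos p q hpq).le)
  refine ⟨V, hV, G, w, g1, g2, g3.trans ?_, g4⟩
  rw [hM] at h1
  exact h1

lemma card_le_two_pow {e k c : ℕ} (h : c ≤ (2 ^ (k + 1) * (e + 1)) ^ (e + 1)) :
    c ≤ 2 ^ ((k + 1 + e) * (e + 1)) := by
  refine h.trans ?_
  have h1 : e + 1 ≤ 2 ^ e := Nat.lt_two_pow_self
  rw [pow_mul, pow_add 2 (k + 1) e]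
  exact Nat.pow_le_pow_left (Nat.mul_le_mul_left _ h1) _

lemma numericE (e s K0 : ℕ) {C : ℝ}
    (hC : C = 1 + 16 * 2 ^ (e + 1) * K0 * (((8 : ℝ) + e) * (e + 1) + 1) ^ s) {c : ℝ}
    (hc : 1 < c) : ∃ k : ℕ, 5 ≤ k ∧
    1 + 20 / 2 ^ k ≤ c ∧
    ((1 + 2 * (k + 1) * (2 ^ (e + 1) * (K0 * ((k + 1 + e) * (e + 1) + 1) ^ s)) : ℕ) : ℝ)
      ≤ C * (Real.logb 2 (2 + 1 / (c - 1))) ^ (s + 1) := by
  obtain ⟨Q, hQ⟩ : ∃ Q : ℝ, Q = (8 + e) * (e + 1) + 1 := ⟨_, rfl⟩
  have hQ0 : 0 < Q := by rw [hQ]; positivity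
  rw [← hQ] at hC
  have hc0 : 0 < c - 1 := by linarith
  obtain ⟨t, ht⟩ : ∃ t, t = Real.logb 2 (2 + 1 / (c - 1)) := ⟨_, rfl⟩
  have hpos : (0 : ℝ) < 2 + 1 / (c - 1) := by positivity
  have ht1 : 1 ≤ t := by
    rw [ht, Real.le_logb_iff_rpow_le (by norm_num) hpos, Real.rpow_one]
    have : 0 < 1 / (c - 1) := by positivity
    linarith
  have ht2 : (2 : ℝ) ^ t = 2 + 1 / (c - 1) := by
    rw [ht]
    exact Real.rpow_logb (by norm_num) (by norm_num) hpos
  obtain ⟨k0, hk0⟩ : ∃ k0, k0 = ⌈t⌉₊ := ⟨_, rfl⟩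
  have hk1 : t ≤ k0 := by rw [hk0]; exact Nat.le_ceil t
  have hk2 : (k0 : ℝ) < t + 1 := by rw [hk0]; exact Nat.ceil_lt_add_one (by linarith)
  have h32 : 32 * (2 + 1 / (c - 1)) ≤ (2 : ℝ) ^ (k0 + 5) := by
    rw [pow_add, ← ht2]
    have : (2 : ℝ) ^ t ≤ 2 ^ k0 := by
      rw [← Real.rpow_natCast]
      exact Real.rpow_le_rpow_of_exponent_le (by norm_num) hk1
    linarith
  refine ⟨k0 + 5, by omega, ?_, ?_⟩
  · have h1 : (20 : ℝ) / 2 ^ (k0 + 5) ≤ c - 1 := by
      rw [div_le_iff₀ (by positivity)]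
      have h2 : (c - 1) * (32 * (2 + 1 / (c - 1))) ≤ (c - 1) * 2 ^ (k0 + 5) :=
        mul_le_mul_of_nonneg_left h32 hc0.le
      have h3 : (c - 1) * (32 * (2 + 1 / (c - 1))) = 64 * (c - 1) + 32 := by
        field_simp
        ring
      linarith
    linarith
  · rw [← ht, hC]
    push_cast
    have e1 : (k0 : ℝ) + 5 + 1 ≤ 8 * t := by linarith
    have e2 : ((k0 : ℝ) + 5 + 1 + e) * (e + 1) + 1 ≤ Q * t := by
      rw [hQ]
      have he : (0 : ℝ) ≤ e := by positivity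
      have f1 : ((k0 : ℝ) + 5 + 1 + e) * (e + 1) ≤ (8 * t + e * t) * (e + 1) := by
        apply mul_le_mul_of_nonneg_right _ (by positivity)
        nlinarith
      nlinarith
    have e3 : (((k0 : ℝ) + 5 + 1 + e) * (e + 1) + 1) ^ s ≤ Q ^ s * t ^ s := by
      rw [← mul_pow]
      exact pow_le_pow_left₀ (by positivity) e2 s
    have e4 : (1 : ℝ) ≤ t ^ (s + 1) := one_le_pow₀ ht1
    calc 1 + 2 * ((k0 : ℝ) + 5 + 1) * (2 ^ (e + 1) *
          ((K0 : ℝ) * ((((k0 : ℝ) + 5 + 1 + e) * (e + 1) + 1) ^ s)))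
        ≤ 1 + 2 * (8 * t) * (2 ^ (e + 1) * ((K0 : ℝ) * (Q ^ s * t ^ s))) := by
          gcongr
      _ = 1 + 16 * 2 ^ (e + 1) * K0 * Q ^ s * t ^ (s + 1) := by ring
      _ ≤ t ^ (s + 1) + 16 * 2 ^ (e + 1) * K0 * Q ^ s * t ^ (s + 1) := by linarith
      _ = (1 + 16 * 2 ^ (e + 1) * K0 * Q ^ s) * t ^ (s + 1) := by ring

lemma upper1E (e : ℕ) {C : ℝ}
    (hC : C = 1 + 16 * 2 ^ (e + 1) * (e + 1 : ℕ) * (((8 : ℝ) + e) * (e + 1) + 1) ^ e)
    {c : ℝ} (hc : 1 < c) {n : ℕ} (hn : 1 ≤ n) :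
    (minEdges (l1 (d := e + 1)) n c : ℝ) ≤ C * (Real.logb 2 (2 + 1 / (c - 1))) ^ (e + 1) * n := by
  obtain ⟨k, hk, hkc, hk2⟩ := numericE e e (e + 1) hC hc
  have h1 := bound (l1_metric (d := e + 1)) (k := k)
    (κ := 2 ^ (e + 1) * ((e + 1) * ((k + 1 + e) * (e + 1) + 1) ^ e)) hk (by
      intro r hr A hsep
      apply localNet ?_ ?_ k _ ?_ hr A hsep
      · intro x y i
        exact single_le_sum (f := fun i => |x i - y i|) (fun i _ => abs_nonneg _) (mem_univ i)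
      · intro x y s _ hs
        simp only [l1]
        refine (sum_le_sum fun i _ => (hs i).le).trans ?_
        simp
      · intro A hA
        exact netD e _ A (card_le_two_pow hA)) hkc hn
  calc (minEdges (l1 (d := e + 1)) n c : ℝ)
      ≤ ((1 + 2 * (k + 1) * (2 ^ (e + 1) * ((e + 1) * ((k + 1 + e) * (e + 1) + 1) ^ e)) : ℕ) : ℝ)
        * n := by exact_mod_cast h1
    _ ≤ _ := mul_le_mul_of_nonneg_right hk2 (by positivity)

lemma upper8E (e : ℕ) (he : 1 ≤ e) {C : ℝ}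
    (hC : C = 1 + 16 * 2 ^ (e + 1) * ((e + 1) * 2 ^ (e + 1) : ℕ)
      * (((8 : ℝ) + e) * (e + 1) + 1) ^ (2 * e))
    {c : ℝ} (hc : 1 < c) {n : ℕ} (hn : 1 ≤ n) :
    (minEdges (linf (d := e + 1)) n c : ℝ)
      ≤ C * (Real.logb 2 (2 + 1 / (c - 1))) ^ (2 * e + 1) * n := by
  obtain ⟨k, hk, hkc, hk2⟩ := numericE e (2 * e) ((e + 1) * 2 ^ (e + 1)) hC hc
  have h1 := bound (linf_metric (d := e + 1)) (k := k)
    (κ := 2 ^ (e + 1) * ((e + 1) * 2 ^ (e + 1) * ((k + 1 + e) * (e + 1) + 1) ^ (2 * e))) hk (by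
      intro r hr A hsep
      apply localNet ?_ ?_ k _ ?_ hr A hsep
      · intro x y i
        exact le_linf x y i
      · intro x y s hs0 hs
        apply linf_le (by positivity)
        intro i
        have := hs i
        have he' : (0 : ℝ) ≤ e * s := by positivity
        nlinarith
      · intro A hA
        obtain ⟨E, h1, h2⟩ := netInf he _ A (card_le_two_pow hA)
        refine ⟨E, h1.trans (le_of_eq ?_), h2⟩
        ring) hkc hn
  calc (minEdges (linf (d := e + 1)) n c : ℝ)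
      ≤ ((1 + 2 * (k + 1) * (2 ^ (e + 1) * ((e + 1) * 2 ^ (e + 1)
        * ((k + 1 + e) * (e + 1) + 1) ^ (2 * e))) : ℕ) : ℝ) * n := by exact_mod_cast h1
    _ ≤ _ := mul_le_mul_of_nonneg_right hk2 (by positivity)

lemma seq {X : Type} {ρ : X → X → ℝ} {m : ℕ} (h : ∃ C : ℝ, 0 < C ∧ ∀ N : ℕ, ∃ n : ℕ, N ≤ n ∧
      ∀ c : ℝ, 1 ≤ c → c ≤ 1 + 1 / (4 * (m + 1) * n) →
      C * n * (Real.logb 2 n / Real.logb 2 (Real.logb 2 n)) ^ m ≤ minEdges ρ n c) :
    ∃ C : ℝ, 0 < C ∧ ∀ ε : ℝ, 0 < ε → ∃ c : ℝ, 1 < c ∧ c < 1 + ε ∧ ∃ n : ℕ, 2 ≤ n ∧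
      C * (Real.logb 2 (1 / (c - 1)) / Real.logb 2 (Real.logb 2 (1 / (c - 1)))) ^ m * n
        ≤ minEdges ρ n c := by
  obtain ⟨C, hC, h⟩ := h
  refine ⟨C / 2 ^ m, by positivity, ?_⟩
  intro ε hε
  obtain ⟨n, hn, h⟩ := h (16 + 4 * (m + 1) + ⌈1 / ε⌉₊)
  have n1 : 16 ≤ n := by omega
  have n2 : 4 * (m + 1) ≤ n := by omega
  have n3 : 1 / ε ≤ n := (Nat.le_ceil _).trans (by exact_mod_cast (by omega : ⌈1 / ε⌉₊ ≤ n))
  have n1' : (16 : ℝ) ≤ n := by exact_mod_cast n1
  have n2' : 4 * ((m : ℝ) + 1) ≤ n := by exact_mod_cast n2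
  obtain ⟨D, hD⟩ : ∃ D : ℝ, D = 4 * (m + 1) * n := ⟨_, rfl⟩
  have hm0 : (0 : ℝ) ≤ m := by positivity
  have hDn : (n : ℝ) < D := by rw [hD]; nlinarith
  have hD0 : 0 < D := by linarith
  refine ⟨1 + 1 / D, ?_, ?_, n, by omega, ?_⟩
  · have : 0 < 1 / D := by positivity
    linarith
  · have : 1 / D < ε := by
      rw [div_lt_iff₀ hD0]
      rw [div_le_iff₀ hε] at n3
      nlinarith
    linarith
  · have e1 : 1 / (1 + 1 / D - 1) = D := by field_simp; ring
    rw [e1]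
    have h1 := h (1 + 1 / D) (by have : 0 < 1 / D := by positivity
                                 linarith) (by rw [hD])
    refine le_trans ?_ h1
    obtain ⟨v, hv⟩ : ∃ v, v = Real.logb 2 n := ⟨_, rfl⟩
    obtain ⟨u, hu⟩ : ∃ u, u = Real.logb 2 D := ⟨_, rfl⟩
    rw [← hv, ← hu]
    have hv4 : 4 ≤ v := by
      rw [hv, Real.le_logb_iff_rpow_le (by norm_num) (by linarith)]
      norm_num
      exact n1
    have huv : v ≤ u := by
      rw [hv, hu]
      exact Real.logb_le_logb_of_le (by norm_num) (by linarith) hDn.le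
    have hu2 : u ≤ 2 * v := by
      rw [hv, hu]
      have : Real.logb 2 D ≤ Real.logb 2 ((n : ℝ) * n) := by
        apply Real.logb_le_logb_of_le (by norm_num) hD0
        rw [hD]
        exact mul_le_mul_of_nonneg_right n2' (by positivity)
      rw [Real.logb_mul (by linarith) (by linarith)] at this
      linarith
    have hlv : 0 < Real.logb 2 v := Real.logb_pos (by norm_num) (by linarith)
    have hlu : Real.logb 2 v ≤ Real.logb 2 u :=
      Real.logb_le_logb_of_le (by norm_num) (by linarith) huv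
    have h2 : u / Real.logb 2 u ≤ 2 * (v / Real.logb 2 v) := by
      calc u / Real.logb 2 u ≤ (2 * v) / Real.logb 2 v := by
            apply div_le_div₀ (by linarith) hu2 hlv hlu
        _ = 2 * (v / Real.logb 2 v) := by ring
    have h3 : (u / Real.logb 2 u) ^ m ≤ 2 ^ m * (v / Real.logb 2 v) ^ m := by
      rw [← mul_pow]
      apply pow_le_pow_left₀ _ h2
      apply div_nonneg (by linarith) (by linarith)
    calc C / 2 ^ m * (u / Real.logb 2 u) ^ m * n
        ≤ C / 2 ^ m * (2 ^ m * (v / Real.logb 2 v) ^ m) * n := by gcongr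
      _ = C * n * (v / Real.logb 2 v) ^ m := by field_simp

/-- Let `E_p(n, c, d)` be `minEdges ρ n c` for `ρ` the distance of `ℓ_p^d`, `p = 1` or `∞`, and
`t = log₂ (2 + 1/(c-1))`, `u = log₂ (1/(c-1))` for `c > 1`. Explicit upper bounds
`E_1(n, c, d) ≤ K_d t^d n` and `E_∞(n, c, d) ≤ K'_d t^(2 d - 1) n`; lower bound
`sup_n E_p(n, c, d)/n ≥ u / 12`, and `≥ C (u / log₂ u)^m` for some `c` arbitrarily close to `1`,
if `p = 1`, `d ≥ 2 (m + 1)` or `p = ∞`, `d ≥ 2 m + 3`. -/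
theorem result :
    (∀ d : ℕ, 1 ≤ d → ∀ c : ℝ, 1 < c → ∀ n : ℕ, 1 ≤ n →
      (minEdges (l1 (d := d)) n c : ℝ)
        ≤ (1 + 16 * 2 ^ d * d * (((7 : ℝ) + d) * d + 1) ^ (d - 1))
          * (Real.logb 2 (2 + 1 / (c - 1))) ^ d * n) ∧
    (∀ d : ℕ, 2 ≤ d → ∀ c : ℝ, 1 < c → ∀ n : ℕ, 1 ≤ n →
      (minEdges (linf (d := d)) n c : ℝ)
        ≤ (1 + 16 * 4 ^ d * d * (((7 : ℝ) + d) * d + 1) ^ (2 * (d - 1)))
          * (Real.logb 2 (2 + 1 / (c - 1))) ^ (2 * d - 1) * n) ∧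
    (∀ d : ℕ, 2 ≤ d → ∀ ρ : (Fin d → ℝ) → (Fin d → ℝ) → ℝ, (ρ = l1 ∨ ρ = linf) →
      ∀ c : ℝ, 1 < c → ∃ n : ℕ, 2 ≤ n ∧
        n * (Real.logb 2 (1 / (c - 1)) / 12) ≤ minEdges ρ n c) ∧
    (∀ m d : ℕ, 1 ≤ m → 2 * (m + 1) ≤ d →
      ∃ C : ℝ, 0 < C ∧ ∀ ε : ℝ, 0 < ε → ∃ c : ℝ, 1 < c ∧ c < 1 + ε ∧ ∃ n : ℕ, 2 ≤ n ∧
        C * (Real.logb 2 (1 / (c - 1)) / Real.logb 2 (Real.logb 2 (1 / (c - 1)))) ^ m * n
          ≤ minEdges (l1 (d := d)) n c) ∧
    (∀ m d : ℕ, 1 ≤ m → 2 * m + 3 ≤ d →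
      ∃ C : ℝ, 0 < C ∧ ∀ ε : ℝ, 0 < ε → ∃ c : ℝ, 1 < c ∧ c < 1 + ε ∧ ∃ n : ℕ, 2 ≤ n ∧
        C * (Real.logb 2 (1 / (c - 1)) / Real.logb 2 (Real.logb 2 (1 / (c - 1)))) ^ m * n
          ≤ minEdges (linf (d := d)) n c) := by
  refine ⟨?_, ?_, fun d hd ρ hρ => (LogLower.result.2 d hd ρ hρ).2,
    fun m d hm hd => seq (AllDims.result.2.2.2.1 m d hm hd),
    fun m d hm hd => seq (AllDims.result.2.2.2.2 m d hm hd)⟩
  · intro d hd c hc n hn
    obtain ⟨e, rfl⟩ : ∃ e, d = e + 1 := ⟨d - 1, by omega⟩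
    apply upper1E e _ hc hn
    rw [Nat.add_sub_cancel]
    push_cast
    ring_nf
  · intro d hd c hc n hn
    obtain ⟨e, rfl⟩ : ∃ e, d = e + 1 := ⟨d - 1, by omega⟩
    have e1 : 2 * (e + 1) - 1 = 2 * e + 1 := by omega
    rw [e1]
    apply upper8E e (by omega) _ hc hn
    rw [Nat.add_sub_cancel]
    have e2 : (4 : ℝ) ^ (e + 1) = 2 ^ (e + 1) * 2 ^ (e + 1) := by
      rw [← mul_pow]; norm_num
    rw [e2]
    push_cast
    ring_nf

end Pool.Agent.Results.MP_9b2a83_an.Polylog
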